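import Pool.Agent.Helper2.AN.Facts

/-!
AN-08 (project AN, MP_5f0082_gt). Functoriality of the free graded-commutative algebra in the generators,
restriction of a differential.

Proofs.
* `mapL_gen`: `Lam.lift_gen`. `mapL_mon`: induction. The statements on `hom`, `sgn`, `pr`, `FW`, `lamPos`: on monomials
  (`degSum deg (l.map f) = degSum deg' l` by `hf`, `degSum wt (l.map f) = degSum (fun i => wt (f i)) l`), as in `GCA/Basic.lean` (section `Sub`).
* `inclSum_eq`: `Lam.algHom_ext`.
* `mapL_adjoin`: `Algebra.adjoin_induction` or: the range of `mapL` is a subalgebra which contains `gen '' T`.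
* `exists_retr`: `Lam.lift deg (fun i => if h : ∃ i', f i' = i then gen deg' h.choose else 0)`; relations as for `retr` in `GCA/Basic.lean`
  (`hf` for the degrees); `f` injective gives `r (gen (f i)) = gen i`; then all on monomials (a monomial is mapped to a monomial or to `0`).
* `restrict_dat`: put `D i = r (d (gen (f i)))`, in `hom (deg' i + 1)`; `d' = der deg' D _`. `mapL (D i) = d (gen (f i))` by the hypothesis `h` and
  `r (mapL b) = b`. `mapL (d' a) = d (mapL a)` on monomials by induction (`der_mul`, `der_gen`, `d_mul`, `mapL_sgn`, `d_one`, `der_one`), as `incl_derS`.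
  `IsDifferential`: `der_mem`, `der_leibniz`; `d' (d' a) = 0` since `mapL` is injective. `SullivanCondition`: `r` maps
  `adjoin (gen '' {j | deg j < deg (f i)})` into `adjoin (gen '' {j | deg' j < deg' i})` (`AlgHom.map_adjoin`, each `r (gen j)` is `0` or `gen deg' j'` with
  `f j' = j`). `raise`: `r` preserves `FW`.
-/

set_option autoImplicit false

namespace Anick2

variable {ι' ι : Type} {deg' : ι' → ℕ} {deg : ι → ℕ} {f : ι' → ι}

theorem mapL_gen (hf : ∀ i, deg (f i) = deg' i) (i : ι') :
    mapL f hf (gen deg' i) = gen deg (f i) := by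
  unfold mapL
  exact Lam.lift_gen deg' _ _ i

theorem mapL_mon (hf : ∀ i, deg (f i) = deg' i) (l : List ι') :
    mapL f hf (mon deg' l) = mon deg (l.map f) := by
  induction l with
  | nil => simp
  | cons i l ih => rw [mon_cons, map_mul, mapL_gen, ih, List.map_cons, mon_cons]

theorem mapL_degSum (hf : ∀ i, deg (f i) = deg' i) (l : List ι') :
    degSum deg (l.map f) = degSum deg' l := by
  induction l with
  | nil => simp
  | cons i l ih => rw [List.map_cons, degSum_cons, degSum_cons, ih, hf]

theorem mapL_wtSum (wt : ι → ℕ) (l : List ι') :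
    degSum wt (l.map f) = degSum (fun i => wt (f i)) l := by
  induction l with
  | nil => simp
  | cons i l ih => rw [List.map_cons, degSum_cons, degSum_cons, ih]

theorem mapL_hom (hf : ∀ i, deg (f i) = deg' i) {n : ℕ} {a : Lam deg'} (ha : a ∈ hom deg' n) :
    mapL f hf a ∈ hom deg n := by
  refine hom_induction deg' (C := fun a => mapL f hf a ∈ hom deg n) (fun l hl => ?_) ?_
    (fun a b ha hb => by rw [map_add]; exact add_mem ha hb)
    (fun r a ha => by rw [map_smul]; exact Submodule.smul_mem _ _ ha) ha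
  · rw [mapL_mon, ← hl, ← mapL_degSum hf l]
    exact mon_mem_hom deg _
  · rw [map_zero]
    exact zero_mem _

theorem mapL_sgn (hf : ∀ i, deg (f i) = deg' i) (a : Lam deg') :
    mapL f hf (sgn deg' a) = sgn deg (mapL f hf a) := by
  have : (mapL f hf).comp (sgn deg') = (sgn deg).comp (mapL f hf) := by
    refine Lam.algHom_ext _ fun i => ?_
    rw [AlgHom.comp_apply, AlgHom.comp_apply, sgn_gen, map_smul, mapL_gen, sgn_gen, hf]
  exact congrArg (fun g : Lam deg' →ₐ[ℚ] Lam deg => g a) this

theorem mapL_pr (hf : ∀ i, deg (f i) = deg' i) (n : ℕ) (a : Lam deg') :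
    mapL f hf (pr deg' n a) = pr deg n (mapL f hf a) := by
  have : (mapL f hf).toLinearMap.comp (pr deg' n) = (pr deg n).comp (mapL f hf).toLinearMap := by
    refine Lam.linearMap_ext _ fun l => ?_
    rw [LinearMap.comp_apply, LinearMap.comp_apply, AlgHom.toLinearMap_apply,
      AlgHom.toLinearMap_apply, mapL_mon, pr_hom deg' (mon_mem_hom deg' l),
      pr_hom deg (mon_mem_hom deg (l.map f)), mapL_degSum hf]
    split_ifs
    · exact mapL_mon hf l
    · exact map_zero _
  exact congrArg (fun g : Lam deg' →ₗ[ℚ] Lam deg => g a) this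

theorem mapL_FW (hf : ∀ i, deg (f i) = deg' i) {wt : ι → ℕ} {k : ℕ} {a : Lam deg'}
    (ha : a ∈ FW deg' (fun i => wt (f i)) k) : mapL f hf a ∈ FW deg wt k := by
  unfold FW at ha
  induction ha using Submodule.span_induction with
  | mem x hx =>
    obtain ⟨l, hl, rfl⟩ := hx
    refine Submodule.subset_span ⟨l.map f, ?_, mapL_mon hf l⟩
    rw [mapL_wtSum]
    exact hl
  | zero => rw [map_zero]; exact zero_mem _
  | add y z _ _ hy hz => rw [map_add]; exact add_mem hy hz
  | smul r y _ hy => rw [map_smul]; exact Submodule.smul_mem _ _ hy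

theorem mapL_lamPos (hf : ∀ i, deg (f i) = deg' i) {a : Lam deg'} (ha : a ∈ lamPos deg') :
    mapL f hf a ∈ lamPos deg := by
  unfold lamPos at ha
  induction ha using Submodule.span_induction with
  | mem x hx =>
    obtain ⟨l, hl, rfl⟩ := hx
    refine Submodule.subset_span ⟨l.map f, ?_, mapL_mon hf l⟩
    intro h
    exact hl (List.map_eq_nil_iff.1 h)
  | zero => rw [map_zero]; exact zero_mem _
  | add y z _ _ hy hz => rw [map_add]; exact add_mem hy hz
  | smul r y _ hy => rw [map_smul]; exact Submodule.smul_mem _ _ hy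

theorem inclSum_eq {κ : Type} (dk : κ → ℕ) :
    inclSum deg dk = mapL (deg := Sum.elim deg dk) Sum.inl (fun _ => rfl) := by
  refine Lam.algHom_ext _ fun i => ?_
  have h1 : inclSum deg dk (gen deg i) = gen (Sum.elim deg dk) (Sum.inl i) := by
    unfold inclSum
    exact Lam.lift_gen deg _ _ i
  have h2 : mapL (deg := Sum.elim deg dk) (deg' := deg) Sum.inl (fun _ => rfl) (gen deg i) =
      gen (Sum.elim deg dk) (Sum.inl i) :=
    mapL_gen (deg := Sum.elim deg dk) (deg' := deg) (f := Sum.inl) (fun _ => rfl) i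
  exact h1.trans h2.symm

theorem mapL_adjoin (hf : ∀ i, deg (f i) = deg' i) {T : Set ι} (hT : ∀ j ∈ T, j ∈ Set.range f)
    {a : Lam deg} (ha : a ∈ Algebra.adjoin ℚ (gen deg '' T)) : ∃ b, mapL f hf b = a := by
  have hle : Algebra.adjoin ℚ (gen deg '' T) ≤ (mapL f hf).range := by
    refine Algebra.adjoin_le ?_
    rintro _ ⟨j, hj, rfl⟩
    obtain ⟨i, rfl⟩ := hT j hj
    exact ⟨gen deg' i, mapL_gen hf i⟩
  obtain ⟨b, hb⟩ := hle ha
  exact ⟨b, hb⟩

theorem exists_retr (hf : ∀ i, deg (f i) = deg' i) (hinj : Function.Injective f) :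
    ∃ r : Lam deg →ₐ[ℚ] Lam deg', (∀ a, r (mapL f hf a) = a) ∧
      (∀ i, r (gen deg (f i)) = gen deg' i) ∧ (∀ i, i ∉ Set.range f → r (gen deg i) = 0) ∧
      (∀ (n : ℕ) (a : Lam deg), a ∈ hom deg n → r a ∈ hom deg' n) ∧
      (∀ (wt : ι → ℕ) (k : ℕ) (a : Lam deg), a ∈ FW deg wt k →
        r a ∈ FW deg' (fun i => wt (f i)) k) ∧
      (∀ a, r (sgn deg a) = sgn deg' (r a)) := by
  classical
  have hrel : ∀ i j : ι, (if h : ∃ i', f i' = i then gen deg' h.choose else (0 : Lam deg')) *
      (if h : ∃ i', f i' = j then gen deg' h.choose else 0) =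
      (-1 : ℚ) ^ (deg i * deg j) • ((if h : ∃ i', f i' = j then gen deg' h.choose else 0) *
        (if h : ∃ i', f i' = i then gen deg' h.choose else 0)) := by
    intro i j
    by_cases hi : ∃ i', f i' = i
    · by_cases hj : ∃ i', f i' = j
      · rw [dif_pos hi, dif_pos hj]
        have h1 : deg i = deg' hi.choose := by rw [← hf, hi.choose_spec]
        have h2 : deg j = deg' hj.choose := by rw [← hf, hj.choose_spec]
        rw [h1, h2]
        exact gen_comm deg' _ _
      · rw [dif_neg hj, mul_zero, zero_mul, smul_zero]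
    · rw [dif_neg hi, mul_zero, zero_mul, smul_zero]
  let r : Lam deg →ₐ[ℚ] Lam deg' := Lam.lift deg _ hrel
  have hgen : ∀ i, r (gen deg i) =
      if h : ∃ i', f i' = i then gen deg' h.choose else 0 := fun i => Lam.lift_gen deg _ hrel i
  have hr1 : ∀ i, r (gen deg (f i)) = gen deg' i := by
    intro i
    have hex : ∃ i', f i' = f i := ⟨i, rfl⟩
    rw [hgen, dif_pos hex]
    congr 1
    exact hinj hex.choose_spec
  have hr2 : ∀ i, i ∉ Set.range f → r (gen deg i) = 0 := by
    intro i hi
    rw [hgen, dif_neg]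
    rintro ⟨i', hi'⟩
    exact hi ⟨i', hi'⟩
  have hmon : ∀ l : List ι, r (mon deg l) = 0 ∨ ∃ l' : List ι', l'.map f = l ∧
      r (mon deg l) = mon deg' l' := by
    intro l
    induction l with
    | nil => right; exact ⟨[], rfl, by rw [mon_nil, mon_nil, map_one]⟩
    | cons i l ih =>
      rw [mon_cons, map_mul]
      rcases ih with h | ⟨l', hl', h⟩
      · left; rw [h, mul_zero]
      · by_cases hi : i ∈ Set.range f
        · obtain ⟨i', rfl⟩ := hi
          right
          refine ⟨i' :: l', by rw [List.map_cons, hl'], ?_⟩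
          rw [hr1, h, mon_cons]
        · left
          rw [hr2 i hi, zero_mul]
  refine ⟨r, ?_, hr1, hr2, ?_, ?_, ?_⟩
  · intro a
    have : r.comp (mapL f hf) = AlgHom.id ℚ _ := by
      refine Lam.algHom_ext _ fun i => ?_
      rw [AlgHom.comp_apply, mapL_gen, hr1]
      rfl
    exact congrArg (fun g : Lam deg' →ₐ[ℚ] Lam deg' => g a) this
  · intro n a ha
    refine hom_induction deg (C := fun a => r a ∈ hom deg' n) (fun l hl => ?_) ?_
      (fun a b ha hb => by rw [map_add]; exact add_mem ha hb)
      (fun r a ha => by rw [map_smul]; exact Submodule.smul_mem _ _ ha) ha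
    · rcases hmon l with h | ⟨l', hl', h⟩
      · rw [h]; exact zero_mem _
      · rw [h, ← hl, ← hl', mapL_degSum hf]
        exact mon_mem_hom deg' _
    · rw [map_zero]; exact zero_mem _
  · intro wt k a ha
    unfold FW at ha
    induction ha using Submodule.span_induction with
    | mem x hx =>
      obtain ⟨l, hl, rfl⟩ := hx
      rcases hmon l with h | ⟨l', hl', h⟩
      · rw [h]; exact zero_mem _
      · rw [h]
        refine Submodule.subset_span ⟨l', ?_, rfl⟩
        rw [← mapL_wtSum, hl']
        exact hl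
    | zero => rw [map_zero]; exact zero_mem _
    | add y z _ _ hy hz => rw [map_add]; exact add_mem hy hz
    | smul r y _ hy => rw [map_smul]; exact Submodule.smul_mem _ _ hy
  · intro a
    have : r.comp (sgn deg) = (sgn deg').comp r := by
      refine Lam.algHom_ext _ fun i => ?_
      rw [AlgHom.comp_apply, AlgHom.comp_apply, sgn_gen, map_smul]
      by_cases hi : i ∈ Set.range f
      · obtain ⟨i', rfl⟩ := hi
        rw [hr1, sgn_gen, hf]
      · rw [hr2 i hi, smul_zero, map_zero]
    exact congrArg (fun g : Lam deg →ₐ[ℚ] Lam deg' => g a) this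

theorem mapL_injective (hf : ∀ i, deg (f i) = deg' i) (hinj : Function.Injective f) :
    Function.Injective (mapL f hf) := by
  obtain ⟨r, hr, -⟩ := exists_retr hf hinj
  exact Function.LeftInverse.injective hr

theorem restrict_dat (hf : ∀ i, deg (f i) = deg' i) (hinj : Function.Injective f)
    {wt : ι → ℕ} {d : Lam deg →ₗ[ℚ] Lam deg} (hd : Dat deg wt d)
    (h : ∀ i : ι', ∃ b, mapL f hf b = d (gen deg (f i))) :
    ∃ d' : Lam deg' →ₗ[ℚ] Lam deg', Dat deg' (fun i => wt (f i)) d' ∧
      ∀ a, mapL f hf (d' a) = d (mapL f hf a) := by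
  obtain ⟨r, hr, hr1, hr2, hr3, hr4, hr5⟩ := exists_retr hf hinj
  have hD : ∀ i, r (d (gen deg (f i))) ∈ hom deg' (deg' i + 1) := by
    intro i
    refine hr3 _ _ ?_
    rw [← hf i]
    exact hd.diff.map_hom _ _ (gen_mem_hom deg (f i))
  let d' : Lam deg' →ₗ[ℚ] Lam deg' := der deg' (fun i => r (d (gen deg (f i)))) hD
  have hgen : ∀ i, mapL f hf (r (d (gen deg (f i)))) = d (gen deg (f i)) := by
    intro i
    obtain ⟨b, hb⟩ := h i
    rw [← hb, hr]
  have hcomm : ∀ a, mapL f hf (d' a) = d (mapL f hf a) := by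
    have : (mapL f hf).toLinearMap.comp d' = d.comp (mapL f hf).toLinearMap := by
      refine Lam.linearMap_ext _ fun l => ?_
      rw [LinearMap.comp_apply, LinearMap.comp_apply, AlgHom.toLinearMap_apply,
        AlgHom.toLinearMap_apply]
      induction l with
      | nil =>
        have h1 : d' 1 = 0 := der_one deg' _ hD
        rw [mon_nil, h1, map_zero, map_one, d_one hd.diff]
      | cons i l ih =>
        have h1 : d' (gen deg' i * mon deg' l) =
            d' (gen deg' i) * mon deg' l + sgn deg' (gen deg' i) * d' (mon deg' l) :=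
          der_mul deg' _ hD _ _
        have h2 : d' (gen deg' i) = r (d (gen deg (f i))) := der_gen deg' _ hD i
        rw [mon_cons, h1, h2, map_add, map_mul, map_mul, map_mul, hgen, ih, mapL_sgn, mapL_gen,
          d_mul hd.diff]
    exact fun a => congrArg (fun g : Lam deg' →ₗ[ℚ] Lam deg => g a) this
  have hinj' := mapL_injective hf hinj
  refine ⟨d', ⟨?_, fun i => hd.one_le _, ⟨?_, ?_, ?_⟩, ?_, ?_⟩, hcomm⟩
  · intro i
    rw [← hf]
    exact hd.two_le _
  · intro n a ha
    exact der_mem deg' _ hD ha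
  · intro n a ha b
    exact der_leibniz deg' _ hD ha b
  · intro a
    apply hinj'
    rw [hcomm, hcomm, hd.diff.d_d, map_zero]
  · intro i
    have h1 : d' (gen deg' i) = r (d (gen deg (f i))) := der_gen deg' _ hD i
    rw [h1]
    have h2 := hd.sull (f i)
    have h3 : r (d (gen deg (f i))) ∈
        (Algebra.adjoin ℚ (gen deg '' {j | deg j < deg (f i)})).map r := ⟨_, h2, rfl⟩
    rw [AlgHom.map_adjoin] at h3
    refine Algebra.adjoin_le ?_ h3
    rintro _ ⟨_, ⟨j, hj, rfl⟩, rfl⟩
    by_cases hjr : j ∈ Set.range f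
    · obtain ⟨j', rfl⟩ := hjr
      rw [hr1]
      refine Algebra.subset_adjoin ⟨j', ?_, rfl⟩
      have hj' : deg (f j') < deg (f i) := hj
      rw [hf, hf] at hj'
      exact hj'
    · rw [hr2 j hjr]
      exact zero_mem _
  · intro i
    have h1 : d' (gen deg' i) = r (d (gen deg (f i))) := der_gen deg' _ hD i
    rw [h1]
    exact hr4 wt _ _ (hd.raise (f i))

end Anick2
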