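import Pool.Agent.Helper2.AN.NilAll
import Pool.Agent.Helper2.AN.MapL

/-!
AN-16 (project AN, MP_5f0082_gt). The even generators of the base are nilpotent in the tower.

Proof. `J = inclSum deg deg'`, `J (gen i) = gen (inl i)`. Apply `nil_all` to `d`, `hd`, `hP`, the set `Y' = Sum.inl '' Y` (finite, `ι` is finite) and the element `t = J (gen i)`. `sgn` and `lamPos`: `sgn_gen_even`,
`mapL_sgn`, `mapL_lamPos`, `inclSum_eq` (`gen i ∈ lamPos`, the monomial `[i]`). `J (idealSpan (gen '' Y)) ⊆ idealSpan (gen '' Y')` (span induction: `J (p * gen y * q) = J p * gen (inl y) * J q`), the same with `gen i₁`,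
`gen i₂` adjoined. `y' = inl y`: odd degree, weight `1`, `d (gen (inl y)) = d (J (gen y)) = J (S.d (gen y))`. Flat system: `J ∘ e`, `fun i j => J (ω i j)`: `d (J (e i)) - ∑ J (ω i j) * J (e j) = J (S.d (e i) - ∑ ω i j * e j)`.
Pair: `inl i₁`, `inl i₂`.
-/

set_option autoImplicit false

namespace Anick2

private theorem bn_map_idealSpan {ι ι' : Type} {deg : ι → ℕ} {deg' : ι' → ℕ} (φ : Lam deg →ₐ[ℚ] Lam deg')
    {s : Set (Lam deg)} {s' : Set (Lam deg')} (h : ∀ v ∈ s, φ v ∈ idealSpan s') {a : Lam deg}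
    (ha : a ∈ idealSpan s) : φ a ∈ idealSpan s' := by
  unfold idealSpan at ha
  induction ha using Submodule.span_induction with
  | mem a ha =>
    obtain ⟨p, v, q, hv, rfl⟩ := ha
    rw [map_mul, map_mul]
    exact idealSpan_right (idealSpan_left (h v hv) _) _
  | zero => rw [map_zero]; exact zero_mem _
  | add a b _ _ iha ihb => rw [map_add]; exact add_mem iha ihb
  | smul r a _ iha => rw [map_smul]; exact Submodule.smul_mem _ _ iha

private theorem bn_gen {ι κ : Type} (deg : ι → ℕ) (deg' : κ → ℕ) (i : ι) :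
    inclSum deg deg' (gen deg i) = gen (Sum.elim deg deg') (Sum.inl i) := by
  unfold inclSum
  rw [Lam.lift_gen]

private theorem bn_sgn {ι κ : Type} (deg : ι → ℕ) (deg' : κ → ℕ) (a : Lam deg) :
    sgn (Sum.elim deg deg') (inclSum deg deg' a) = inclSum deg deg' (sgn deg a) := by
  have h := mapL_sgn (deg' := deg) (deg := Sum.elim deg deg') (f := Sum.inl) (fun _ => rfl) a
  rw [inclSum_eq]
  exact h.symm

private theorem bn_pos {ι κ : Type} (deg : ι → ℕ) (deg' : κ → ℕ) {a : Lam deg} (ha : a ∈ lamPos deg) :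
    inclSum deg deg' a ∈ lamPos (Sum.elim deg deg') := by
  rw [inclSum_eq]
  exact mapL_lamPos (deg' := deg) (deg := Sum.elim deg deg') (f := Sum.inl) (fun _ => rfl) ha

theorem base_nil {ι : Type} [Finite ι] {deg : ι → ℕ} (S : MinimalSullivan deg) {Y : Set ι}
    (hY : ∀ y ∈ Y, Odd (deg y) ∧ S.d (gen deg y) ∈ idealSpan (gen deg '' Y)) {i : ι}
    (hi : Even (deg i))
    (h : FlatElem S.d (idealSpan (gen deg '' Y)) (gen deg i) ∨
      PairElem S.d (gen deg) Y (gen deg i)) {n : ℕ} {κ : Type} {deg' : κ → ℕ}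
    {d : Lam (Sum.elim deg deg') →ₗ[ℚ] Lam (Sum.elim deg deg')}
    (hd : Dat (Sum.elim deg deg') (Sum.elim (fun _ => 1) (fun _ => n)) d)
    (hP : Kills (Sum.elim deg deg') (Sum.elim (fun _ => 1) (fun _ => n)) n d)
    (hS : ∀ a, d (inclSum deg deg' a) = inclSum deg deg' (S.d a)) :
    ∃ M, gen (Sum.elim deg deg') (Sum.inl i) ^ M ∈ JJ (Sum.elim deg deg') d := by
  obtain ⟨Y', hY'⟩ : ∃ Y' : Set (ι ⊕ κ), Y' = Sum.inl '' Y := ⟨_, rfl⟩
  have hYf : Y'.Finite := by
    rw [hY']
    exact (Set.toFinite Y).image _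
  have hs : ∀ v ∈ gen deg '' Y, inclSum deg deg' v ∈
      idealSpan (gen (Sum.elim deg deg') '' Y') := by
    rintro _ ⟨y, hy, rfl⟩
    rw [bn_gen]
    exact mem_idealSpan_self ⟨Sum.inl y, by rw [hY']; exact ⟨y, hy, rfl⟩, rfl⟩
  have hmap : ∀ a ∈ idealSpan (gen deg '' Y), inclSum deg deg' a ∈
      idealSpan (gen (Sum.elim deg deg') '' Y') := fun a ha =>
    bn_map_idealSpan (inclSum deg deg') hs ha
  have hdg : ∀ j : ι, d (gen (Sum.elim deg deg') (Sum.inl j)) =
      inclSum deg deg' (S.d (gen deg j)) := by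
    intro j
    rw [← bn_gen, hS]
  have hYY : ∀ y ∈ Y', Odd (Sum.elim deg deg' y) ∧ Sum.elim (fun _ => 1) (fun _ => n) y = 1 ∧
      d (gen (Sum.elim deg deg') y) ∈ idealSpan (gen (Sum.elim deg deg') '' Y') := by
    intro y hy
    rw [hY'] at hy
    obtain ⟨z, hz, rfl⟩ := hy
    refine ⟨(hY z hz).1, rfl, ?_⟩
    rw [hdg]
    exact hmap _ (hY z hz).2
  have hmono : ∀ {s s' : Set (Lam (Sum.elim deg deg'))}, s ⊆ s' → idealSpan s ≤ idealSpan s' := by
    intro s s' hss
    unfold idealSpan
    refine Submodule.span_mono ?_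
    rintro a ⟨p, v, q, hv, rfl⟩
    exact ⟨p, v, q, hss hv, rfl⟩
  have hpos : gen deg i ∈ lamPos deg := by
    refine Submodule.subset_span ⟨[i], List.cons_ne_nil _ _, ?_⟩
    rw [mon_cons, mon_nil, mul_one]
  have hfin : FlatElem d (idealSpan (gen (Sum.elim deg deg') '' Y'))
      (inclSum deg deg' (gen deg i)) ∨
      PairElem d (gen (Sum.elim deg deg')) Y' (inclSum deg deg' (gen deg i)) := by
    rcases h with h | h
    · left
      obtain ⟨s, e, ω, j, hF, hj⟩ := h
      refine ⟨s, fun l => inclSum deg deg' (e l), fun l m => inclSum deg deg' (ω l m), j, ?_, ?_⟩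
      · refine ⟨fun l => ?_, fun l => bn_pos deg deg' (hF.pos l), fun l m => ?_,
          fun l m hlm => ?_, fun l => ?_, fun l m => ?_⟩
        · rw [bn_sgn, hF.even]
        · rw [bn_sgn, hF.odd, map_neg]
        · rw [hF.tri l m hlm, map_zero]
        · have h1 := hmap _ (hF.de l)
          rw [map_sub, map_sum] at h1
          simp only [map_mul] at h1
          rw [hS]
          exact h1
        · have h1 := hmap _ (hF.dω l m)
          rw [map_sub, map_sum] at h1
          simp only [map_mul] at h1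
          rw [hS]
          exact h1
      · simp only []
        rw [hj]
    · right
      obtain ⟨i₁, i₂, hne, he₁, he₂, h₁, h₂, h₃⟩ := h
      refine ⟨Sum.inl i₁, Sum.inl i₂, fun h => hne (Sum.inl_injective h), he₁, he₂, ?_, ?_, ?_⟩
      · rw [hdg]
        exact hmap _ h₁
      · rw [hdg]
        refine bn_map_idealSpan (inclSum deg deg') ?_ h₂
        rintro v (hv | hv)
        · exact hmono Set.subset_union_left (hs v hv)
        · rw [Set.mem_singleton_iff] at hv
          rw [hv, bn_gen]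
          exact mem_idealSpan_self (Or.inr rfl)
      · rw [hS]
        refine bn_map_idealSpan (inclSum deg deg') ?_ h₃
        rintro v (hv | hv)
        · exact hmono Set.subset_union_left (hs v hv)
        · rcases hv with hv | hv
          · rw [hv, bn_gen]
            exact mem_idealSpan_self (Or.inr (Or.inl rfl))
          · rw [Set.mem_singleton_iff] at hv
            rw [hv, bn_gen]
            exact mem_idealSpan_self (Or.inr (Or.inr rfl))
  have hsg : sgn (Sum.elim deg deg') (inclSum deg deg' (gen deg i)) =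
      inclSum deg deg' (gen deg i) := by
    rw [bn_sgn, sgn_gen_even hi]
  obtain ⟨M, hM⟩ := nil_all Y'.ncard hd hP Y' hYf rfl hYY _ hsg (bn_pos deg deg' hpos) hfin
  refine ⟨M, ?_⟩
  rw [bn_gen] at hM
  exact hM

end Anick2
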