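import Pool.Agent.Helper2.AN.MapL

/-!
AN-14 (project AN, MP_5f0082_gt). Transport of differentials along graded automorphisms.

Proofs.
* `graded_sgn`, `graded_lamPos`: `sgn` is `(-1)^m` on `hom m` and every element is a sum of homogeneous ones (`sum_pr`, `pr_mem`, `sgn_hom`);
  `lamPos` is the sum of the `hom m`, `m ≥ 1`, if `1 ≤ deg i` (a nonempty monomial has positive degree and conversely).
* `graded_FW`: `FW deg 1 k` is spanned by products of at least `k` generators, `Φ (gen i) ∈ hom (deg i) ⊆ lamPos = FW 1` (`lamPos_eq`), `FW_mul`, `FW_anti`.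
* `dat_of_raise`: `SullivanCondition`: `d (gen i) ∈ hom (deg i + 1) ⊓ FW 2`; apply `pr (deg i + 1)` to a combination of monomials of length `≥ 2`: a combination of monomials of degree
  `deg i + 1` and length `≥ 2`; all generators in such a monomial have degree `≤ deg i + 1 - 2 < deg i` (`two_le`).
* `conj_sullivan`: `d₁ = Φ⁻¹ ∘ d ∘ Φ`; `IsDifferential` clear; `raise`: `Φ (gen i) ∈ hom (deg i) ⊆ FW 1`, `d` raises the weight (`dat_of_minimal`, `d_raise`), `Φ⁻¹` preserves `FW 2`; then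
  `dat_of_raise`, `exists_minimal`.
* `conj_back`: `Φ'` the automorphism of `Lam (Sum.elim deg deg')` with `gen (inl i) ↦ inclSum (Φ (gen i))`, `gen (inr k) ↦ gen (inr k)` (`Lam.lift`, relations from `hom_comm`), inverse given by
  `Φ.symm`; `Φ' (inclSum a) = inclSum (Φ a)` (`Lam.algHom_ext`), both graded. `conj_sullivan` for `S₂` and `Φ'.symm`: `S₃.d a = Φ' (S₂.d (Φ'.symm a))`. Extension:
  `S₃.d (inclSum a) = Φ' (S₂.d (inclSum (Φ.symm a))) = Φ' (inclSum (S₁.d (Φ.symm a))) = inclSum (Φ (S₁.d (Φ.symm a))) = inclSum (S.d a)`.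
  Cohomology: `Φ'` maps `ker S₂.d` onto `ker S₃.d` and boundaries to boundaries, so it induces a surjection of the quotients (`Submodule.mapQ` or `liftQ`, `Module.Finite.of_surjective`).
-/

set_option autoImplicit false

namespace Anick2

variable {ι : Type} {deg : ι → ℕ}

attribute [local irreducible] instRingLam

private theorem cj_FW_ind {wt : ι → ℕ} {k : ℕ} {C : Lam deg → Prop}
    (hm : ∀ l, k ≤ degSum wt l → C (mon deg l)) (h0 : C 0)
    (hadd : ∀ a b, C a → C b → C (a + b)) (hsmul : ∀ (r : ℚ) a, C a → C (r • a))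
    {a : Lam deg} (ha : a ∈ FW deg wt k) : C a := by
  unfold FW at ha
  induction ha using Submodule.span_induction with
  | mem x hx => obtain ⟨l, hl, rfl⟩ := hx; exact hm l hl
  | zero => exact h0
  | add y z _ _ hy hz => exact hadd _ _ hy hz
  | smul r y _ hy => exact hsmul _ _ hy

private theorem cj_degSum_one (l : List ι) : degSum (fun _ => 1) l = l.length := by
  simp [degSum]

theorem graded_sgn {Φ : Lam deg →ₐ[ℚ] Lam deg}
    (hΦ : ∀ (m : ℕ) (a : Lam deg), a ∈ hom deg m → Φ a ∈ hom deg m) (a : Lam deg) :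
    Φ (sgn deg a) = sgn deg (Φ a) := by
  induction a using Lam.induction with
  | hm l =>
    rw [sgn_mon, map_smul, sgn_hom deg (hΦ _ _ (mon_mem_hom deg l))]
  | h0 => simp only [map_zero]
  | hadd a b ha hb => rw [map_add, map_add, ha, hb, map_add, map_add]
  | hsmul r a ha => rw [map_smul, map_smul, ha, map_smul, map_smul]

private theorem cj_hom_FW {m : ℕ} (hm : 1 ≤ m) {a : Lam deg} (ha : a ∈ hom deg m) :
    a ∈ FW deg (fun _ => 1) 1 := by
  refine hom_induction deg (C := fun a => a ∈ FW deg (fun _ => 1) 1) (fun l hl => ?_)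
    (zero_mem _) (fun a b ha hb => add_mem ha hb)
    (fun r a ha => Submodule.smul_mem _ _ ha) ha
  refine Submodule.subset_span ⟨l, ?_, rfl⟩
  rw [cj_degSum_one]
  cases l with
  | nil => simp at hl; omega
  | cons i l => simp

theorem graded_FW (h1 : ∀ i, 1 ≤ deg i) {Φ : Lam deg →ₐ[ℚ] Lam deg}
    (hΦ : ∀ (m : ℕ) (a : Lam deg), a ∈ hom deg m → Φ a ∈ hom deg m) {k : ℕ} {a : Lam deg}
    (ha : a ∈ FW deg (fun _ => 1) k) : Φ a ∈ FW deg (fun _ => 1) k := by
  have key : ∀ l : List ι, Φ (mon deg l) ∈ FW deg (fun _ => 1) l.length := by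
    intro l
    induction l with
    | nil => rw [List.length_nil, FW_zero]; trivial
    | cons i l ih =>
      rw [mon_cons, map_mul, List.length_cons, add_comm]
      exact FW_mul (cj_hom_FW (h1 i) (hΦ _ _ (gen_mem_hom deg i))) ih
  refine cj_FW_ind (C := fun a => Φ a ∈ FW deg (fun _ => 1) k) (fun l hl => ?_) ?_
    (fun a b ha hb => by rw [map_add]; exact add_mem ha hb)
    (fun r a ha => by rw [map_smul]; exact Submodule.smul_mem _ _ ha) ha
  · rw [cj_degSum_one] at hl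
    exact FW_anti hl (key l)
  · rw [map_zero]; exact zero_mem _

theorem graded_lamPos (h1 : ∀ i, 1 ≤ deg i) {Φ : Lam deg →ₐ[ℚ] Lam deg}
    (hΦ : ∀ (m : ℕ) (a : Lam deg), a ∈ hom deg m → Φ a ∈ hom deg m) {a : Lam deg}
    (ha : a ∈ lamPos deg) : Φ a ∈ lamPos deg := by
  rw [lamPos_eq] at ha ⊢
  exact graded_FW h1 hΦ ha

theorem dat_of_raise {d : Lam deg →ₗ[ℚ] Lam deg} (h2 : ∀ i, 2 ≤ deg i)
    (hd : IsDifferential (hom deg) d) (hr : ∀ i, d (gen deg i) ∈ FW deg (fun _ => 1) 2) :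
    Dat deg (fun _ => 1) d := by
  refine ⟨h2, fun _ => le_rfl, hd, fun i => ?_, fun i => hr i⟩
  have h3 : pr deg (deg i + 1) (d (gen deg i)) = d (gen deg i) := by
    rw [pr_hom deg (hd.map_hom _ _ (gen_mem_hom deg i)), if_pos rfl]
  rw [← h3]
  refine cj_FW_ind (C := fun a => pr deg (deg i + 1) a ∈
    Algebra.adjoin ℚ (gen deg '' {j | deg j < deg i})) (fun l hl => ?_) ?_
    (fun a b ha hb => by rw [map_add]; exact add_mem ha hb)
    (fun r a ha => by rw [map_smul]; exact Subalgebra.smul_mem _ ha _) (hr i)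
  · rw [pr_hom deg (mon_mem_hom deg l)]
    split
    · rename_i hs
      rw [cj_degSum_one] at hl
      have hj : ∀ j ∈ l, deg j < deg i := by
        intro j hj
        obtain ⟨s, t, rfl⟩ := List.append_of_mem hj
        rw [degSum_append, degSum_cons] at hs
        have hlen : 1 ≤ s.length + t.length := by
          simp at hl
          omega
        have hs' : ∀ u : List ι, 2 * u.length ≤ degSum deg u := by
          intro u
          induction u with
          | nil => simp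
          | cons v u ih => have := h2 v; rw [degSum_cons, List.length_cons]; omega
        have h4 := hs' s
        have h5 := hs' t
        omega
      unfold mon
      refine Subalgebra.list_prod_mem _ fun x hx => ?_
      obtain ⟨j, hj', rfl⟩ := List.mem_map.1 hx
      exact Algebra.subset_adjoin ⟨j, hj j hj', rfl⟩
    · exact zero_mem _
  · rw [map_zero]; exact zero_mem _

theorem conj_sullivan (S : MinimalSullivan deg) (Φ : Lam deg ≃ₐ[ℚ] Lam deg)
    (h₁ : ∀ (m : ℕ) (a : Lam deg), a ∈ hom deg m → Φ a ∈ hom deg m)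
    (h₂ : ∀ (m : ℕ) (a : Lam deg), a ∈ hom deg m → Φ.symm a ∈ hom deg m) :
    ∃ S₁ : MinimalSullivan deg, ∀ a, S₁.d a = Φ.symm (S.d (Φ a)) := by
  let d₁ : Lam deg →ₗ[ℚ] Lam deg :=
    Φ.symm.toLinearMap ∘ₗ S.d ∘ₗ Φ.toLinearMap
  have hd₁ : ∀ a, d₁ a = Φ.symm (S.d (Φ a)) := fun a => rfl
  have hdiff : IsDifferential (hom deg) d₁ := by
    refine ⟨fun n a ha => ?_, fun n a ha b => ?_, fun a => ?_⟩
    · rw [hd₁]
      exact h₂ _ _ (S.isDifferential.map_hom _ _ (h₁ _ _ ha))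
    · rw [hd₁, hd₁, hd₁, map_mul, S.isDifferential.leibniz _ _ (h₁ _ _ ha), map_add, map_mul,
        map_smul, map_mul, Φ.symm_apply_apply, Φ.symm_apply_apply]
    · rw [hd₁, hd₁, Φ.apply_symm_apply, S.isDifferential.d_d, map_zero]
  have h1 : ∀ i, 1 ≤ deg i := fun i => le_trans (by norm_num) (S.two_le i)
  have hraise : ∀ i, d₁ (gen deg i) ∈ FW deg (fun _ => 1) 2 := by
    intro i
    rw [hd₁]
    have h3 : Φ (gen deg i) ∈ FW deg (fun _ => 1) 1 :=
      cj_hom_FW (h1 i) (h₁ _ _ (gen_mem_hom deg i))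
    have h4 := d_raise (dat_of_minimal S) h3
    exact graded_FW (Φ := Φ.symm.toAlgHom) h1 (fun m a ha => h₂ m a ha) h4
  obtain ⟨S₁, hS₁⟩ := exists_minimal (dat_of_raise S.two_le hdiff hraise)
  exact ⟨S₁, fun a => by rw [hS₁, hd₁]⟩

private theorem cj_incl_gen {κ : Type} (dk : κ → ℕ) (i : ι) :
    inclSum deg dk (gen deg i) = gen (Sum.elim deg dk) (Sum.inl i) := by
  unfold inclSum
  exact Lam.lift_gen deg _ _ i

private theorem cj_incl_hom {κ : Type} (dk : κ → ℕ) {m : ℕ} {a : Lam deg} (ha : a ∈ hom deg m) :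
    inclSum deg dk a ∈ hom (Sum.elim deg dk) m := by
  rw [inclSum_eq]
  exact mapL_hom (deg := Sum.elim deg dk) (fun _ => rfl) ha

private theorem cj_exists_ext {κ : Type} (dk : κ → ℕ) (Φ : Lam deg →ₐ[ℚ] Lam deg)
    (h₁ : ∀ (m : ℕ) (a : Lam deg), a ∈ hom deg m → Φ a ∈ hom deg m) :
    ∃ Ψ : Lam (Sum.elim deg dk) →ₐ[ℚ] Lam (Sum.elim deg dk),
      (∀ a, Ψ (inclSum deg dk a) = inclSum deg dk (Φ a)) ∧
      (∀ k, Ψ (gen (Sum.elim deg dk) (Sum.inr k)) = gen (Sum.elim deg dk) (Sum.inr k)) ∧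
      (∀ (m : ℕ) (a : Lam (Sum.elim deg dk)), a ∈ hom (Sum.elim deg dk) m →
        Ψ a ∈ hom (Sum.elim deg dk) m) := by
  let f : ι ⊕ κ → Lam (Sum.elim deg dk) := Sum.elim (fun i => inclSum deg dk (Φ (gen deg i)))
    (fun k => gen (Sum.elim deg dk) (Sum.inr k))
  have hf : ∀ i, f i ∈ hom (Sum.elim deg dk) (Sum.elim deg dk i) := by
    rintro (i | k)
    · exact cj_incl_hom dk (h₁ _ _ (gen_mem_hom deg i))
    · exact gen_mem_hom (Sum.elim deg dk) (Sum.inr k)
  let Ψ : Lam (Sum.elim deg dk) →ₐ[ℚ] Lam (Sum.elim deg dk) :=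
    Lam.lift (Sum.elim deg dk) f (fun i j => hom_comm _ (hf i) (hf j))
  have hΨ : ∀ i, Ψ (gen _ i) = f i := fun i => Lam.lift_gen _ _ _ i
  refine ⟨Ψ, fun a => ?_, fun k => hΨ (Sum.inr k), fun m a ha => ?_⟩
  · have : Ψ.comp (inclSum deg dk) = (inclSum deg dk).comp Φ := by
      refine Lam.algHom_ext _ fun i => ?_
      rw [AlgHom.comp_apply, AlgHom.comp_apply, cj_incl_gen, hΨ]
      rfl
    exact congrArg (fun g : Lam deg →ₐ[ℚ] Lam (Sum.elim deg dk) => g a) this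
  · have key : ∀ l : List (ι ⊕ κ), Ψ (mon _ l) ∈ hom (Sum.elim deg dk) (degSum (Sum.elim deg dk) l) := by
      intro l
      induction l with
      | nil =>
        rw [mon_nil, map_one]
        exact mon_mem_hom (Sum.elim deg dk) []
      | cons i l ih =>
        rw [mon_cons, map_mul, hΨ, degSum_cons]
        exact mul_mem_hom _ (hf i) ih
    refine hom_induction _ (C := fun a => Ψ a ∈ hom (Sum.elim deg dk) m) (fun l hl => ?_) ?_
      (fun a b ha hb => by rw [map_add]; exact add_mem ha hb)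
      (fun r a ha => by rw [map_smul]; exact Submodule.smul_mem _ _ ha) ha
    · rw [← hl]; exact key l
    · rw [map_zero]; exact zero_mem _

private theorem cj_ext_comp {κ : Type} (dk : κ → ℕ) {Φ Φ' : Lam deg →ₐ[ℚ] Lam deg}
    {Ψ Ψ' : Lam (Sum.elim deg dk) →ₐ[ℚ] Lam (Sum.elim deg dk)}
    (hΨ : ∀ a, Ψ (inclSum deg dk a) = inclSum deg dk (Φ a))
    (hΨg : ∀ k, Ψ (gen (Sum.elim deg dk) (Sum.inr k)) = gen (Sum.elim deg dk) (Sum.inr k))
    (hΨ' : ∀ a, Ψ' (inclSum deg dk a) = inclSum deg dk (Φ' a))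
    (hΨg' : ∀ k, Ψ' (gen (Sum.elim deg dk) (Sum.inr k)) = gen (Sum.elim deg dk) (Sum.inr k))
    (h : ∀ a, Φ (Φ' a) = a) : Ψ.comp Ψ' = AlgHom.id ℚ _ := by
  refine Lam.algHom_ext _ fun i => ?_
  rcases i with i | k
  · rw [AlgHom.comp_apply, AlgHom.id_apply, ← cj_incl_gen, hΨ', hΨ, h]
  · rw [AlgHom.comp_apply, AlgHom.id_apply, hΨg', hΨg]

theorem conj_back (S S₁ : MinimalSullivan deg) (Φ : Lam deg ≃ₐ[ℚ] Lam deg)
    (h₁ : ∀ (m : ℕ) (a : Lam deg), a ∈ hom deg m → Φ a ∈ hom deg m)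
    (h₂ : ∀ (m : ℕ) (a : Lam deg), a ∈ hom deg m → Φ.symm a ∈ hom deg m)
    (hS : ∀ a, S₁.d a = Φ.symm (S.d (Φ a))) {κ : Type} {deg' : κ → ℕ}
    (S₂ : MinimalSullivan (Sum.elim deg deg')) (hext : S₁.IsExtension S₂)
    (hc : S₂.CohomologyFinite) :
    ∃ S₃ : MinimalSullivan (Sum.elim deg deg'), S.IsExtension S₃ ∧ S₃.CohomologyFinite := by
  obtain ⟨Ψ, hΨ, hΨg, hΨh⟩ := cj_exists_ext deg' Φ.toAlgHom (fun m a ha => h₁ m a ha)
  obtain ⟨Ψ', hΨ', hΨg', hΨh'⟩ := cj_exists_ext deg' Φ.symm.toAlgHom (fun m a ha => h₂ m a ha)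
  have hc1 : Ψ.comp Ψ' = AlgHom.id ℚ _ :=
    cj_ext_comp deg' hΨ hΨg hΨ' hΨg' (fun a => Φ.apply_symm_apply a)
  have hc2 : Ψ'.comp Ψ = AlgHom.id ℚ _ :=
    cj_ext_comp deg' hΨ' hΨg' hΨ hΨg (fun a => Φ.symm_apply_apply a)
  let Θ : Lam (Sum.elim deg deg') ≃ₐ[ℚ] Lam (Sum.elim deg deg') := AlgEquiv.ofAlgHom Ψ Ψ' hc1 hc2
  have hΘ : ∀ a, Θ a = Ψ a := fun a => rfl
  have hΘ' : ∀ a, Θ.symm a = Ψ' a := fun a => rfl
  obtain ⟨S₃, hS₃⟩ := conj_sullivan S₂ Θ.symm (fun m a ha => hΨh' m a ha)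
    (fun m a ha => hΨh m a ha)
  have hS₃' : ∀ a, S₃.d a = Θ (S₂.d (Θ.symm a)) := fun a => hS₃ a
  refine ⟨S₃, fun a => ?_, ?_⟩
  · rw [hS₃', hΘ', hΨ', hΘ]
    have h3 : S₂.d (inclSum deg deg' (Φ.symm.toAlgHom a)) =
        inclSum deg deg' (S₁.d (Φ.symm.toAlgHom a)) := hext _
    rw [h3, hΨ, hS]
    congr 1
    have h4 : Φ (Φ.symm.toAlgHom a) = a := Φ.apply_symm_apply a
    rw [h4]
    exact Φ.apply_symm_apply _
  · unfold MinimalSullivan.CohomologyFinite at hc ⊢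
    have hker : ∀ x : LinearMap.ker S₂.d, Θ.toLinearMap (x : Lam (Sum.elim deg deg')) ∈
        LinearMap.ker S₃.d := by
      rintro ⟨x, hx⟩
      rw [LinearMap.mem_ker] at hx ⊢
      change S₃.d (Θ x) = 0
      rw [hS₃', Θ.symm_apply_apply, hx, map_zero]
    let φ : LinearMap.ker S₂.d →ₗ[ℚ] LinearMap.ker S₃.d :=
      LinearMap.codRestrict (LinearMap.ker S₃.d) (Θ.toLinearMap ∘ₗ (LinearMap.ker S₂.d).subtype)
        (fun x => hker x)
    have hφ : ∀ x, ((φ x : LinearMap.ker S₃.d) : Lam (Sum.elim deg deg')) = Θ x := fun x => rfl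
    have hsurj : Function.Surjective φ := by
      rintro ⟨y, hy⟩
      rw [LinearMap.mem_ker, hS₃'] at hy
      have h5 : S₂.d (Θ.symm y) = 0 := by
        have := congrArg Θ.symm hy
        rwa [Θ.symm_apply_apply, map_zero] at this
      refine ⟨⟨Θ.symm y, LinearMap.mem_ker.2 h5⟩, Subtype.ext ?_⟩
      rw [hφ]
      exact Θ.apply_symm_apply y
    have hle : (LinearMap.range S₂.d).comap (LinearMap.ker S₂.d).subtype ≤
        ((LinearMap.range S₃.d).comap (LinearMap.ker S₃.d).subtype).comap φ := by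
      rintro x ⟨y, hy⟩
      refine ⟨Θ y, ?_⟩
      rw [hS₃', Θ.symm_apply_apply, hy]
      rfl
    refine Module.Finite.of_surjective (Submodule.mapQ _ _ φ hle) ?_
    intro y
    obtain ⟨y, rfl⟩ := Submodule.Quotient.mk_surjective _ y
    obtain ⟨x, rfl⟩ := hsurj y
    exact ⟨Submodule.Quotient.mk x, rfl⟩

end Anick2
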