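import Pool.Agent.Helper2.AN.Stmt

/-!
Project AN, definitions for the proof.

* `FW deg wt k`: the span of the monomials of weight at least `k`, the generator `i` having the
  weight `wt i` (`degSum wt l` is the weight of the monomial `l`).
* `DLE deg M`: the span of the monomials of degree at most `M`.
* `Dat deg wt d`: `d` is a differential of `Λ` with the Sullivan condition which raises the weight.
* `Kills deg wt n d`: every even cocycle of weight at least `n + 1` is the boundary of an odd element
  of weight at least `n`.
* `JJ deg d`: the ideal generated by the odd generators and all boundaries.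
* `mapL f hf`: the map of free algebras given by a degree preserving map `f` of the generators.
-/

set_option autoImplicit false

namespace Anick2

/-- The span of the monomials of weight at least `k`. -/
noncomputable def FW {ι : Type} (deg wt : ι → ℕ) (k : ℕ) : Submodule ℚ (Lam deg) :=
  Submodule.span ℚ {a | ∃ l : List ι, k ≤ degSum wt l ∧ a = mon deg l}

/-- The span of the monomials of degree at most `M`. -/
noncomputable def DLE {ι : Type} (deg : ι → ℕ) (M : ℕ) : Submodule ℚ (Lam deg) :=
  Submodule.span ℚ {a | ∃ l : List ι, degSum deg l ≤ M ∧ a = mon deg l}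

/-- A differential with the Sullivan condition which raises the weight. -/
structure Dat {ι : Type} (deg wt : ι → ℕ) (d : Lam deg →ₗ[ℚ] Lam deg) : Prop where
  two_le : ∀ i, 2 ≤ deg i
  one_le : ∀ i, 1 ≤ wt i
  diff : IsDifferential (hom deg) d
  sull : SullivanCondition deg (gen deg) d
  raise : ∀ i, d (gen deg i) ∈ FW deg wt (wt i + 1)

/-- Every even cocycle of weight at least `n + 1` is the boundary of an odd element of weight at
least `n`. -/
def Kills {ι : Type} (deg wt : ι → ℕ) (n : ℕ) (d : Lam deg →ₗ[ℚ] Lam deg) : Prop :=
  ∀ c : Lam deg, sgn deg c = c → c ∈ FW deg wt (n + 1) → d c = 0 →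
    ∃ u : Lam deg, sgn deg u = -u ∧ u ∈ FW deg wt n ∧ d u = c

/-- The ideal generated by the odd generators and the boundaries. -/
noncomputable def JJ {ι : Type} (deg : ι → ℕ) (d : Lam deg →ₗ[ℚ] Lam deg) :
    Submodule ℚ (Lam deg) :=
  idealSpan ({a | ∃ i, Odd (deg i) ∧ a = gen deg i} ∪ Set.range d)

/-- The map of free graded-commutative algebras given by a degree preserving map of the
generators. -/
noncomputable def mapL {ι' ι : Type} {deg' : ι' → ℕ} {deg : ι → ℕ} (f : ι' → ι)
    (hf : ∀ i, deg (f i) = deg' i) : Lam deg' →ₐ[ℚ] Lam deg :=
  Lam.lift deg' (fun i => gen deg (f i)) (fun i j => by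
    rw [gen_comm deg (f i) (f j), hf, hf])

end Anick2
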