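import Pool.Agent.Helper2.AN.Facts

/-!
AN-02 (project AN, MP_5f0082_gt). Even generators: cancellation and syzygies.

Proofs.
* Let `ψ : Lam deg →ₐ Polynomial (Lam deg)` be `Lam.lift` with `gen i ↦ X` and `gen j ↦ C (gen j)` for
  `j ≠ i` (the relations hold: `X` is central, and `(-1)^(deg i * deg j) = 1` since `deg i` is even).
  Let `ev : Polynomial (Lam deg) → Lam deg` be the ring map `C a ↦ a`, `X ↦ gen i` (`gen i` is central,
  `even_comm`; `Polynomial.eval₂RingHom'` or `Polynomial.eval₂` with `Commute`). Then `ev (ψ a) = a`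
  (on generators, `Lam.algHom_ext`, or on monomials), so `ψ` is injective. If `gen i * a = 0`, then
  `X * ψ a = 0`, so `ψ a = 0` (`Polynomial.X_mul_cancel...`, compare coefficients) and `a = 0`.
* Let `π : Lam deg →ₐ Lam deg` be `Lam.lift` with `gen i ↦ 0`, `gen j ↦ gen j` for `j ≠ i`. For all `a`
  there is `e'` with `a = π a + gen i * e'` (on monomials by induction on `l`: `gen j * (π b + gen i * e')`,
  `gen i` central). If `gen i * u + gen j * v = 0`, apply `π`: `gen j * π v = 0`, so `π v = 0`
  (`even_cancel` for `j`), `v = gen i * e'`; put `e = -e'`; then `gen i * (u - gen j * e) = 0`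
  (`gen i`, `gen j` central), so `u = gen j * e`.
* `mem_ideal_one/two`: an element `p * gen i * q` is `gen i * (p * q)`; span induction.
-/

set_option autoImplicit false

namespace Anick2

variable {ι : Type} {deg : ι → ℕ}

private theorem comm_even {i : ι} (hi : Even (deg i)) (b : Lam deg) :
    gen deg i * b = b * gen deg i :=
  even_comm (sgn_gen_even hi) b

open Classical in
private noncomputable def psiF (deg : ι → ℕ) (i : ι) (j : ι) : Polynomial (Lam deg) :=
  if j = i then Polynomial.X else Polynomial.C (gen deg j)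

private theorem psi_rel {i : ι} (hi : Even (deg i)) (a b : ι) :
    psiF deg i a * psiF deg i b =
      (-1 : ℚ) ^ (deg a * deg b) • (psiF deg i b * psiF deg i a) := by
  unfold psiF
  by_cases ha : a = i <;> by_cases hb : b = i
  · subst ha
    subst hb
    rw [(hi.mul_right _).neg_one_pow, one_smul]
  · subst ha
    rw [if_pos rfl, if_neg hb, (hi.mul_right _).neg_one_pow, one_smul, Polynomial.X_mul_C]
  · subst hb
    rw [if_pos rfl, if_neg ha, (hi.mul_left _).neg_one_pow, one_smul, Polynomial.X_mul_C]
  · rw [if_neg ha, if_neg hb, ← Polynomial.C_mul, ← Polynomial.C_mul, gen_comm,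
      Polynomial.smul_C]

private noncomputable def psi (deg : ι → ℕ) (i : ι) (hi : Even (deg i)) :
    Lam deg →ₐ[ℚ] Polynomial (Lam deg) :=
  Lam.lift deg (psiF deg i) (psi_rel hi)

private theorem commute_even {i : ι} (hi : Even (deg i)) (a : Lam deg) :
    Commute (RingHom.id (Lam deg) a) (gen deg i) :=
  (comm_even hi a).symm

private noncomputable def evX (deg : ι → ℕ) (i : ι) (hi : Even (deg i)) :
    Polynomial (Lam deg) →+* Lam deg :=
  Polynomial.eval₂RingHom' (RingHom.id _) (gen deg i) (commute_even hi)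

private theorem evX_X {i : ι} (hi : Even (deg i)) : evX deg i hi Polynomial.X = gen deg i :=
  Polynomial.eval₂_X _ _

private theorem evX_C {i : ι} (hi : Even (deg i)) (a : Lam deg) :
    evX deg i hi (Polynomial.C a) = a :=
  Polynomial.eval₂_C _ _

private theorem evX_smul {i : ι} (hi : Even (deg i)) (r : ℚ) (p : Polynomial (Lam deg)) :
    evX deg i hi (r • p) = r • evX deg i hi p := by
  rw [Algebra.smul_def, map_mul, Polynomial.algebraMap_apply, evX_C, Algebra.smul_def]

private theorem evX_psi {i : ι} (hi : Even (deg i)) (a : Lam deg) :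
    evX deg i hi (psi deg i hi a) = a := by
  induction a using Lam.induction with
  | hm l =>
    induction l with
    | nil => simp
    | cons j l ih =>
      rw [mon_cons, map_mul, map_mul, ih]
      congr 1
      rw [psi, Lam.lift_gen, psiF]
      by_cases h : j = i
      · rw [if_pos h, h, evX_X]
      · rw [if_neg h, evX_C]
  | h0 => simp
  | hadd a b ha hb => rw [map_add, map_add, ha, hb]
  | hsmul r a ha => rw [map_smul, evX_smul, ha]

theorem even_cancel {i : ι} (hi : Even (deg i)) {a : Lam deg} (h : gen deg i * a = 0) : a = 0 := by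
  have h1 : Polynomial.X * psi deg i hi a = 0 := by
    have h2 := congrArg (psi deg i hi) h
    rw [map_mul, map_zero, psi, Lam.lift_gen, psiF, if_pos rfl] at h2
    exact h2
  have h3 : psi deg i hi a = 0 := by
    ext n
    rw [← Polynomial.coeff_X_mul, h1]
    simp
  have h4 := evX_psi hi a
  rw [h3, map_zero] at h4
  exact h4.symm

open Classical in
private noncomputable def piF (deg : ι → ℕ) (i : ι) (j : ι) : Lam deg :=
  if j = i then 0 else gen deg j

private theorem pi_rel (i : ι) (a b : ι) :
    piF deg i a * piF deg i b = (-1 : ℚ) ^ (deg a * deg b) • (piF deg i b * piF deg i a) := by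
  unfold piF
  by_cases ha : a = i
  · simp [ha]
  · by_cases hb : b = i
    · simp [hb]
    · rw [if_neg ha, if_neg hb, gen_comm]

private noncomputable def piI (deg : ι → ℕ) (i : ι) : Lam deg →ₐ[ℚ] Lam deg :=
  Lam.lift deg (piF deg i) (pi_rel i)

private theorem piI_self (i : ι) : piI deg i (gen deg i) = 0 := by
  rw [piI, Lam.lift_gen, piF, if_pos rfl]

private theorem piI_ne {i j : ι} (h : j ≠ i) : piI deg i (gen deg j) = gen deg j := by
  rw [piI, Lam.lift_gen, piF, if_neg h]

private theorem piI_decomp {i : ι} (hi : Even (deg i)) (a : Lam deg) :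
    ∃ e : Lam deg, a = piI deg i a + gen deg i * e := by
  induction a using Lam.induction with
  | hm l =>
    induction l with
    | nil => exact ⟨0, by simp⟩
    | cons j l ih =>
      by_cases h : j = i
      · refine ⟨mon deg l, ?_⟩
        rw [mon_cons, map_mul, h, piI_self, zero_mul, zero_add]
      · obtain ⟨e, he⟩ := ih
        refine ⟨gen deg j * e, ?_⟩
        rw [mon_cons, map_mul, piI_ne h, ← mul_assoc, comm_even hi, mul_assoc, ← mul_add, ← he]
  | h0 => exact ⟨0, by simp⟩
  | hadd a b ha hb =>
    obtain ⟨e, he⟩ := ha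
    obtain ⟨e', he'⟩ := hb
    refine ⟨e + e', ?_⟩
    rw [map_add, mul_add, add_add_add_comm, ← he, ← he']
  | hsmul r a ha =>
    obtain ⟨e, he⟩ := ha
    refine ⟨r • e, ?_⟩
    rw [map_smul, mul_smul_comm, ← smul_add, ← he]

theorem even_koszul {i j : ι} (hi : Even (deg i)) (hj : Even (deg j)) (hne : i ≠ j)
    {u v : Lam deg} (h : gen deg i * u + gen deg j * v = 0) :
    ∃ e : Lam deg, v = -(gen deg i * e) ∧ u = gen deg j * e := by
  have h1 : gen deg j * piI deg i v = 0 := by
    have h2 := congrArg (piI deg i) h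
    rw [map_add, map_mul, map_mul, map_zero, piI_self, zero_mul, zero_add,
      piI_ne (Ne.symm hne)] at h2
    exact h2
  have h3 := even_cancel hj h1
  obtain ⟨e, he⟩ := piI_decomp hi v
  rw [h3, zero_add] at he
  have h4 : gen deg i * (u + gen deg j * e) = 0 := by
    rw [mul_add, ← mul_assoc, comm_even hi (gen deg j), mul_assoc, ← he]
    exact h
  have h5 := even_cancel hi h4
  refine ⟨-e, ?_, ?_⟩
  · rw [mul_neg, neg_neg]
    exact he
  · rw [mul_neg]
    exact eq_neg_of_add_eq_zero_left h5

theorem mem_ideal_one {i : ι} (hi : Even (deg i)) {a : Lam deg}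
    (h : a ∈ idealSpan {gen deg i}) : ∃ b, a = gen deg i * b := by
  unfold idealSpan at h
  induction h using Submodule.span_induction with
  | mem x hx =>
    obtain ⟨p, v, q, hv, rfl⟩ := hx
    rw [Set.mem_singleton_iff] at hv
    subst hv
    exact ⟨p * q, by rw [← comm_even hi p, mul_assoc]⟩
  | zero => exact ⟨0, by simp⟩
  | add x y _ _ hx hy =>
    obtain ⟨b, rfl⟩ := hx
    obtain ⟨c, rfl⟩ := hy
    exact ⟨b + c, by rw [mul_add]⟩
  | smul r x _ hx =>
    obtain ⟨b, rfl⟩ := hx
    exact ⟨r • b, by rw [mul_smul_comm]⟩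

theorem mem_ideal_two {i j : ι} (hi : Even (deg i)) (hj : Even (deg j)) {a : Lam deg}
    (h : a ∈ idealSpan {gen deg i, gen deg j}) :
    ∃ b c, a = gen deg i * b + gen deg j * c := by
  unfold idealSpan at h
  induction h using Submodule.span_induction with
  | mem x hx =>
    obtain ⟨p, v, q, hv, rfl⟩ := hx
    rcases hv with hv | hv
    · subst hv
      exact ⟨p * q, 0, by rw [← comm_even hi p, mul_assoc, mul_zero, add_zero]⟩
    · rw [Set.mem_singleton_iff] at hv
      subst hv
      exact ⟨0, p * q, by rw [← comm_even hj p, mul_assoc, mul_zero, zero_add]⟩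
  | zero => exact ⟨0, 0, by simp⟩
  | add x y _ _ hx hy =>
    obtain ⟨b, c, rfl⟩ := hx
    obtain ⟨b', c', rfl⟩ := hy
    exact ⟨b + b', c + c', by rw [mul_add, mul_add]; abel⟩
  | smul r x _ hx =>
    obtain ⟨b, c, rfl⟩ := hx
    exact ⟨r • b, r • c, by rw [mul_smul_comm, mul_smul_comm, smul_add]⟩

end Anick2
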