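import Pool.Agent.Helper2.AN.MapL

/-!
AN-10 (project AN, MP_5f0082_gt). A finite extension inside the infinite one.

Proof. For `K : ℕ` let `κ_K = {k : κ | deg' k ≤ K}` (finite: union of the finite sets `{deg' k = N}`, `N ≤ K`), `deg_K` the restriction of
`Sum.elim deg deg'` to `ι ⊕ κ_K` and `j_K = mapL (Sum.map id Subtype.val)`.
(1) `restrict_dat` applies: `d (gen (inl i)) = inclSum (S.d (gen i))` is in the image of `j_K` (`inclSum_eq`; the image of `mapL` of `Sum.inl` is contained in the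
    image of `j_K`), and for `k ∈ κ_K`, `d (gen (inr k))` is in `adjoin (gen '' {j | degree j < deg' k})` (`hd.sull`) and these generators are in the range
    (`mapL_adjoin`). It gives `d_K`, `Dat`, `j_K (d_K a) = d (j_K a)`.
(2) For every `a` there is `K₀` such that for all `K ≥ K₀`: `a` is in the image of `j_K` (monomials: all degrees in the list `≤ K₀`; sums: maximum).
(3) For every `a ∈ JJ d` there is `K₀` such that for all `K ≥ K₀` there is `b ∈ JJ d_K` with `j_K b = a`: span induction; `p * s * q` with `s = gen i` odd: lift `p`, `q` and the generator;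
    with `s = d u`: lift `p, u, q`, `s = j_K (d_K u')`.
(4) `j_K` is injective (`mapL_injective`), so `gen (inl i)^M ∈ JJ d_K` for all `K ≥ K_i`. Take `K` = the maximum of the `K_i` over the even `i` (`ι` finite).
(5) Transport to `Fin m`: choose an equivalence `Fin m ≃ κ_K` and use from the beginning the injective map `ι ⊕ Fin m → ι ⊕ κ` with the same range
    (i.e. do (4) for this map: only the range matters in (1)-(3)); `deg'' j = deg' _`, the degree function of `Sum.elim deg deg''` agrees with the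
    restriction by cases (that is why `mapL` has the hypothesis `hf`). `exists_minimal` gives `S'` with `S'.d = d_K`. `S.IsExtension S'`: apply `j_K` (injective):
    `j_K (inclSum a) = inclSum a` (`Lam.algHom_ext`), `j_K (d_K (inclSum a)) = d (inclSum a) = inclSum (S.d a)`.
-/

set_option autoImplicit false

namespace Anick2

section Aux

variable {ι κ : Type} {deg : ι → ℕ} {deg' : κ → ℕ}

/-- The generators of degree at most `K` among the new ones, and all the old ones. -/
def exT (deg' : κ → ℕ) (K : ℕ) : Set (ι ⊕ κ) := {j | ∀ k, j = Sum.inr k → deg' k ≤ K}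

/-- The subalgebra generated by them. -/
noncomputable def exA (deg : ι → ℕ) (deg' : κ → ℕ) (K : ℕ) :
    Subalgebra ℚ (Lam (Sum.elim deg deg')) :=
  Algebra.adjoin ℚ (gen (Sum.elim deg deg') '' exT deg' K)

theorem exT_mono {K K' : ℕ} (h : K ≤ K') : (exT deg' K : Set (ι ⊕ κ)) ⊆ exT deg' K' :=
  fun _ hj k hk => (hj k hk).trans h

theorem exA_mono {K K' : ℕ} (h : K ≤ K') : exA deg deg' K ≤ exA deg deg' K' :=
  Algebra.adjoin_mono (Set.image_mono (exT_mono h))

theorem exA_gen_inl (K : ℕ) (i : ι) :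
    gen (Sum.elim deg deg') (Sum.inl i) ∈ exA deg deg' K :=
  Algebra.subset_adjoin ⟨Sum.inl i, fun k hk => by simp at hk, rfl⟩

theorem exA_gen_inr {K : ℕ} {k : κ} (h : deg' k ≤ K) :
    gen (Sum.elim deg deg') (Sum.inr k) ∈ exA deg deg' K :=
  Algebra.subset_adjoin ⟨Sum.inr k, fun k' hk => by rw [← Sum.inr.inj hk]; exact h, rfl⟩

theorem ex_inclSum_gen (dk : κ → ℕ) (i : ι) :
    inclSum deg dk (gen deg i) = gen (Sum.elim deg dk) (Sum.inl i) := by
  unfold inclSum
  exact Lam.lift_gen deg _ _ i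

theorem exA_inclSum (K : ℕ) (a : Lam deg) : inclSum deg deg' a ∈ exA deg deg' K := by
  induction a using Lam.induction with
  | hm l =>
    induction l with
    | nil => rw [mon_nil, map_one]; exact one_mem _
    | cons i l ih =>
      rw [mon_cons, map_mul]
      refine mul_mem ?_ ih
      rw [ex_inclSum_gen]
      exact exA_gen_inl K i
  | h0 => rw [map_zero]; exact zero_mem _
  | hadd a b ha hb => rw [map_add]; exact add_mem ha hb
  | hsmul r a ha => rw [map_smul]; exact Subalgebra.smul_mem _ ha r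

theorem exA_exists (a : Lam (Sum.elim deg deg')) : ∃ K₀, ∀ K, K₀ ≤ K → a ∈ exA deg deg' K := by
  induction a using Lam.induction with
  | hm l =>
    induction l with
    | nil => exact ⟨0, fun K _ => by rw [mon_nil]; exact one_mem _⟩
    | cons j l ih =>
      obtain ⟨K₀, h⟩ := ih
      rcases j with i | k
      · exact ⟨K₀, fun K hK => by
          rw [mon_cons]
          exact mul_mem (exA_gen_inl K i) (h K hK)⟩
      · exact ⟨max K₀ (deg' k), fun K hK => by
          rw [mon_cons]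
          exact mul_mem (exA_gen_inr ((le_max_right _ _).trans hK))
            (h K ((le_max_left _ _).trans hK))⟩
  | h0 => exact ⟨0, fun K _ => zero_mem _⟩
  | hadd a b ha hb =>
    obtain ⟨K₁, h1⟩ := ha
    obtain ⟨K₂, h2⟩ := hb
    exact ⟨max K₁ K₂, fun K hK => add_mem (h1 K ((le_max_left _ _).trans hK))
      (h2 K ((le_max_right _ _).trans hK))⟩
  | hsmul r a ha =>
    obtain ⟨K₁, h1⟩ := ha
    exact ⟨K₁, fun K hK => Subalgebra.smul_mem _ (h1 K hK) r⟩

theorem ex_hf {m : ℕ} (e : Fin m → κ) (i : ι ⊕ Fin m) :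
    Sum.elim deg deg' (Sum.map id e i) = Sum.elim deg (fun j => deg' (e j)) i := by
  rcases i with i | j <;> rfl

theorem exA_lift {m : ℕ} {e : Fin m → κ} {K : ℕ} (he : ∀ k, deg' k ≤ K → k ∈ Set.range e)
    {a : Lam (Sum.elim deg deg')} (ha : a ∈ exA deg deg' K) :
    ∃ b, mapL (Sum.map id e) (ex_hf (deg := deg) (deg' := deg') e) b = a := by
  refine mapL_adjoin (ex_hf (deg := deg) (deg' := deg') e) (T := exT deg' K) ?_ ha
  rintro (i | k) hj
  · exact ⟨Sum.inl i, rfl⟩
  · obtain ⟨j, hj'⟩ := he k (hj k rfl)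
    exact ⟨Sum.inr j, by rw [Sum.map_inr, hj']⟩

theorem ex_inj {m : ℕ} {e : Fin m → κ} (he : Function.Injective e) :
    Function.Injective (Sum.map (id : ι → ι) e) :=
  Sum.map_injective.2 ⟨Function.injective_id, he⟩

theorem exJJ {d : Lam (Sum.elim deg deg') →ₗ[ℚ] Lam (Sum.elim deg deg')}
    {a : Lam (Sum.elim deg deg')} (ha : a ∈ JJ (Sum.elim deg deg') d) :
    ∃ K₀, ∀ K, K₀ ≤ K → ∀ (m : ℕ) (e : Fin m → κ), (∀ k, deg' k ≤ K → k ∈ Set.range e) →
      ∀ dK : Lam (Sum.elim deg (fun j => deg' (e j))) →ₗ[ℚ] Lam (Sum.elim deg (fun j => deg' (e j))),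
      (∀ b, mapL (Sum.map id e) (ex_hf (deg := deg) (deg' := deg') e) (dK b) =
        d (mapL (Sum.map id e) (ex_hf (deg := deg) (deg' := deg') e) b)) →
      ∃ b ∈ JJ (Sum.elim deg (fun j => deg' (e j))) dK,
        mapL (Sum.map id e) (ex_hf (deg := deg) (deg' := deg') e) b = a := by
  unfold JJ idealSpan at ha
  induction ha using Submodule.span_induction with
  | mem x hx =>
    obtain ⟨p, s, q, hs, rfl⟩ := hx
    obtain ⟨K₁, h1⟩ := exA_exists p
    obtain ⟨K₂, h2⟩ := exA_exists q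
    rcases hs with ⟨j, hj, rfl⟩ | ⟨u, rfl⟩
    · obtain ⟨K₃, h3⟩ : ∃ K₃, ∀ K, K₃ ≤ K → ∀ k, j = Sum.inr k → deg' k ≤ K := by
        rcases j with i | k
        · exact ⟨0, fun K _ k hk => by simp at hk⟩
        · exact ⟨deg' k, fun K hK k' hk => by rw [← Sum.inr.inj hk]; exact hK⟩
      refine ⟨max K₁ (max K₂ K₃), fun K hK m e he dK hdK => ?_⟩
      have hK1 : K₁ ≤ K := (le_max_left _ _).trans hK
      have hK2 : K₂ ≤ K := ((le_max_left _ _).trans (le_max_right _ _)).trans hK
      have hK3 : K₃ ≤ K := ((le_max_right _ _).trans (le_max_right _ _)).trans hK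
      obtain ⟨p', rfl⟩ := exA_lift he (h1 K hK1)
      obtain ⟨q', rfl⟩ := exA_lift he (h2 K hK2)
      obtain ⟨j', hj'⟩ : ∃ j', Sum.map id e j' = j := by
        rcases j with i | k
        · exact ⟨Sum.inl i, rfl⟩
        · obtain ⟨t, ht⟩ := he k (h3 K hK3 k rfl)
          exact ⟨Sum.inr t, by rw [Sum.map_inr, ht]⟩
      subst hj'
      refine ⟨p' * gen (Sum.elim deg (fun j => deg' (e j))) j' * q', ?_, ?_⟩
      · refine Submodule.subset_span ⟨p', _, q', Or.inl ⟨j', ?_, rfl⟩, rfl⟩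
        rw [← ex_hf (deg := deg) (deg' := deg') e j']
        exact hj
      · rw [map_mul, map_mul, mapL_gen]
    · obtain ⟨K₃, h3⟩ := exA_exists u
      refine ⟨max K₁ (max K₂ K₃), fun K hK m e he dK hdK => ?_⟩
      have hK1 : K₁ ≤ K := (le_max_left _ _).trans hK
      have hK2 : K₂ ≤ K := ((le_max_left _ _).trans (le_max_right _ _)).trans hK
      have hK3 : K₃ ≤ K := ((le_max_right _ _).trans (le_max_right _ _)).trans hK
      obtain ⟨p', rfl⟩ := exA_lift he (h1 K hK1)
      obtain ⟨q', rfl⟩ := exA_lift he (h2 K hK2)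
      obtain ⟨u', rfl⟩ := exA_lift he (h3 K hK3)
      refine ⟨p' * dK u' * q', ?_, ?_⟩
      · exact Submodule.subset_span ⟨p', _, q', Or.inr ⟨u', rfl⟩, rfl⟩
      · rw [map_mul, map_mul, hdK]
  | zero => exact ⟨0, fun K _ m e _ dK _ => ⟨0, zero_mem _, map_zero _⟩⟩
  | add y z _ _ hy hz =>
    obtain ⟨K₁, h1⟩ := hy
    obtain ⟨K₂, h2⟩ := hz
    refine ⟨max K₁ K₂, fun K hK m e he dK hdK => ?_⟩
    obtain ⟨b, hb, rfl⟩ := h1 K ((le_max_left _ _).trans hK) m e he dK hdK
    obtain ⟨c, hc, rfl⟩ := h2 K ((le_max_right _ _).trans hK) m e he dK hdK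
    exact ⟨b + c, add_mem hb hc, map_add _ _ _⟩
  | smul r y _ hy =>
    obtain ⟨K₁, h1⟩ := hy
    refine ⟨K₁, fun K hK m e he dK hdK => ?_⟩
    obtain ⟨b, hb, rfl⟩ := h1 K hK m e he dK hdK
    exact ⟨r • b, Submodule.smul_mem _ _ hb, map_smul _ _ _⟩

end Aux

theorem extract {ι : Type} [Finite ι] {deg : ι → ℕ} (S : MinimalSullivan deg) {n : ℕ} {κ : Type}
    {deg' : κ → ℕ} {d : Lam (Sum.elim deg deg') →ₗ[ℚ] Lam (Sum.elim deg deg')}
    (hodd : ∀ k, Odd (deg' k) ∧ n ≤ deg' k) (hfin : ∀ N, {k | deg' k = N}.Finite)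
    (hd : Dat (Sum.elim deg deg') (Sum.elim (fun _ => 1) (fun _ => n)) d)
    (hS : ∀ a, d (inclSum deg deg' a) = inclSum deg deg' (S.d a))
    (hnil : ∀ i, Even (deg i) →
      ∃ M, gen (Sum.elim deg deg') (Sum.inl i) ^ M ∈ JJ (Sum.elim deg deg') d) :
    ∃ (m : ℕ) (deg'' : Fin m → ℕ) (S' : MinimalSullivan (Sum.elim deg deg'')),
      (∀ j, n ≤ deg'' j ∧ Odd (deg'' j)) ∧ S.IsExtension S' ∧
      ∀ i, Even (deg i) →
        ∃ M, gen (Sum.elim deg deg'') (Sum.inl i) ^ M ∈ JJ (Sum.elim deg deg'') S'.d := by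
  classical
  -- the level
  have h1 : ∀ i : ι, ∃ K₀, ∀ K, K₀ ≤ K → Even (deg i) → ∃ M : ℕ,
      ∀ (m : ℕ) (e : Fin m → κ), (∀ k, deg' k ≤ K → k ∈ Set.range e) →
      ∀ dK : Lam (Sum.elim deg (fun j => deg' (e j))) →ₗ[ℚ] Lam (Sum.elim deg (fun j => deg' (e j))),
      (∀ b, mapL (Sum.map id e) (ex_hf (deg := deg) (deg' := deg') e) (dK b) =
        d (mapL (Sum.map id e) (ex_hf (deg := deg) (deg' := deg') e) b)) →
      ∃ b ∈ JJ (Sum.elim deg (fun j => deg' (e j))) dK,
        mapL (Sum.map id e) (ex_hf (deg := deg) (deg' := deg') e) b =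
          gen (Sum.elim deg deg') (Sum.inl i) ^ M := by
    intro i
    by_cases hi : Even (deg i)
    · obtain ⟨M, hM⟩ := hnil i hi
      obtain ⟨K₀, h⟩ := exJJ hM
      exact ⟨K₀, fun K hK _ => ⟨M, h K hK⟩⟩
    · exact ⟨0, fun K _ h => absurd h hi⟩
  choose K₀ hK₀ using h1
  obtain ⟨K, hK⟩ : ∃ K, ∀ i, K₀ i ≤ K := by
    obtain ⟨K, hK⟩ := (Set.finite_range K₀).bddAbove
    exact ⟨K, fun i => hK ⟨i, rfl⟩⟩
  -- the new generators of degree at most `K`
  have hs : {k : κ | deg' k ≤ K}.Finite := by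
    have h2 : {k : κ | deg' k ≤ K} = ⋃ N ∈ Finset.range (K + 1), {k | deg' k = N} := by
      ext k
      simp only [Set.mem_ofPred_eq, Finset.mem_range, Set.mem_iUnion, exists_prop]
      constructor
      · intro h
        exact ⟨deg' k, by omega, rfl⟩
      · rintro ⟨N, hN, h⟩
        omega
    rw [h2]
    exact Set.Finite.biUnion (Finset.finite_toSet _) fun N _ => hfin N
  have := hs.to_subtype
  obtain ⟨m, ⟨e0⟩⟩ := Finite.exists_equiv_fin {k : κ | deg' k ≤ K}
  obtain ⟨e, hedef⟩ : ∃ e : Fin m → κ, e = fun j => (e0.symm j : κ) := ⟨_, rfl⟩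
  have he1 : Function.Injective e := by
    rw [hedef]
    exact Subtype.val_injective.comp e0.symm.injective
  have he2 : ∀ k, deg' k ≤ K → k ∈ Set.range e := by
    intro k hk
    rw [hedef]
    exact ⟨e0 ⟨k, hk⟩, by simp⟩
  have he3 : ∀ j, deg' (e j) ≤ K := by
    intro j
    rw [hedef]
    exact (e0.symm j).2
  -- the restricted differential
  have hgen : ∀ j : ι ⊕ Fin m, ∃ b, mapL (Sum.map id e) (ex_hf (deg := deg) (deg' := deg') e) b =
      d (gen (Sum.elim deg deg') (Sum.map id e j)) := by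
    intro j
    refine exA_lift he2 ?_
    rcases j with i | j
    · have h3 : gen (Sum.elim deg deg') (Sum.inl i) = inclSum deg deg' (gen deg i) :=
        (ex_inclSum_gen deg' i).symm
      rw [Sum.map_inl, id, h3, hS]
      exact exA_inclSum K _
    · rw [Sum.map_inr]
      have h3 := hd.sull (Sum.inr (e j))
      refine Algebra.adjoin_mono (Set.image_mono ?_) h3
      intro t ht k hk
      subst hk
      have h4 : deg' k < deg' (e j) := ht
      exact h4.le.trans (he3 j)
  obtain ⟨dK, hdat, hcomm⟩ := restrict_dat (ex_hf (deg := deg) (deg' := deg') e) (ex_inj he1) hd hgen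
  obtain ⟨S', hS'⟩ := exists_minimal hdat
  have hinj := mapL_injective (ex_hf (deg := deg) (deg' := deg') e) (ex_inj (ι := ι) he1)
  have hincl : ∀ a, mapL (Sum.map id e) (ex_hf (deg := deg) (deg' := deg') e)
      (inclSum deg (fun j => deg' (e j)) a) = inclSum deg deg' a := by
    intro a
    have h5 : (mapL (Sum.map id e) (ex_hf (deg := deg) (deg' := deg') e)).comp
        (inclSum deg (fun j => deg' (e j))) = inclSum deg deg' := by
      refine Lam.algHom_ext _ fun i => ?_
      rw [AlgHom.comp_apply, ex_inclSum_gen, ex_inclSum_gen, mapL_gen]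
      rfl
    exact congrArg (fun g : Lam deg →ₐ[ℚ] Lam (Sum.elim deg deg') => g a) h5
  refine ⟨m, fun j => deg' (e j), S', fun j => ⟨(hodd (e j)).2, (hodd (e j)).1⟩, ?_, ?_⟩
  · intro a
    apply hinj
    rw [hS', hcomm, hincl, hincl, hS]
  · intro i hi
    obtain ⟨M, hM⟩ := hK₀ i K (hK i) hi
    obtain ⟨b, hb, hb'⟩ := hM m e he2 dK hcomm
    refine ⟨M, ?_⟩
    rw [hS']
    have h6 : gen (Sum.elim deg (fun j => deg' (e j))) (Sum.inl i) ^ M = b := by
      apply hinj
      rw [hb', map_pow, mapL_gen]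
      rfl
    rw [h6]
    exact hb

end Anick2
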