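import Pool.Agent.Helper2.AN.Defs

/-!
AN-01 (project AN, MP_5f0082_gt). Basic facts on the weight filtration, parity and the ideal `JJ`.
Library: `Pool/Agent/Helper2/GCA/Basic.lean` (`Lam.induction`, `hom_induction`, `span_mon`, `sgn_mon`,
`sgn_hom`, `pr_hom`, `pr_mem`, `sum_pr`, `hom_comm`, `gen_comm`, `mon_append`, `degSum_append`) and
`Pool/Agent/Helper2/GCA/Main.lean` for similar arguments. If `Lam` is slow, use
`attribute [local irreducible] instRingLam` as in `GCA/Main.lean`.

Proofs.
* `FW_*`: on monomials, `mon l * mon l' = mon (l ++ l')`, `degSum wt (l ++ l') = degSum wt l + degSum wt l'`;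
  `pr m (mon l)` is `mon l` or `0` (`pr_hom`, `mon_mem_hom`). `FW_low`: `degSum wt l ≤ degSum deg l`.
* Every `a` is a finite sum of the `pr m a` (`sum_pr`), and `sgn (pr m a) = (-1)^m • pr m a`
  (`sgn_hom`, `pr_mem`). So `sgn a = a` iff `pr m a = 0` for odd `m`, and `sgn a = -a` iff `pr m a = 0`
  for even `m` (`sgn_pr`: check on monomials).
* `even_comm`, `odd_anti`: sums of homogeneous elements, `hom_comm`. For `even_comm` write
  `a = ∑ pr m a` (even `m` only) and `b = ∑ pr k b`: `(-1)^(m k) = 1`. `odd_sq`: `2 • (a * a) = 0`.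
* `odd_pos`: `pr 0 a = 0` and the monomials of positive degree are nonempty (or: on monomials, the
  empty monomial has `sgn 1 = 1`; `a = (1/2)(a - sgn a)` and `b - sgn b ∈ lamPos` for all `b`, check on monomials).
* `d_mul`: for homogeneous `a` it is `leibniz` with `sgn_hom`; both sides are linear in `a`
  (`Lam.induction`, `mon_mem_hom`). `sgn_d`: on monomials `l` of degree `m`, `d (mon l) ∈ hom (m + 1)`.
* `d_pow_even`: induction on `k`, `d_mul`, `t` is central (`even_comm`) and `sgn t = t`.
* `d_raise`: on a monomial `l`, by induction on `l`: `d (gen i * mon l) = d (gen i) * mon l ± gen i * d (mon l)`;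
  `d 1 = 0` (from `d (1 * 1) = d 1 + d 1`).
* `odd_mem_JJ`: `a = (1/2)(a - sgn a)`, and for a monomial `l` the element `mon l - sgn (mon l)` is `0` or `2 mon l`
  with `degSum deg l` odd; then some generator of `l` is odd and `mon l = mon l₁ * gen i * mon l₂`.
* `exists_minimal`: minimality follows from the Sullivan condition: `d (gen i) ∈ hom (deg i + 1)` is in the
  subalgebra generated by the generators of degree `< deg i`; apply `pr (deg i + 1)` to a combination of
  monomials `mon l` with all `deg j < deg i` (`Algebra.adjoin_eq_span`, `Submonoid.closure` elements are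
  the `(l.map gen).prod`): the monomials of degree `deg i + 1` have length at least 2.
* `dat_of_minimal`: `mon`s of length `≥ 2` have weight `≥ 2` for the weight function `1`.
-/

set_option autoImplicit false

namespace Anick2

variable {ι : Type} {deg wt : ι → ℕ} {d : Lam deg →ₗ[ℚ] Lam deg}

attribute [local irreducible] instRingLam

private theorem mon_mem_FW (l : List ι) {k : ℕ} (h : k ≤ degSum wt l) :
    mon deg l ∈ FW deg wt k := Submodule.subset_span ⟨l, h, rfl⟩

private theorem FW_ind {k : ℕ} {C : Lam deg → Prop}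
    (hm : ∀ l, k ≤ degSum wt l → C (mon deg l)) (h0 : C 0)
    (hadd : ∀ a b, C a → C b → C (a + b)) (hsmul : ∀ (r : ℚ) a, C a → C (r • a))
    {a : Lam deg} (ha : a ∈ FW deg wt k) : C a := by
  unfold FW at ha
  induction ha using Submodule.span_induction with
  | mem x hx => obtain ⟨l, hl, rfl⟩ := hx; exact hm l hl
  | zero => exact h0
  | add y z _ _ hy hz => exact hadd _ _ hy hz
  | smul r y _ hy => exact hsmul _ _ hy

private theorem eq_zero_of_neg {x : Lam deg} (h : x = -x) : x = 0 := by
  have h1 : (2 : ℚ) • x = 0 := by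
    rw [two_smul]
    nth_rewrite 2 [h]
    exact add_neg_cancel x
  have h2 : ((2 : ℚ)⁻¹ * 2) • x = 0 := by rw [mul_smul, h1, smul_zero]
  rwa [inv_mul_cancel₀ (by norm_num), one_smul] at h2

theorem FW_zero : FW deg wt 0 = ⊤ := by
  rw [eq_top_iff]
  rintro a -
  induction a using Lam.induction with
  | hm l => exact mon_mem_FW l (Nat.zero_le _)
  | h0 => exact zero_mem _
  | hadd a b ha hb => exact add_mem ha hb
  | hsmul r a ha => exact Submodule.smul_mem _ _ ha

theorem FW_anti {k l : ℕ} (h : k ≤ l) : FW deg wt l ≤ FW deg wt k := by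
  unfold FW
  apply Submodule.span_mono
  rintro _ ⟨m, hm, rfl⟩
  exact ⟨m, h.trans hm, rfl⟩

theorem FW_mul {k l : ℕ} {a b : Lam deg} (ha : a ∈ FW deg wt k) (hb : b ∈ FW deg wt l) :
    a * b ∈ FW deg wt (k + l) := by
  refine FW_ind (C := fun a => a * b ∈ FW deg wt (k + l)) (fun m hm => ?_) ?_
    (fun a a' ha ha' => by rw [add_mul]; exact add_mem ha ha')
    (fun r a ha => by rw [smul_mul_assoc]; exact Submodule.smul_mem _ _ ha) ha
  · refine FW_ind (C := fun b => mon deg m * b ∈ FW deg wt (k + l)) (fun m' hm' => ?_) ?_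
      (fun a a' ha ha' => by rw [mul_add]; exact add_mem ha ha')
      (fun r a ha => by rw [mul_smul_comm]; exact Submodule.smul_mem _ _ ha) hb
    · rw [← mon_append]
      apply mon_mem_FW
      rw [degSum_append]
      omega
    · rw [mul_zero]; exact zero_mem _
  · rw [zero_mul]; exact zero_mem _

theorem gen_mem_FW (i : ι) : gen deg i ∈ FW deg wt (wt i) := by
  have h := mon_mem_FW (deg := deg) (wt := wt) [i] (k := wt i) (by simp)
  simpa using h

theorem FW_pow {a : Lam deg} (ha : a ∈ FW deg wt 1) (k : ℕ) : a ^ k ∈ FW deg wt k := by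
  induction k with
  | zero => rw [FW_zero]; trivial
  | succ k ih => rw [pow_succ]; exact FW_mul ih ha

theorem pr_mem_FW {k : ℕ} {a : Lam deg} (ha : a ∈ FW deg wt k) (m : ℕ) :
    pr deg m a ∈ FW deg wt k := by
  refine FW_ind (C := fun a => pr deg m a ∈ FW deg wt k) (fun l hl => ?_) ?_
    (fun a a' ha ha' => by rw [map_add]; exact add_mem ha ha')
    (fun r a ha => by rw [map_smul]; exact Submodule.smul_mem _ _ ha) ha
  · rw [pr_hom deg (mon_mem_hom deg l)]
    split
    · exact mon_mem_FW l hl
    · exact zero_mem _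
  · rw [map_zero]; exact zero_mem _

theorem degSum_le (h : ∀ i, wt i ≤ deg i) (l : List ι) : degSum wt l ≤ degSum deg l := by
  induction l with
  | nil => simp
  | cons i l ih => have := h i; rw [degSum_cons, degSum_cons]; omega

theorem FW_low (h : ∀ i, wt i ≤ deg i) {k m : ℕ} {a : Lam deg} (ha : a ∈ FW deg wt k)
    (hm : m < k) : pr deg m a = 0 := by
  refine FW_ind (C := fun a => pr deg m a = 0) (fun l hl => ?_) (map_zero _)
    (fun a a' ha ha' => by rw [map_add, ha, ha', add_zero])
    (fun r a ha => by rw [map_smul, ha, smul_zero]) ha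
  rw [pr_hom deg (mon_mem_hom deg l), if_neg]
  have := degSum_le h l
  omega

private theorem degSum_one (l : List ι) : degSum (fun _ => 1) l = l.length := by
  simp [degSum]

theorem lamPos_eq : lamPos deg = FW deg (fun _ => 1) 1 := by
  unfold lamPos FW
  congr 1
  ext a
  constructor
  · rintro ⟨l, hl, rfl⟩
    refine ⟨l, ?_, rfl⟩
    rw [degSum_one]
    exact List.length_pos_of_ne_nil hl
  · rintro ⟨l, hl, rfl⟩
    refine ⟨l, ?_, rfl⟩
    rw [degSum_one] at hl
    exact List.ne_nil_of_length_pos hl

theorem lamPos_le (h : ∀ i, 1 ≤ wt i) : lamPos deg ≤ FW deg wt 1 := by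
  unfold lamPos
  rw [Submodule.span_le]
  rintro _ ⟨l, hl, rfl⟩
  apply mon_mem_FW
  have := degSum_ge wt h l
  have := List.length_pos_of_ne_nil hl
  omega

private theorem DLE_mono {M N : ℕ} (h : M ≤ N) : DLE deg M ≤ DLE deg N := by
  unfold DLE
  apply Submodule.span_mono
  rintro _ ⟨m, hm, rfl⟩
  exact ⟨m, hm.trans h, rfl⟩

theorem mem_DLE (a : Lam deg) : ∃ M, a ∈ DLE deg M := by
  induction a using Lam.induction with
  | hm l => exact ⟨degSum deg l, Submodule.subset_span ⟨l, le_rfl, rfl⟩⟩
  | h0 => exact ⟨0, zero_mem _⟩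
  | hadd a b ha hb =>
    obtain ⟨M, hM⟩ := ha
    obtain ⟨N, hN⟩ := hb
    exact ⟨max M N, add_mem (DLE_mono (le_max_left _ _) hM) (DLE_mono (le_max_right _ _) hN)⟩
  | hsmul r a ha =>
    obtain ⟨M, hM⟩ := ha
    exact ⟨M, Submodule.smul_mem _ _ hM⟩

theorem sgn_sgn (a : Lam deg) : sgn deg (sgn deg a) = a := by
  induction a using Lam.induction with
  | hm l =>
    rw [sgn_mon, map_smul, sgn_mon, smul_smul, ← pow_add, ← two_mul, pow_mul]
    norm_num
  | h0 => rw [map_zero, map_zero]
  | hadd a b ha hb => rw [map_add, map_add, ha, hb]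
  | hsmul r a ha => rw [map_smul, map_smul, ha]

theorem sgn_pr (m : ℕ) (a : Lam deg) : sgn deg (pr deg m a) = pr deg m (sgn deg a) := by
  induction a using Lam.induction with
  | hm l =>
    rw [sgn_mon, map_smul, pr_hom deg (mon_mem_hom deg l)]
    split
    · rw [sgn_mon]
    · rw [map_zero, smul_zero]
  | h0 => rw [map_zero, map_zero, map_zero]
  | hadd a b ha hb => rw [map_add, map_add, map_add, map_add, ha, hb]
  | hsmul r a ha => rw [map_smul, map_smul, map_smul, map_smul, ha]

theorem pr_even {a : Lam deg} (ha : sgn deg a = a) {m : ℕ} (hm : Odd m) : pr deg m a = 0 := by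
  have h1 := sgn_pr (deg := deg) m a
  rw [ha, sgn_hom deg (pr_mem deg m a), hm.neg_one_pow, neg_one_smul] at h1
  exact eq_zero_of_neg h1.symm

private theorem pr_odd {a : Lam deg} (ha : sgn deg a = -a) {m : ℕ} (hm : Even m) :
    pr deg m a = 0 := by
  have h1 := sgn_pr (deg := deg) m a
  rw [ha, sgn_hom deg (pr_mem deg m a), hm.neg_one_pow, one_smul, map_neg] at h1
  exact eq_zero_of_neg h1

theorem sgn_gen_even {i : ι} (hi : Even (deg i)) : sgn deg (gen deg i) = gen deg i := by
  rw [sgn_gen, hi.neg_one_pow, one_smul]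

theorem sgn_gen_odd {i : ι} (hi : Odd (deg i)) : sgn deg (gen deg i) = -gen deg i := by
  rw [sgn_gen, hi.neg_one_pow, neg_one_smul]

private theorem odd_half {a : Lam deg} (ha : sgn deg a = -a) :
    a = (2 : ℚ)⁻¹ • (a - sgn deg a) := by
  rw [ha, sub_neg_eq_add, ← two_smul ℚ a, smul_smul, inv_mul_cancel₀ (by norm_num), one_smul]

theorem odd_pos {a : Lam deg} (ha : sgn deg a = -a) : a ∈ lamPos deg := by
  have key : ∀ b : Lam deg, b - sgn deg b ∈ lamPos deg := by
    intro b
    induction b using Lam.induction with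
    | hm l =>
      by_cases hl : l = []
      · subst hl
        rw [mon_nil, map_one, sub_self]
        exact zero_mem _
      · rw [sgn_mon]
        have h1 : mon deg l ∈ lamPos deg := Submodule.subset_span ⟨l, hl, rfl⟩
        exact sub_mem h1 (Submodule.smul_mem _ _ h1)
    | h0 => rw [map_zero, sub_zero]; exact zero_mem _
    | hadd a b ha hb =>
      rw [map_add, add_sub_add_comm]
      exact add_mem ha hb
    | hsmul r a ha =>
      rw [map_smul, ← smul_sub]
      exact Submodule.smul_mem _ _ ha
  rw [odd_half ha]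
  exact Submodule.smul_mem _ _ (key a)

theorem even_comm {a : Lam deg} (ha : sgn deg a = a) (b : Lam deg) : a * b = b * a := by
  have key : ∀ n, pr deg n a * b = b * pr deg n a := by
    intro n
    rcases Nat.even_or_odd n with hn | hn
    · induction b using Lam.induction with
      | hm l =>
        rw [hom_comm deg (pr_mem deg n a) (mon_mem_hom deg l), (hn.mul_right _).neg_one_pow,
          one_smul]
      | h0 => rw [mul_zero, zero_mul]
      | hadd a b ha hb => rw [mul_add, add_mul, ha, hb]
      | hsmul r a ha => rw [mul_smul_comm, smul_mul_assoc, ha]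
    · rw [pr_even ha hn, zero_mul, mul_zero]
  obtain ⟨N, hN⟩ := sum_pr deg a
  have h1 := hN N le_rfl
  rw [h1, Finset.sum_mul, Finset.mul_sum]
  exact Finset.sum_congr rfl fun n _ => key n

theorem odd_anti {a b : Lam deg} (ha : sgn deg a = -a) (hb : sgn deg b = -b) :
    a * b = -(b * a) := by
  have key : ∀ n m, pr deg n a * pr deg m b = -(pr deg m b * pr deg n a) := by
    intro n m
    rcases Nat.even_or_odd n with hn | hn
    · rw [pr_odd ha hn, zero_mul, mul_zero, neg_zero]
    · rcases Nat.even_or_odd m with hm | hm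
      · rw [pr_odd hb hm, zero_mul, mul_zero, neg_zero]
      · rw [hom_comm deg (pr_mem deg n a) (pr_mem deg m b), (hn.mul hm).neg_one_pow,
          neg_one_smul]
  obtain ⟨N, hN⟩ := sum_pr deg a
  obtain ⟨M, hM⟩ := sum_pr deg b
  have h1 := hN N le_rfl
  have h2 := hM M le_rfl
  rw [h1, h2, Finset.sum_mul_sum, Finset.sum_mul_sum, Finset.sum_comm, ← Finset.sum_neg_distrib]
  refine Finset.sum_congr rfl fun m _ => ?_
  rw [← Finset.sum_neg_distrib]
  exact Finset.sum_congr rfl fun n _ => key n m

theorem odd_sq {a : Lam deg} (ha : sgn deg a = -a) : a * a = 0 :=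
  eq_zero_of_neg (odd_anti ha ha)

theorem d_mul (hd : IsDifferential (hom deg) d) (a b : Lam deg) :
    d (a * b) = d a * b + sgn deg a * d b := by
  induction a using Lam.induction with
  | hm l =>
    rw [hd.leibniz _ _ (mon_mem_hom deg l), sgn_mon, smul_mul_assoc]
  | h0 => rw [zero_mul, map_zero, map_zero, zero_mul, zero_mul, add_zero]
  | hadd a a' ha ha' =>
    rw [add_mul, map_add, ha, ha', map_add, map_add, add_mul, add_mul]
    abel
  | hsmul r a ha =>
    rw [smul_mul_assoc, map_smul, ha, map_smul, map_smul, smul_mul_assoc, smul_mul_assoc,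
      smul_add]

theorem sgn_d (hd : IsDifferential (hom deg) d) (a : Lam deg) :
    sgn deg (d a) = -d (sgn deg a) := by
  induction a using Lam.induction with
  | hm l =>
    rw [sgn_hom deg (hd.map_hom _ _ (mon_mem_hom deg l)), sgn_mon, map_smul, pow_succ, mul_neg,
      mul_one, neg_smul]
  | h0 => rw [map_zero, map_zero, map_zero, neg_zero]
  | hadd a b ha hb => rw [map_add, map_add, ha, hb, map_add, map_add, neg_add]
  | hsmul r a ha => rw [map_smul, map_smul, ha, map_smul, map_smul, smul_neg]

theorem d_one (hd : IsDifferential (hom deg) d) : d 1 = 0 := by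
  have h := d_mul hd 1 1
  have h1 : sgn deg (1 : Lam deg) = 1 := map_one (sgn deg)
  rw [h1, mul_one, mul_one, one_mul] at h
  exact (add_eq_left.1 h.symm)

theorem d_pow_even (hd : IsDifferential (hom deg) d) {t : Lam deg} (ht : sgn deg t = t) (k : ℕ) :
    d (t ^ (k + 1)) = ((k : ℚ) + 1) • (t ^ k * d t) := by
  induction k with
  | zero => simp
  | succ k ih =>
    rw [pow_succ' t (k + 1), d_mul hd, ih, ht, mul_smul_comm, ← mul_assoc, ← pow_succ' t k]
    have h1 : d t * t ^ (k + 1) = t ^ (k + 1) * d t := by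
      have h2 : sgn deg (t ^ (k + 1)) = t ^ (k + 1) := by rw [map_pow, ht]
      exact (even_comm h2 (d t)).symm
    rw [h1]
    push_cast
    rw [add_smul ((k : ℚ) + 1) 1, one_smul, add_comm]

theorem d_raise (hd : Dat deg wt d) {k : ℕ} {a : Lam deg} (ha : a ∈ FW deg wt k) :
    d a ∈ FW deg wt (k + 1) := by
  have key : ∀ l : List ι, d (mon deg l) ∈ FW deg wt (degSum wt l + 1) := by
    intro l
    induction l with
    | nil => rw [mon_nil, d_one hd.diff]; exact zero_mem _
    | cons i l ih =>
      rw [mon_cons, d_mul hd.diff, degSum_cons]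
      refine add_mem ?_ ?_
      · have h1 := FW_mul (hd.raise i) (mon_mem_FW (deg := deg) (wt := wt) l le_rfl)
        exact FW_anti (by omega) h1
      · have h2 : sgn deg (gen deg i) ∈ FW deg wt (wt i) := by
          rw [sgn_gen]
          exact Submodule.smul_mem _ _ (gen_mem_FW i)
        have h1 := FW_mul h2 ih
        exact FW_anti (by omega) h1
  refine FW_ind (C := fun a => d a ∈ FW deg wt (k + 1)) (fun l hl => ?_) ?_
    (fun a a' ha ha' => by rw [map_add]; exact add_mem ha ha')
    (fun r a ha => by rw [map_smul]; exact Submodule.smul_mem _ _ ha) ha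
  · exact FW_anti (by omega) (key l)
  · rw [map_zero]; exact zero_mem _

theorem idealSpan_left {s : Set (Lam deg)} {a : Lam deg} (ha : a ∈ idealSpan s) (b : Lam deg) :
    b * a ∈ idealSpan s := by
  unfold idealSpan at ha ⊢
  induction ha using Submodule.span_induction with
  | mem x hx =>
    obtain ⟨p, v, q, hv, rfl⟩ := hx
    refine Submodule.subset_span ⟨b * p, v, q, hv, ?_⟩
    rw [mul_assoc, mul_assoc, mul_assoc]
  | zero => rw [mul_zero]; exact zero_mem _
  | add y z _ _ hy hz => rw [mul_add]; exact add_mem hy hz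
  | smul r y _ hy => rw [mul_smul_comm]; exact Submodule.smul_mem _ _ hy

theorem idealSpan_right {s : Set (Lam deg)} {a : Lam deg} (ha : a ∈ idealSpan s) (b : Lam deg) :
    a * b ∈ idealSpan s := by
  unfold idealSpan at ha ⊢
  induction ha using Submodule.span_induction with
  | mem x hx =>
    obtain ⟨p, v, q, hv, rfl⟩ := hx
    refine Submodule.subset_span ⟨p, v, q * b, hv, ?_⟩
    rw [mul_assoc (p * v)]
  | zero => rw [zero_mul]; exact zero_mem _
  | add y z _ _ hy hz => rw [add_mul]; exact add_mem hy hz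
  | smul r y _ hy => rw [smul_mul_assoc]; exact Submodule.smul_mem _ _ hy

theorem mem_idealSpan_self {s : Set (Lam deg)} {a : Lam deg} (ha : a ∈ s) : a ∈ idealSpan s :=
  Submodule.subset_span ⟨1, a, 1, ha, by rw [one_mul, mul_one]⟩

theorem JJ_left {a : Lam deg} (ha : a ∈ JJ deg d) (b : Lam deg) : b * a ∈ JJ deg d :=
  idealSpan_left ha b

theorem JJ_right {a : Lam deg} (ha : a ∈ JJ deg d) (b : Lam deg) : a * b ∈ JJ deg d :=
  idealSpan_right ha b

theorem d_mem_JJ (a : Lam deg) : d a ∈ JJ deg d :=
  mem_idealSpan_self (Or.inr ⟨a, rfl⟩)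

private theorem exists_odd (l : List ι) (h : Odd (degSum deg l)) : ∃ i ∈ l, Odd (deg i) := by
  induction l with
  | nil => simp at h
  | cons i l ih =>
    rw [degSum_cons] at h
    rcases Nat.even_or_odd (deg i) with hi | hi
    · obtain ⟨j, hj, hj'⟩ := ih ((Nat.odd_add'.1 h).2 hi)
      exact ⟨j, List.mem_cons_of_mem _ hj, hj'⟩
    · exact ⟨i, List.mem_cons_self, hi⟩

theorem odd_mem_JJ {a : Lam deg} (ha : sgn deg a = -a) : a ∈ JJ deg d := by
  have key : ∀ b : Lam deg, b - sgn deg b ∈ JJ deg d := by
    intro b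
    induction b using Lam.induction with
    | hm l =>
      rcases Nat.even_or_odd (degSum deg l) with hl | hl
      · rw [sgn_mon, hl.neg_one_pow, one_smul, sub_self]
        exact zero_mem _
      · have h1 : mon deg l ∈ JJ deg d := by
          obtain ⟨i, hi, hi'⟩ := exists_odd l hl
          obtain ⟨s, t, rfl⟩ := List.append_of_mem hi
          rw [mon_append, mon_cons]
          have h2 : gen deg i ∈ JJ deg d := mem_idealSpan_self (Or.inl ⟨i, hi', rfl⟩)
          exact JJ_left (JJ_right h2 _) _
        rw [sgn_mon]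
        exact sub_mem h1 (Submodule.smul_mem _ _ h1)
    | h0 => rw [map_zero, sub_zero]; exact zero_mem _
    | hadd a b ha hb =>
      rw [map_add, add_sub_add_comm]
      exact add_mem ha hb
    | hsmul r a ha =>
      rw [map_smul, ← smul_sub]
      exact Submodule.smul_mem _ _ ha
  rw [odd_half ha]
  exact Submodule.smul_mem _ _ (key a)

theorem exists_minimal (hd : Dat deg wt d) : ∃ S : MinimalSullivan deg, S.d = d := by
  refine ⟨⟨hd.two_le, d, hd.diff, hd.sull, ?_⟩, rfl⟩
  intro i
  have h1 : d (gen deg i) ∈ Submodule.span ℚ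
      {a | ∃ l : List ι, (∀ j ∈ l, deg j < deg i) ∧ a = mon deg l} := by
    have h2 := hd.sull i
    rw [← Subalgebra.mem_toSubmodule, Algebra.adjoin_eq_span] at h2
    refine Submodule.span_mono ?_ h2
    intro x hx
    obtain ⟨L, hL, rfl⟩ := Submonoid.exists_list_of_mem_closure hx
    clear hx
    induction L with
    | nil => exact ⟨[], by simp, by simp⟩
    | cons y L ih =>
      obtain ⟨l, hl, hl'⟩ := ih (fun z hz => hL z (List.mem_cons_of_mem _ hz))
      obtain ⟨j, hj, rfl⟩ := hL y List.mem_cons_self
      refine ⟨j :: l, ?_, ?_⟩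
      · intro j' hj'
        rcases List.mem_cons.1 hj' with rfl | h
        · exact hj
        · exact hl j' h
      · rw [List.prod_cons, hl', mon_cons]
  have h2 : pr deg (deg i + 1) (d (gen deg i)) = d (gen deg i) := by
    rw [pr_hom deg (hd.diff.map_hom _ _ (gen_mem_hom deg i)), if_pos rfl]
  rw [← h2]
  have h3 : ∀ x ∈ Submodule.span ℚ
      {a | ∃ l : List ι, (∀ j ∈ l, deg j < deg i) ∧ a = mon deg l},
      pr deg (deg i + 1) x ∈ Submodule.span ℚ
        {a | ∃ l : List ι, 2 ≤ l.length ∧ a = (l.map (gen deg)).prod} := by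
    intro x hx
    induction hx using Submodule.span_induction with
    | mem x hx =>
      obtain ⟨l, hl, rfl⟩ := hx
      rw [pr_hom deg (mon_mem_hom deg l)]
      split
      · rename_i hs
        refine Submodule.subset_span ⟨l, ?_, rfl⟩
        match l, hl, hs with
        | [], _, hs => simp at hs
        | [j], hl, hs =>
          have := hl j (by simp)
          simp at hs
          omega
        | _ :: _ :: _, _, _ => simp
      · exact zero_mem _
    | zero => rw [map_zero]; exact zero_mem _
    | add y z _ _ hy hz => rw [map_add]; exact add_mem hy hz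
    | smul r y _ hy => rw [map_smul]; exact Submodule.smul_mem _ _ hy
  exact h3 _ h1

theorem dat_of_minimal (S : MinimalSullivan deg) : Dat deg (fun _ => 1) S.d := by
  refine ⟨S.two_le, fun _ => le_rfl, S.isDifferential, S.sullivan, fun i => ?_⟩
  have h := S.minimal i
  refine Submodule.span_mono ?_ h
  rintro _ ⟨l, hl, rfl⟩
  refine ⟨l, ?_, rfl⟩
  rw [degSum_one]
  exact hl

end Anick2
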