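import Pool.Agent.Helper2.AN.Facts

/-!
AN-13 (project AN, MP_5f0082_gt). A homogeneous system of generators defines a graded automorphism.

Proof. `Φ₀ = Lam.lift deg g` (the relations hold by `hom_comm` and `hg.mem`). On monomials: `Φ₀ (hom m) ⊆ hom m`, `Φ₀ (pr m a) = pr m (Φ₀ a)`. The range of `Φ₀` is a subalgebra containing
`range g`, so `Φ₀` is surjective; `b ∈ hom m`, `b = Φ₀ a` gives `b = pr m b = Φ₀ (pr m a)`: `Φ₀ : hom m → hom m` is surjective. `hom m` is finite-dimensional (`hom_fg` in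
`GCA/Defs.lean`; `ι` finite, `1 ≤ deg i`), so it is injective on `hom m` (`LinearMap.injective_iff_surjective`). If `Φ₀ a = 0`, then `Φ₀ (pr m a) = 0`, so `pr m a = 0` for all `m` and
`a = 0` (`sum_pr`). `Φ = AlgEquiv.ofBijective`. If `a ∈ hom m`, then `a = Φ b` with `b ∈ hom m`, so `Φ.symm a = b`.
-/

set_option autoImplicit false

namespace Anick2

theorem gen_equiv {ι : Type} [Finite ι] {deg : ι → ℕ} (h1 : ∀ i, 1 ≤ deg i) {g : ι → Lam deg}
    (hg : IsGenSystem deg g) :
    ∃ Φ : Lam deg ≃ₐ[ℚ] Lam deg, (∀ i, Φ (gen deg i) = g i) ∧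
      (∀ (m : ℕ) (a : Lam deg), a ∈ hom deg m → Φ a ∈ hom deg m) ∧
      (∀ (m : ℕ) (a : Lam deg), a ∈ hom deg m → Φ.symm a ∈ hom deg m) := by
  have hrel : ∀ i j, g i * g j = (-1 : ℚ) ^ (deg i * deg j) • (g j * g i) :=
    fun i j => hom_comm deg (hg.mem i) (hg.mem j)
  obtain ⟨Φ₀, hgen⟩ : ∃ Φ₀ : Lam deg →ₐ[ℚ] Lam deg, ∀ i, Φ₀ (gen deg i) = g i :=
    ⟨Lam.lift deg g hrel, fun i => Lam.lift_gen deg g hrel i⟩
  have hmon : ∀ l, Φ₀ (mon deg l) ∈ hom deg (degSum deg l) := by
    intro l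
    induction l with
    | nil =>
      rw [mon_nil, map_one]
      exact mon_mem_hom deg []
    | cons i l ih =>
      rw [mon_cons, map_mul, hgen, degSum_cons]
      exact mul_mem_hom deg (hg.mem i) ih
  have hhom : ∀ m a, a ∈ hom deg m → Φ₀ a ∈ hom deg m := by
    intro m a ha
    refine hom_induction deg (C := fun a => Φ₀ a ∈ hom deg m) (fun l hl => by rw [← hl]; exact hmon l)
      (by rw [map_zero]; exact zero_mem _)
      (fun a b ha hb => by rw [map_add]; exact add_mem ha hb)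
      (fun r a ha => by rw [map_smul]; exact Submodule.smul_mem _ _ ha) ha
  have hpr : ∀ m a, Φ₀ (pr deg m a) = pr deg m (Φ₀ a) := by
    intro m a
    induction a using Lam.induction with
    | hm l =>
      rw [pr_hom deg (mon_mem_hom deg l), pr_hom deg (hmon l)]
      split
      · rfl
      · rw [map_zero]
    | h0 => rw [map_zero, map_zero, map_zero]
    | hadd a b ha hb => rw [map_add, map_add, map_add, map_add, ha, hb]
    | hsmul r a ha => rw [map_smul, map_smul, map_smul, map_smul, ha]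
  have hsurj : Function.Surjective Φ₀ := by
    have h2 : Φ₀.range = ⊤ := by
      rw [eq_top_iff, ← hg.adjoin]
      refine Algebra.adjoin_le ?_
      rintro _ ⟨i, rfl⟩
      exact ⟨gen deg i, hgen i⟩
    exact (AlgHom.range_eq_top Φ₀).1 h2
  have hsurj' : ∀ m b, b ∈ hom deg m → ∃ a ∈ hom deg m, Φ₀ a = b := by
    intro m b hb
    obtain ⟨a, rfl⟩ := hsurj b
    refine ⟨pr deg m a, pr_mem deg m a, ?_⟩
    rw [hpr, pr_hom deg hb, if_pos rfl]
  have hinj' : ∀ m a, a ∈ hom deg m → Φ₀ a = 0 → a = 0 := by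
    intro m a ha h0
    have hfg : (hom deg m).FG := hom_fg deg (fun n => Set.toFinite _) h1 m
    have : Module.Finite ℚ (hom deg m) := Module.Finite.iff_fg.2 hfg
    let T : hom deg m →ₗ[ℚ] hom deg m := (Φ₀.toLinearMap).restrict (hhom m)
    have hT : Function.Surjective T := by
      rintro ⟨b, hb⟩
      obtain ⟨a, ha, hab⟩ := hsurj' m b hb
      exact ⟨⟨a, ha⟩, Subtype.ext hab⟩
    have hTi : Function.Injective T := OrzechProperty.injective_of_surjective_endomorphism T hT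
    have h3 : T ⟨a, ha⟩ = T 0 := by
      rw [map_zero]
      exact Subtype.ext h0
    exact congrArg Subtype.val (hTi h3)
  have hinj : Function.Injective Φ₀ := by
    rw [injective_iff_map_eq_zero]
    intro a ha
    obtain ⟨N, hN⟩ := sum_pr deg a
    rw [hN N le_rfl]
    refine Finset.sum_eq_zero fun m _ => hinj' m _ (pr_mem deg m a) ?_
    rw [hpr, ha, map_zero]
  refine ⟨AlgEquiv.ofBijective Φ₀ ⟨hinj, hsurj⟩, hgen, hhom, ?_⟩
  intro m a ha
  obtain ⟨b, hb, rfl⟩ := hsurj' m a ha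
  have h4 : (AlgEquiv.ofBijective Φ₀ ⟨hinj, hsurj⟩).symm (Φ₀ b) = b :=
    (AlgEquiv.ofBijective Φ₀ ⟨hinj, hsurj⟩).symm_apply_apply b
  rw [h4]
  exact hb

end Anick2
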