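import Pool.Agent.Helper2.AN.KRed

/-!
AN-12 (project AN, MP_5f0082_gt). Finite-dimensional cohomology.

Proof. `G` from `k_red`. For `k` odd, `e k = S.d (gen k)` is even (`sgn_d`), so central (`even_comm`), closed, homogeneous of degree `deg k + 1`.
`R = MvPolynomial {k // Odd (deg k)} ℚ` acts on `Lam deg` through `X k ↦ e k` (`MvPolynomial.aeval` into `Subalgebra.center ℚ (Lam deg)`, a commutative ring; then
`Module.compHom`). `R` is Noetherian (`ι` finite).
(1) `G` generates `Lam deg` over `R`: every `a ∈ hom m` is in `span_R G`, strong induction on `m`: `a = ∑ c_g g + ∑_j e (k_j) * b_j` (`k_red`); apply `pr m`: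
    `a = ∑ c_g pr m g + ∑_j e (k_j) * pr (m - deg k_j - 1) b_j` (`pr m (e * b) = e * pr (m - deg k - 1) b` for `deg k + 1 ≤ m` and `0` otherwise, on monomials `b`; or write
    `b` as a sum of its components, `sum_pr`), `pr m g ∈ {g, 0}` as `g` is homogeneous, and induction. Then all `a` by `sum_pr`.
(2) `ker S.d` is an `R`-submodule: `d (e k * a) = e k * d a` (`d_mul`, `e k` closed and even). `Lam deg` is a Noetherian `R`-module, so `ker S.d` is generated over `R` by finitely many `z_1, …, z_s`.
(3) For `z` closed and `k` odd: `e k * z = d (gen k * z)` (`d_mul`). So for `r ∈ R` and `z` closed, `r • z - (constant coefficient of r) • z ∈ range d` (on monomials of `R`, induction: a monomial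
    `≠ 1` is `X k * r'`, `(X k * r') • z = e k * (r' • z)`, `r' • z` closed). So every closed element is a `ℚ`-combination of the `z_j` plus a boundary, and
    `ker d ⧸ (range d)` is spanned by the classes of the `z_j`: `Module.Finite`.
-/

set_option autoImplicit false

namespace Anick2

/-- The general lemma. -/
private theorem fin_of_central {A : Type} [Ring A] [Algebra ℚ A] (d : A →ₗ[ℚ] A)
    {K : Type} [Finite K] (e g : K → A)
    (hc : ∀ k a, e k * a = a * e k) (hde : ∀ k a, d (e k * a) = e k * d a)
    (hg : ∀ k z, d z = 0 → e k * z = d (g k * z))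
    (G : Set A) (hG : G.Finite)
    (hV : ∀ V : Submodule ℚ A, G ⊆ V → (∀ k, ∀ b ∈ V, e k * b ∈ V) → V = ⊤) :
    Module.Finite ℚ (LinearMap.ker d ⧸ (LinearMap.range d).comap (LinearMap.ker d).subtype) := by
  classical
  set f0 : MvPolynomial K ℚ →ₐ[ℚ] Subalgebra.center ℚ A :=
    MvPolynomial.aeval (fun k => (⟨e k, Subalgebra.mem_center_iff.2 fun b => (hc k b).symm⟩ :
      Subalgebra.center ℚ A)) with hf0
  set f : MvPolynomial K ℚ →ₐ[ℚ] A := (Subalgebra.center ℚ A).val.comp f0 with hf
  have fX : ∀ k, f (MvPolynomial.X k) = e k := by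
    intro k
    rw [hf, AlgHom.comp_apply, hf0, MvPolynomial.aeval_X]
    rfl
  have fC : ∀ r, f (MvPolynomial.C r) = algebraMap ℚ A r := by
    intro r
    rw [← MvPolynomial.algebraMap_eq]
    exact f.commutes r
  have fc : ∀ r a, f r * a = a * f r := by
    intro r a
    have h1 := (f0 r).2
    rw [Subalgebra.mem_center_iff] at h1
    exact (h1 a).symm
  let _ : Module (MvPolynomial K ℚ) A := Module.compHom A (f : MvPolynomial K ℚ →+* A)
  have hs : ∀ (r : MvPolynomial K ℚ) (a : A), r • a = f r * a := fun r a => rfl
  have : IsScalarTower ℚ (MvPolynomial K ℚ) A := ⟨fun q r a => by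
    rw [hs, hs, map_smul, smul_mul_assoc]⟩
  have hdf : ∀ (r : MvPolynomial K ℚ) (a : A), d (f r * a) = f r * d a := by
    intro r
    induction r using MvPolynomial.induction_on with
    | C q =>
      intro a
      rw [fC, ← Algebra.smul_def, ← Algebra.smul_def, map_smul]
    | add p q hp hq =>
      intro a
      rw [map_add, add_mul, add_mul, map_add, hp, hq]
    | mul_X p k hp =>
      intro a
      rw [map_mul f, fX, mul_assoc, mul_assoc, hp, hde]
  let kerR : Submodule (MvPolynomial K ℚ) A :=
    { carrier := {a | d a = 0}
      add_mem' := fun {a b} ha hb => by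
        have ha' : d a = 0 := ha
        have hb' : d b = 0 := hb
        change d (a + b) = 0
        rw [map_add, ha', hb', add_zero]
      zero_mem' := map_zero d
      smul_mem' := fun r a ha => by
        have ha' : d a = 0 := ha
        change d (r • a) = 0
        rw [hs, hdf, ha', mul_zero] }
  have htop : Submodule.span (MvPolynomial K ℚ) G = ⊤ := by
    have h1 := hV ((Submodule.span (MvPolynomial K ℚ) G).restrictScalars ℚ)
      (fun x hx => Submodule.subset_span hx) (fun k b hb => by
        have h2 : (MvPolynomial.X k : MvPolynomial K ℚ) • b ∈ Submodule.span (MvPolynomial K ℚ) G :=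
          Submodule.smul_mem _ _ hb
        rw [hs, fX] at h2
        exact h2)
    rw [eq_top_iff]
    intro x _
    have : x ∈ (Submodule.span (MvPolynomial K ℚ) G).restrictScalars ℚ := by rw [h1]; trivial
    exact this
  have : Module.Finite (MvPolynomial K ℚ) A := ⟨⟨hG.toFinset, by rw [Set.Finite.coe_toFinset]; exact htop⟩⟩
  have : IsNoetherian (MvPolynomial K ℚ) A := isNoetherian_of_isNoetherianRing_of_finite _ _
  obtain ⟨Z, hZ⟩ := IsNoetherian.noetherian kerR
  have hZk : ∀ z ∈ Submodule.span (MvPolynomial K ℚ) (Z : Set A), d z = 0 := by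
    intro z hz
    rw [hZ] at hz
    exact hz
  have key : ∀ (r : MvPolynomial K ℚ) (z : A), d z = 0 →
      f r * z - MvPolynomial.constantCoeff r • z ∈ LinearMap.range d := by
    intro r
    induction r using MvPolynomial.induction_on with
    | C q =>
      intro z _
      rw [fC, ← Algebra.smul_def, MvPolynomial.constantCoeff_C, sub_self]
      exact zero_mem _
    | add p q hp hq =>
      intro z hz
      have h1 := add_mem (hp z hz) (hq z hz)
      have h2 : f (p + q) * z - MvPolynomial.constantCoeff (p + q) • z =
          (f p * z - MvPolynomial.constantCoeff p • z) +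
            (f q * z - MvPolynomial.constantCoeff q • z) := by
        rw [map_add, map_add, add_mul, add_smul]
        abel
      rw [h2]
      exact h1
    | mul_X p k hp =>
      intro z hz
      have h1 : MvPolynomial.constantCoeff (p * MvPolynomial.X k) = 0 := by
        rw [map_mul, MvPolynomial.constantCoeff_X, mul_zero]
      rw [h1, zero_smul, sub_zero, map_mul, fX]
      have h2 : d (f p * z) = 0 := by rw [hdf, hz, mul_zero]
      have h3 : f p * e k * z = e k * (f p * z) := by rw [fc, mul_assoc]
      rw [h3, hg k _ h2]
      exact ⟨_, rfl⟩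
  have hW : ∀ a ∈ Submodule.span (MvPolynomial K ℚ) (Z : Set A),
      a ∈ Submodule.span ℚ (Z : Set A) ⊔ LinearMap.range d := by
    intro a ha
    induction ha using Submodule.span_induction with
    | mem x hx => exact Submodule.mem_sup_left (Submodule.subset_span hx)
    | zero => exact zero_mem _
    | add x y _ _ hx hy => exact add_mem hx hy
    | smul r x hx ih =>
      have h1 := Submodule.mem_sup_right (S := Submodule.span ℚ (Z : Set A)) (key r x (hZk x hx))
      have h2 := Submodule.smul_mem _ (MvPolynomial.constantCoeff r) ih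
      have h3 := add_mem h1 h2
      rw [sub_add_cancel] at h3
      rw [hs]
      exact h3
  have hle : Submodule.span ℚ (Z : Set A) ≤ LinearMap.ker d := by
    rw [Submodule.span_le]
    intro z hz
    exact hZk z (Submodule.subset_span hz)
  have : Module.Finite ℚ (Submodule.span ℚ (Z : Set A)) :=
    FiniteDimensional.span_finset ℚ Z
  refine Module.Finite.of_surjective
    (((LinearMap.range d).comap (LinearMap.ker d).subtype).mkQ.comp (Submodule.inclusion hle)) ?_
  intro q
  obtain ⟨x, rfl⟩ := Submodule.mkQ_surjective _ q
  have hx : x.1 ∈ Submodule.span (MvPolynomial K ℚ) (Z : Set A) := by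
    rw [hZ]
    exact x.2
  obtain ⟨w, hw, y, hy, hwy⟩ := Submodule.mem_sup.1 (hW x.1 hx)
  refine ⟨⟨w, hw⟩, ?_⟩
  rw [LinearMap.comp_apply, ← sub_eq_zero, ← map_sub, ← LinearMap.mem_ker, Submodule.ker_mkQ,
    Submodule.mem_comap]
  have h1 : (LinearMap.ker d).subtype (Submodule.inclusion hle ⟨w, hw⟩ - x) = -y := by
    rw [map_sub]
    change w - x.1 = -y
    rw [← hwy]
    abel
  rw [h1]
  exact neg_mem hy

private theorem pr_mul_hom {ι : Type} {deg : ι → ℕ} {n : ℕ} {e : Lam deg} (he : e ∈ hom deg n)
    (m : ℕ) (c : Lam deg) :
    pr deg m (e * c) = if n ≤ m then e * pr deg (m - n) c else 0 := by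
  induction c using Lam.induction with
  | hm l =>
    rw [pr_hom deg (mul_mem_hom deg he (mon_mem_hom deg l)), pr_hom deg (mon_mem_hom deg l)]
    by_cases h : n ≤ m
    · rw [if_pos h]
      by_cases h2 : degSum deg l = m - n
      · rw [if_pos h2, if_pos (by omega)]
      · rw [if_neg h2, if_neg (by omega), mul_zero]
    · rw [if_neg h, if_neg (by omega)]
  | h0 => simp
  | hadd a b ha hb =>
    rw [mul_add, map_add, ha, hb, map_add]
    split_ifs
    · rw [mul_add]
    · rw [add_zero]
  | hsmul r a ha =>
    rw [mul_smul_comm, map_smul, ha, map_smul]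
    split_ifs
    · rw [mul_smul_comm]
    · rw [smul_zero]

theorem coh_finite {ι : Type} [Finite ι] {deg : ι → ℕ} (S : MinimalSullivan deg)
    (h : ∀ i, Even (deg i) → ∃ M, gen deg i ^ M ∈ JJ deg S.d) : S.CohomologyFinite := by
  obtain ⟨G, hG, hGh, hGa⟩ := k_red S h
  unfold MinimalSullivan.CohomologyFinite
  have hse : ∀ k : {k : ι // Odd (deg k)}, sgn deg (S.d (gen deg k.1)) = S.d (gen deg k.1) := by
    intro k
    rw [sgn_d S.isDifferential, sgn_gen_odd k.2, map_neg, neg_neg]
  have hcl : ∀ a, S.d (S.d a) = 0 := S.isDifferential.d_d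
  refine fin_of_central S.d (K := {k : ι // Odd (deg k)}) (fun k => S.d (gen deg k.1))
    (fun k => gen deg k.1) (fun k a => even_comm (hse k) a) (fun k a => ?_) (fun k z hz => ?_)
    G hG ?_
  · rw [d_mul S.isDifferential, hcl, zero_mul, zero_add, hse]
  · rw [d_mul S.isDifferential, hz, mul_zero, add_zero]
  · intro V hGV hV
    have key : ∀ m : ℕ, ∀ a ∈ hom deg m, a ∈ V := by
      intro m
      induction m using Nat.strong_induction_on with
      | _ m ih =>
        intro a ha
        obtain ⟨x, hx, y, hy, hxy⟩ := Submodule.mem_sup.1 (hGa a)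
        have h1 : a = pr deg m x + pr deg m y := by
          rw [← map_add, hxy, pr_hom deg ha, if_pos rfl]
        rw [h1]
        refine add_mem ?_ ?_
        · clear hxy h1
          induction hx using Submodule.span_induction with
          | mem g hg =>
            obtain ⟨n, hn⟩ := hGh g hg
            rw [pr_hom deg hn]
            split_ifs
            · exact hGV hg
            · exact zero_mem _
          | zero => rw [map_zero]; exact zero_mem _
          | add u v _ _ hu hv => rw [map_add]; exact add_mem hu hv
          | smul r u _ hu => rw [map_smul]; exact Submodule.smul_mem _ _ hu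
        · clear hxy h1
          induction hy using Submodule.span_induction with
          | mem b hb =>
            obtain ⟨k, c, hk, rfl⟩ := hb
            rw [pr_mul_hom (S.isDifferential.map_hom _ _ (gen_mem_hom deg k))]
            split_ifs with hkm
            · exact hV ⟨k, hk⟩ _ (ih (m - (deg k + 1)) (by omega) _ (pr_mem deg _ _))
            · exact zero_mem _
          | zero => rw [map_zero]; exact zero_mem _
          | add u v _ _ hu hv => rw [map_add]; exact add_mem hu hv
          | smul r u _ hu => rw [map_smul]; exact Submodule.smul_mem _ _ hu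
    rw [eq_top_iff]
    intro a _
    obtain ⟨N, hN⟩ := sum_pr deg a
    rw [hN N le_rfl]
    exact Submodule.sum_mem _ fun n _ => key n _ (pr_mem deg n a)

end Anick2
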