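import Pool.Agent.Helper2.AN.MapL

/-!
AN-09 (project AN, MP_5f0082_gt). The universal tower of odd generators of weight `n` which kills all even cocycles of
weight at least `n + 1`.

This is a generalization of `Pool/Agent/Helper2/GCA/Tower.lean` (and of the beginning of `GCA/Main.lean`) from a special base to an arbitrary
finite base: copy these files and change them (`exists_rec` can be copied; do not import `GCA/Tower.lean`).

Proof. Ambient generators `ι ⊕ (ℕ × ℕ)`, degrees `tdeg = Sum.elim deg (fun k => 2 * k.1 + n)`, weights `twt = Sum.elim 1 n`. For `F : ℕ → ℕ → Lam tdeg`: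
`DF F (inl i) = inclSum (S.d (gen i))` (here `inclSum deg (fun k => 2 * k.1 + n)`), `DF F (inr (m, j)) = pr (2m + n + 1) (F m j)`; `dF F = der tdeg (DF F) _`.
`act r = {i | ∀ m j, i = inr (m, j) → j < r m}`. States `X = ℕ × (ℕ → Lam tdeg)`; `tr m g`, `RR`, `FF` as in `GCA/Tower.lean`.
`Zm m g = homS tdeg (act (RR (tr m g))) (2m + n + 1) ⊓ FW tdeg twt (n + 1) ⊓ ker (dF (FF (tr m g)))`, finitely generated (`homS_fg`: the active set is finite
as `ι` is finite and `r k = 0` for `k ≥ m`). `PT m g x`: all `x.2 j ∈ Zm m g`, `x.2 j = 0` for `x.1 ≤ j`, `Zm m g ≤ span (range x.2)`.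
Course-of-values recursion gives `f` with `PT m f (f m)` for all `m`; `f m` is the list of the values of `d` on `inr (m, j)`, `j < (f m).1`.
* `dF (FF f) (DF i) = 0` for all `i` (for `inl i`: `dF (inclSum a) = inclSum (S.d a)` by induction on monomials, `d_mul`; for `inr (m, j)`: it is in `Zm`,
  and `dF (FF f) = dF (FF (tr m f))` on `homS (act (RR (tr m f)))` by `der_congr`), so `dF ∘ dF = 0` (`der_sq`).
* Restrict to `κ = {k : ℕ × ℕ // k.2 < (f k.1).1}`, `deg' k = 2 * k.1.1 + n`, along `Sum.map id Subtype.val` (injective, `restrict_dat`; but `restrict_dat`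
  needs `Dat` for the ambient algebra: `two_le` (`n ≥ 3`), `one_le`, `IsDifferential` (`der_mem`, `der_leibniz`, square zero), `raise` (for `inl i`:
  `dat_of_minimal S`, `mapL_FW`, `inclSum_eq`; for `inr (m, j)`: `F m j ∈ FW (n + 1)`, `pr_mem_FW`), `SullivanCondition`: for `inl i` from `S.sullivan`; for
  `inr (m, j)`: the element `(f m).2 j` is in `homS (act _) (2m + n + 1) ⊓ FW (n + 1)`, so a combination of monomials of degree `2m + n + 1` and
  weight `≥ n + 1` in active generators. NOTE: to have both properties for the same monomials define `Zm` with the submodule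
  `span {mon l | (∀ i ∈ l, i ∈ act _) ∧ degSum tdeg l = 2m + n + 1 ∧ n + 1 ≤ degSum twt l}` instead of the intersection of the first two. Such a monomial
  has length at least 2 (a single generator has weight `1 < n + 1` or `n < n + 1`; the empty one weight 0), so each of its generators has
  degree `≤ 2m + n + 1 - 2 < 2m + n`).
* The image of `d` of an active generator is in the image of `mapL` of the restriction: `(f m).2 j` involves only generators of `act (RR (tr m f))`.
* `Kills`. Let `c` be even, `c ∈ FW (n + 1)`, `d c = 0`. `c = ∑ pr m c` (`sum_pr`). Each `pr e c` is closed (`d` has degree 1: `pr (e+1) (d c) = d (pr e c)`,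
  as in `sd_pr`), in `FW (n + 1)`, and `0` if `e` is odd (`pr_even`) or `e < n + 1` (`FW_low`, weights `≤` degrees). So `e = 2m + n + 1`, since `n` is odd.
  A monomial of degree `2m + n + 1` and weight `≥ n + 1` in active generators of the final algebra only involves `inr (m', j')` with `m' < m` (its length is `≥ 2` and
  the other generators have degree `≥ 2`), so after `mapL` the element `pr e c` is in the stage `act (RR (tr m f))` (to get the monomials with both properties
  use that a combination of monomials of weight `≥ n + 1` which is homogeneous of degree `e` is the combination of those of degree `e`: apply `pr e`) and is in `Zm m f`;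
  so it is a combination of the `(f m).2 j = d (gen (inr (m, j)))`, `j < (f m).1`: `pr e c = d u`, `u` a combination of generators `inr (m, j)`: odd, in `FW n`.
* Finite type: `{k : κ | 2 * k.1.1 + n = N}` is contained in `{k | k.1.1 = m, k.1.2 < (f m).1}`.
-/

set_option autoImplicit false

namespace Anick2

attribute [local irreducible] instRingLam

section rec
variable {X : Type}

/-- Course-of-values recursion. -/
private noncomputable def recT (e : X) (c : ℕ → (ℕ → X) → X) : ℕ → X
  | n => c n (fun k => if _h : k < n then recT e c k else e)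

private theorem recT_eq (e : X) (c : ℕ → (ℕ → X) → X) (n : ℕ) :
    recT e c n = c n (fun k => if k < n then recT e c k else e) := by
  rw [recT]
  congr 1

private theorem exists_recT (e : X) (P : ℕ → (ℕ → X) → X → Prop) (h : ∀ n g, ∃ x, P n g x) :
    ∃ f : ℕ → X, ∀ n, P n (fun k => if k < n then f k else e) (f n) := by
  choose c hc using h
  refine ⟨recT e c, fun n => ?_⟩
  have := hc n (fun k => if k < n then recT e c k else e)
  rw [recT_eq e c n]
  exact this

end rec

private theorem d_prT {ι : Type} {deg : ι → ℕ} {d : Lam deg →ₗ[ℚ] Lam deg}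
    (hd : IsDifferential (hom deg) d) (e : ℕ) (a : Lam deg) :
    d (pr deg e a) = pr deg (e + 1) (d a) := by
  induction a using Lam.induction with
  | hm l =>
    rw [pr_hom deg (mon_mem_hom deg l), pr_hom deg (hd.map_hom _ _ (mon_mem_hom deg l))]
    by_cases h : degSum deg l = e <;> simp [h]
  | h0 => rw [map_zero, map_zero, map_zero]
  | hadd a b ha hb => rw [map_add, map_add, ha, hb, map_add, map_add]
  | hsmul r a ha => rw [map_smul, map_smul, ha, map_smul, map_smul]

private abbrev td {ι : Type} (deg : ι → ℕ) (n : ℕ) : ι ⊕ (ℕ × ℕ) → ℕ :=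
  Sum.elim deg (fun k => 2 * k.1 + n)

private abbrev tw {ι : Type} (n : ℕ) : ι ⊕ (ℕ × ℕ) → ℕ :=
  Sum.elim (fun _ => 1) (fun _ => n)

/-- The span of the monomials in `T`, of degree `N` and weight at least `w`. -/
private noncomputable def WW {ι : Type} (deg wt : ι → ℕ) (T : Set ι) (N w : ℕ) :
    Submodule ℚ (Lam deg) :=
  Submodule.span ℚ {a | ∃ l : List ι, (∀ i ∈ l, i ∈ T) ∧ degSum deg l = N ∧ w ≤ degSum wt l ∧
    a = mon deg l}

private theorem WW_le_homS {ι : Type} {deg wt : ι → ℕ} (T : Set ι) (N w : ℕ) :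
    WW deg wt T N w ≤ homS deg T N := by
  unfold WW homS
  apply Submodule.span_mono
  rintro _ ⟨l, h1, h2, _, rfl⟩
  exact ⟨l, h1, h2, rfl⟩

private theorem WW_le_FW {ι : Type} {deg wt : ι → ℕ} (T : Set ι) (N w : ℕ) :
    WW deg wt T N w ≤ FW deg wt w := by
  unfold WW FW
  apply Submodule.span_mono
  rintro _ ⟨l, _, _, h3, rfl⟩
  exact ⟨l, h3, rfl⟩

private theorem WW_ind {ι : Type} {deg wt : ι → ℕ} {T : Set ι} {N w : ℕ} {C : Lam deg → Prop}
    (hm : ∀ l, (∀ i ∈ l, i ∈ T) → degSum deg l = N → w ≤ degSum wt l → C (mon deg l)) (h0 : C 0)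
    (hadd : ∀ a b, C a → C b → C (a + b)) (hsmul : ∀ (r : ℚ) a, C a → C (r • a))
    {a : Lam deg} (ha : a ∈ WW deg wt T N w) : C a := by
  unfold WW at ha
  induction ha using Submodule.span_induction with
  | mem x hx => obtain ⟨l, h1, h2, h3, rfl⟩ := hx; exact hm l h1 h2 h3
  | zero => exact h0
  | add y z _ _ hy hz => exact hadd _ _ hy hz
  | smul r y _ hy => exact hsmul _ _ hy

section tower
variable {ι : Type} {deg : ι → ℕ} (S : MinimalSullivan deg) (n : ℕ)

private abbrev LT (deg : ι → ℕ) (n : ℕ) : Type := Lam (td deg n)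

/-- The differential on the generators. -/
private noncomputable def DT (F : ℕ → ℕ → LT deg n) : ι ⊕ (ℕ × ℕ) → LT deg n
  | .inl i => inclSum deg (fun k : ℕ × ℕ => 2 * k.1 + n) (S.d (gen deg i))
  | .inr k => pr (td deg n) (2 * k.1 + n + 1) (F k.1 k.2)

private theorem hDT (F : ℕ → ℕ → LT deg n) (i : ι ⊕ (ℕ × ℕ)) :
    DT S n F i ∈ hom (td deg n) (td deg n i + 1) := by
  cases i with
  | inl i =>
    change inclSum deg (fun k : ℕ × ℕ => 2 * k.1 + n) (S.d (gen deg i)) ∈ _
    rw [inclSum_eq]
    exact mapL_hom _ (S.isDifferential.map_hom _ _ (gen_mem_hom deg i))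
  | inr k => exact pr_mem _ _ _

private noncomputable def dT (F : ℕ → ℕ → LT deg n) : LT deg n →ₗ[ℚ] LT deg n :=
  der (td deg n) (DT S n F) (hDT S n F)

private theorem dT_gen (F : ℕ → ℕ → LT deg n) (i : ι ⊕ (ℕ × ℕ)) :
    dT S n F (gen (td deg n) i) = DT S n F i := der_gen _ _ _ _

private theorem dT_incl (F : ℕ → ℕ → LT deg n) (a : Lam deg) :
    dT S n F (inclSum deg (fun k : ℕ × ℕ => 2 * k.1 + n) a) =
      inclSum deg (fun k : ℕ × ℕ => 2 * k.1 + n) (S.d a) := by
  have : (dT S n F).comp (inclSum deg (fun k : ℕ × ℕ => 2 * k.1 + n)).toLinearMap =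
      (inclSum deg (fun k : ℕ × ℕ => 2 * k.1 + n)).toLinearMap.comp S.d := by
    refine Lam.linearMap_ext _ fun l => ?_
    rw [LinearMap.comp_apply, LinearMap.comp_apply, AlgHom.toLinearMap_apply,
      AlgHom.toLinearMap_apply]
    induction l with
    | nil =>
      have h1 : dT S n F 1 = 0 := der_one _ _ _
      rw [mon_nil, map_one, h1, d_one S.isDifferential, map_zero]
    | cons i l ih =>
      have h0 : inclSum deg (fun k : ℕ × ℕ => 2 * k.1 + n) (gen deg i) =
          gen (td deg n) (Sum.inl i) := by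
        unfold inclSum
        exact Lam.lift_gen deg _ _ i
      have h1 : ∀ b, dT S n F (gen (td deg n) (Sum.inl i) * b) =
          dT S n F (gen (td deg n) (Sum.inl i)) * b +
            sgn (td deg n) (gen (td deg n) (Sum.inl i)) * dT S n F b :=
        fun b => der_mul _ _ _ _ _
      have h2 : inclSum deg (fun k : ℕ × ℕ => 2 * k.1 + n) (sgn deg (gen deg i)) =
          sgn (td deg n) (gen (td deg n) (Sum.inl i)) := by
        rw [sgn_gen, map_smul, h0, sgn_gen]
        rfl
      rw [mon_cons, map_mul, h0, h1, dT_gen, ih, d_mul S.isDifferential, map_add, map_mul,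
        map_mul, h2]
      rfl
  exact congrArg (fun g : Lam deg →ₗ[ℚ] LT deg n => g a) this

/-- The active generators. -/
private def actT (r : ℕ → ℕ) : Set (ι ⊕ (ℕ × ℕ)) := {i | ∀ m j, i = .inr (m, j) → j < r m}

private theorem actT_finite [Finite ι] (r : ℕ → ℕ) (n : ℕ) (h : ∀ k, n ≤ k → r k = 0) :
    (actT (ι := ι) r).Finite := by
  have hfin : (Set.range (Sum.inl : ι → ι ⊕ (ℕ × ℕ)) ∪
      ⋃ k ∈ Finset.range n, (fun j => (Sum.inr (k, j) : ι ⊕ (ℕ × ℕ))) '' Set.Iio (r k)).Finite := by
    refine Set.Finite.union (Set.finite_range _) ?_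
    exact Set.Finite.biUnion (Finset.finite_toSet _) fun k _ => (Set.finite_Iio _).image _
  refine hfin.subset ?_
  intro i hi
  rcases i with i | ⟨m, j⟩
  · exact Or.inl ⟨i, rfl⟩
  · refine Or.inr ?_
    have hj : j < r m := hi m j rfl
    have hm : m < n := by
      by_contra hcon
      rw [h m (not_lt.mp hcon)] at hj
      exact absurd hj (Nat.not_lt_zero _)
    simp only [Finset.mem_range, Set.mem_iUnion]
    exact ⟨m, hm, j, hj, rfl⟩

private abbrev XT (deg : ι → ℕ) (n : ℕ) : Type := ℕ × (ℕ → LT deg n)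

private noncomputable def trT (m : ℕ) (g : ℕ → XT deg n) : ℕ → XT deg n :=
  fun k => if k < m then g k else (0, fun _ => 0)

private noncomputable def RT (g : ℕ → XT deg n) : ℕ → ℕ := fun k => (g k).1
private noncomputable def FT (g : ℕ → XT deg n) : ℕ → ℕ → LT deg n := fun k => (g k).2

private noncomputable def ZT (m : ℕ) (g : ℕ → XT deg n) : Submodule ℚ (LT deg n) :=
  WW (td deg n) (tw n) (actT (RT n (trT n m g))) (2 * m + n + 1) (n + 1) ⊓
    LinearMap.ker (dT S n (FT n (trT n m g)))

private def PTT (m : ℕ) (g : ℕ → XT deg n) (x : XT deg n) : Prop :=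
  (∀ j, x.2 j ∈ ZT S n m g) ∧ (∀ j, x.1 ≤ j → x.2 j = 0) ∧
    ZT S n m g ≤ Submodule.span ℚ (Set.range x.2)

include S in
private theorem td_two (hn3 : 3 ≤ n) (i : ι ⊕ (ℕ × ℕ)) : 2 ≤ td deg n i := by
  cases i with
  | inl i => exact S.two_le i
  | inr k => change 2 ≤ 2 * k.1 + n; omega

private theorem exists_PTT [Finite ι] (hn3 : 3 ≤ n) (m : ℕ) (g : ℕ → XT deg n) :
    ∃ x, PTT S n m g x := by
  have hfin : (actT (ι := ι) (RT n (trT n m g))).Finite := actT_finite _ m (by
    intro k hk; simp [RT, trT, not_lt.mpr hk])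
  have hfg : (ZT S n m g).FG :=
    (homS_fg (td deg n) hfin (fun i => by have := td_two S n hn3 i; omega)
      (2 * m + n + 1)).of_le (le_trans inf_le_left (WW_le_homS _ _ _))
  rw [Submodule.fg_iff_exists_fin_generating_family] at hfg
  obtain ⟨N, s, hs⟩ := hfg
  refine ⟨(N, fun j => if h : j < N then s ⟨j, h⟩ else 0), ?_, ?_, ?_⟩
  · intro j
    by_cases h : j < N
    · simp only [h, dif_pos]
      rw [← hs]
      exact Submodule.subset_span ⟨_, rfl⟩
    · simp only [h, dif_neg, not_false_iff]
      exact zero_mem _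
  · intro j hj
    simp [not_lt.mpr hj]
  · conv_lhs => rw [← hs]
    rw [Submodule.span_le]
    rintro _ ⟨j, rfl⟩
    refine Submodule.subset_span ⟨j, ?_⟩
    simp

private theorem trT_trT (m : ℕ) (g : ℕ → XT deg n) : trT n m (trT n m g) = trT n m g := by
  funext k
  by_cases h : k < m <;> simp [trT, h]

private theorem exists_towerT [Finite ι] (hn3 : 3 ≤ n) :
    ∃ f : ℕ → XT deg n, ∀ m, PTT S n m f (f m) := by
  obtain ⟨f, hf⟩ := exists_recT (0, fun _ => 0) (PTT S n) (exists_PTT S n hn3)
  refine ⟨f, fun m => ?_⟩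
  have h := hf m
  have e : (fun k => if k < m then f k else (0, fun _ => 0)) = trT n m f := rfl
  rw [e] at h
  unfold PTT ZT at h
  rw [trT_trT] at h
  exact h

variable (f : ℕ → XT deg n) (hf : ∀ m, PTT S n m f (f m))

include hf in
private theorem f_memT (m j : ℕ) : (f m).2 j ∈
    WW (td deg n) (tw n) (actT (RT n (trT n m f))) (2 * m + n + 1) (n + 1) :=
  ((hf m).1 j).1

include hf in
private theorem DT_w (m j : ℕ) : DT S n (FT n f) (.inr (m, j)) = (f m).2 j := by
  change pr (td deg n) (2 * m + n + 1) ((f m).2 j) = _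
  rw [pr_hom (td deg n) (homS_le _ _ _ (WW_le_homS _ _ _ (f_memT S n f hf m j))), if_pos rfl]

private theorem dT_stage (m N w : ℕ) {a : LT deg n}
    (ha : a ∈ WW (td deg n) (tw n) (actT (RT n (trT n m f))) N w) :
    dT S n (FT n f) a = dT S n (FT n (trT n m f)) a := by
  refine der_congr (td deg n) _ _ _ _ ?_ (WW_le_homS _ _ _ ha)
  intro i hi
  rcases i with i | ⟨m', j⟩
  · rfl
  · have hj : j < RT n (trT n m f) m' := hi m' j rfl
    have hm : m' < m := by
      by_contra hcon
      simp [RT, trT, hcon] at hj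
    simp [DT, FT, trT, hm]

include hf in
private theorem dT_f (m j : ℕ) : dT S n (FT n f) ((f m).2 j) = 0 := by
  rw [dT_stage S n f m _ _ (f_memT S n f hf m j)]
  exact ((hf m).1 j).2

include hf in
private theorem dT_sq (a : LT deg n) : dT S n (FT n f) (dT S n (FT n f) a) = 0 := by
  refine der_sq (td deg n) _ _ ?_ a
  intro i
  change dT S n (FT n f) (DT S n (FT n f) i) = 0
  rcases i with i | ⟨m, j⟩
  · change dT S n (FT n f) (inclSum deg (fun k : ℕ × ℕ => 2 * k.1 + n) (S.d (gen deg i))) = 0
    rw [dT_incl, S.isDifferential.d_d, map_zero]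
  · rw [DT_w S n f hf]; exact dT_f S n f hf m j

private theorem actT_mono (m : ℕ) : actT (ι := ι) (RT n (trT n m f)) ⊆ actT (RT n f) := by
  intro i hi m' j h
  have := hi m' j h
  by_cases hm : m' < m
  · simpa [RT, trT, hm] using this
  · simp [RT, trT, hm] at this

include S in
private theorem splitT (hn3 : 3 ≤ n) {i : ι ⊕ (ℕ × ℕ)} {l : List (ι ⊕ (ℕ × ℕ))} (h : i ∈ l)
    (hw : n + 1 ≤ degSum (tw n) l) : td deg n i + 2 ≤ degSum (td deg n) l := by
  obtain ⟨s, t, rfl⟩ := List.append_of_mem h
  have h1 : degSum (td deg n) (s ++ i :: t) = td deg n i + degSum (td deg n) (s ++ t) := by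
    rw [degSum_append, degSum_cons, degSum_append]; ring
  have h2 : degSum (tw n) (s ++ i :: t) = tw n i + degSum (tw n) (s ++ t) := by
    rw [degSum_append, degSum_cons, degSum_append]; ring
  cases hst : s ++ t with
  | nil =>
    exfalso
    rw [hst, degSum_nil, add_zero] at h2
    rw [h2] at hw
    cases i with
    | inl i => change n + 1 ≤ 1 at hw; omega
    | inr k => change n + 1 ≤ n at hw; omega
  | cons a u =>
    rw [h1, hst, degSum_cons]
    have := td_two S n hn3 a
    omega

include S in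
private theorem stageT (hn3 : 3 ≤ n) (m : ℕ) {z : LT deg n}
    (hz : z ∈ WW (td deg n) (tw n) (actT (RT n f)) (2 * m + n + 1) (n + 1)) :
    z ∈ WW (td deg n) (tw n) (actT (RT n (trT n m f))) (2 * m + n + 1) (n + 1) := by
  refine WW_ind (C := fun z => z ∈
    WW (td deg n) (tw n) (actT (RT n (trT n m f))) (2 * m + n + 1) (n + 1))
    (fun l hl hn hw => ?_) (zero_mem _) (fun a b ha hb => add_mem ha hb)
    (fun r a ha => Submodule.smul_mem _ _ ha) hz
  refine Submodule.subset_span ⟨l, fun i hi => ?_, hn, hw, rfl⟩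
  intro m' j h
  subst h
  have hj := hl _ hi m' j rfl
  have h1 := splitT S n hn3 hi hw
  have hm : m' < m := by
    rw [hn] at h1
    change 2 * m' + n + 2 ≤ _ at h1
    omega
  simpa [RT, trT, hm] using hj

include hf in
private theorem datT (hn3 : 3 ≤ n) : Dat (td deg n) (tw n) (dT S n (FT n f)) := by
  refine ⟨td_two S n hn3, ?_, ⟨?_, ?_, ?_⟩, ?_, ?_⟩
  · intro i
    cases i with
    | inl i => exact le_rfl
    | inr k => change 1 ≤ n; omega
  · intro N a ha
    exact der_mem _ _ _ ha
  · intro N a ha b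
    exact der_leibniz _ _ _ ha b
  · exact dT_sq S n f hf
  · intro i
    rw [dT_gen]
    rcases i with i | ⟨m, j⟩
    · change inclSum deg (fun k : ℕ × ℕ => 2 * k.1 + n) (S.d (gen deg i)) ∈ _
      have h1 := S.sullivan i
      have h2 : inclSum deg (fun k : ℕ × ℕ => 2 * k.1 + n) (S.d (gen deg i)) ∈
          (Algebra.adjoin ℚ (gen deg '' {j | deg j < deg i})).map
            (inclSum deg (fun k : ℕ × ℕ => 2 * k.1 + n)) := ⟨_, h1, rfl⟩
      rw [AlgHom.map_adjoin] at h2
      refine Algebra.adjoin_mono ?_ h2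
      rintro _ ⟨_, ⟨j, hj, rfl⟩, rfl⟩
      refine ⟨Sum.inl j, hj, ?_⟩
      symm
      unfold inclSum
      exact Lam.lift_gen deg _ _ j
    · rw [DT_w S n f hf]
      refine WW_ind (C := fun z => z ∈ Algebra.adjoin ℚ
        (gen (td deg n) '' {j' | td deg n j' < td deg n (Sum.inr (m, j))}))
        (fun l hl hn hw => ?_) (zero_mem _) (fun a b ha hb => add_mem ha hb)
        (fun r a ha => Subalgebra.smul_mem _ ha r) (f_memT S n f hf m j)
      have hlt : ∀ i ∈ l, td deg n i < td deg n (Sum.inr (m, j)) := by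
        intro i hi
        have h1 := splitT S n hn3 hi hw
        rw [hn] at h1
        change td deg n i < 2 * m + n
        omega
      clear hl hn hw
      induction l with
      | nil => rw [mon_nil]; exact one_mem _
      | cons i l ih =>
        rw [mon_cons]
        exact mul_mem (Algebra.subset_adjoin ⟨i, hlt i List.mem_cons_self, rfl⟩)
          (ih fun i' hi' => hlt i' (List.mem_cons_of_mem _ hi'))
  · intro i
    rw [dT_gen]
    rcases i with i | ⟨m, j⟩
    · change inclSum deg (fun k : ℕ × ℕ => 2 * k.1 + n) (S.d (gen deg i)) ∈ _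
      rw [inclSum_eq]
      exact mapL_FW (deg := td deg n) (deg' := deg) (f := Sum.inl) (wt := tw n) (fun _ => rfl)
        ((dat_of_minimal S).raise i)
    · rw [DT_w S n f hf]
      exact WW_le_FW _ _ _ (f_memT S n f hf m j)

end tower

private theorem mem_range_of_WW {ι' ι : Type} {deg' : ι' → ℕ} {deg wt : ι → ℕ} {φ : ι' → ι}
    (hφ : ∀ i, deg (φ i) = deg' i) {T : Set ι} (hT : ∀ i ∈ T, i ∈ Set.range φ) {N w : ℕ}
    {a : Lam deg} (ha : a ∈ WW deg wt T N w) : ∃ b, mapL φ hφ b = a := by
  refine WW_ind (C := fun a => ∃ b, mapL φ hφ b = a) (fun l hl h1 h2 => ?_) ⟨0, map_zero _⟩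
    ?_ ?_ ha
  · have : ∃ l' : List ι', l'.map φ = l := by
      clear h1 h2
      induction l with
      | nil => exact ⟨[], rfl⟩
      | cons i l ih =>
        obtain ⟨l', hl'⟩ := ih (fun j hj => hl j (List.mem_cons_of_mem _ hj))
        obtain ⟨i', hi'⟩ := hT i (hl i List.mem_cons_self)
        exact ⟨i' :: l', by rw [List.map_cons, hl', hi']⟩
    obtain ⟨l', rfl⟩ := this
    exact ⟨mon deg' l', mapL_mon hφ l'⟩
  · rintro a b ⟨x, rfl⟩ ⟨y, rfl⟩
    exact ⟨x + y, map_add _ _ _⟩
  · rintro r a ⟨x, rfl⟩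
    exact ⟨r • x, map_smul _ _ _⟩

private theorem pr_mem_WW {ι' ι : Type} {deg' : ι' → ℕ} {deg wt : ι → ℕ} {φ : ι' → ι}
    (hφ : ∀ i, deg (φ i) = deg' i) {T : Set ι} (hT : ∀ i, φ i ∈ T) {w : ℕ}
    {a : Lam deg'} (ha : a ∈ FW deg' (fun i => wt (φ i)) w) (e : ℕ) :
    mapL φ hφ (pr deg' e a) ∈ WW deg wt T e w := by
  unfold FW at ha
  induction ha using Submodule.span_induction with
  | mem x hx =>
    obtain ⟨l, hl, rfl⟩ := hx
    rw [pr_hom deg' (mon_mem_hom deg' l)]
    split
    · rename_i h
      rw [mapL_mon]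
      refine Submodule.subset_span ⟨l.map φ, ?_, ?_, ?_, rfl⟩
      · intro i hi
        obtain ⟨i', _, rfl⟩ := List.mem_map.mp hi
        exact hT i'
      · rw [mapL_degSum hφ, h]
      · rw [mapL_wtSum]; exact hl
    · rw [map_zero]; exact zero_mem _
  | zero => rw [map_zero, map_zero]; exact zero_mem _
  | add y z _ _ hy hz => rw [map_add, map_add]; exact add_mem hy hz
  | smul r y _ hy => rw [map_smul, map_smul]; exact Submodule.smul_mem _ _ hy

theorem exists_odd_tower {ι : Type} [Finite ι] {deg : ι → ℕ} (S : MinimalSullivan deg) {n : ℕ}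
    (hn : Odd n) (hn3 : 3 ≤ n) :
    ∃ (κ : Type) (deg' : κ → ℕ) (d : Lam (Sum.elim deg deg') →ₗ[ℚ] Lam (Sum.elim deg deg')),
      (∀ k, Odd (deg' k) ∧ n ≤ deg' k) ∧ (∀ N, {k | deg' k = N}.Finite) ∧
      Dat (Sum.elim deg deg') (Sum.elim (fun _ => 1) (fun _ => n)) d ∧
      Kills (Sum.elim deg deg') (Sum.elim (fun _ => 1) (fun _ => n)) n d ∧
      ∀ a, d (inclSum deg deg' a) = inclSum deg deg' (S.d a) := by
  obtain ⟨f, hf⟩ := exists_towerT S n hn3
  have hdat := datT S n f hf hn3
  -- the active generators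
  let κ : Type := {k : ℕ × ℕ // k.2 < (f k.1).1}
  let deg' : κ → ℕ := fun k => 2 * k.1.1 + n
  let φ : ι ⊕ κ → ι ⊕ (ℕ × ℕ) := Sum.map id Subtype.val
  have hφ : ∀ i, td deg n (φ i) = Sum.elim deg deg' i := by
    intro i; cases i <;> rfl
  have hinj : Function.Injective φ :=
    Function.Injective.sumMap Function.injective_id Subtype.val_injective
  have hwt : (fun i => tw (ι := ι) n (φ i)) = Sum.elim (fun _ => 1) (fun _ => n) := by
    funext i; cases i <;> rfl
  have hrange : ∀ i ∈ actT (ι := ι) (RT n f), i ∈ Set.range φ := by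
    intro i hi
    rcases i with i | ⟨m, j⟩
    · exact ⟨Sum.inl i, rfl⟩
    · exact ⟨Sum.inr ⟨(m, j), hi m j rfl⟩, rfl⟩
  have hact : ∀ i, φ i ∈ actT (ι := ι) (RT n f) := by
    intro i m j h
    rcases i with i | ⟨⟨m', j'⟩, hk⟩
    · cases h
    · cases h
      exact hk
  have hincl : ∀ a : Lam deg, mapL φ hφ (inclSum deg deg' a) =
      inclSum deg (fun k : ℕ × ℕ => 2 * k.1 + n) a := by
    have : (mapL φ hφ).comp (inclSum deg deg') = inclSum deg (fun k : ℕ × ℕ => 2 * k.1 + n) := by
      refine Lam.algHom_ext _ fun i => ?_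
      have h1 : inclSum deg deg' (gen deg i) = gen (Sum.elim deg deg') (Sum.inl i) := by
        unfold inclSum
        exact Lam.lift_gen deg _ _ i
      have h2 : inclSum deg (fun k : ℕ × ℕ => 2 * k.1 + n) (gen deg i) =
          gen (td deg n) (Sum.inl i) := by
        unfold inclSum
        exact Lam.lift_gen deg _ _ i
      rw [AlgHom.comp_apply, h1, h2, mapL_gen]
      rfl
    exact fun a => congrArg (fun g : Lam deg →ₐ[ℚ] LT deg n => g a) this
  have hD : ∀ i, dT S n (FT n f) (gen (td deg n) i) = DT S n (FT n f) i := dT_gen S n _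
  obtain ⟨d', hd', hcomm⟩ := restrict_dat hφ hinj hdat (by
    intro i
    rw [hD]
    rcases i with i | ⟨⟨m, j⟩, hk⟩
    · exact ⟨inclSum deg deg' (S.d (gen deg i)), hincl _⟩
    · have h1 : φ (Sum.inr ⟨(m, j), hk⟩) = Sum.inr (m, j) := rfl
      rw [h1, DT_w S n f hf]
      exact mem_range_of_WW hφ (fun i hi => hrange i (actT_mono n f m hi)) (f_memT S n f hf m j))
  have hinj' := mapL_injective hφ hinj
  rw [hwt] at hd'
  refine ⟨κ, deg', d', ?_, ?_, hd', ?_, ?_⟩
  · intro k
    refine ⟨?_, ?_⟩
    · exact Even.add_odd (even_two_mul _) hn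
    · change n ≤ 2 * k.1.1 + n; omega
  · intro N
    have hfin : ((fun j => ((N - n) / 2, j)) '' Set.Iio ((f ((N - n) / 2)).1)).Finite :=
      (Set.finite_Iio _).image _
    refine Set.Finite.of_finite_image (f := Subtype.val) (hfin.subset ?_)
      Subtype.val_injective.injOn
    rintro _ ⟨⟨⟨m, j⟩, hk⟩, hkN, rfl⟩
    have h1 : 2 * m + n = N := hkN
    have h2 : (N - n) / 2 = m := by omega
    rw [h2]
    exact ⟨j, hk, rfl⟩
  · -- Kills
    intro c hc hcF hdc
    have hle : ∀ i : ι ⊕ κ, Sum.elim (fun _ => 1) (fun _ => n) i ≤ Sum.elim deg deg' i := by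
      intro i
      rcases i with i | k
      · have := S.two_le i
        change 1 ≤ deg i
        omega
      · change n ≤ 2 * k.1.1 + n; omega
    -- combinations
    have hcomb : ∀ m, ∀ z ∈ Submodule.span ℚ (Set.range (f m).2),
        ∃ u : Lam (Sum.elim deg deg'), sgn (Sum.elim deg deg') u = -u ∧
          u ∈ FW (Sum.elim deg deg') (Sum.elim (fun _ => 1) (fun _ => n)) n ∧
          mapL φ hφ (d' u) = z := by
      intro m z hz
      induction hz using Submodule.span_induction with
      | mem x hx =>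
        obtain ⟨j, rfl⟩ := hx
        by_cases hj : j < (f m).1
        · refine ⟨gen (Sum.elim deg deg') (Sum.inr ⟨(m, j), hj⟩), ?_, ?_, ?_⟩
          · apply sgn_gen_odd
            exact Even.add_odd (even_two_mul _) hn
          · exact gen_mem_FW (deg := Sum.elim deg deg')
              (wt := Sum.elim (fun _ => 1) (fun _ => n)) (Sum.inr ⟨(m, j), hj⟩)
          · rw [hcomm, mapL_gen, hD]
            exact DT_w S n f hf m j
        · refine ⟨0, by rw [map_zero, neg_zero], zero_mem _, ?_⟩
          rw [(hf m).2.1 j (not_lt.mp hj), map_zero, map_zero]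
      | zero => exact ⟨0, by rw [map_zero, neg_zero], zero_mem _, by rw [map_zero, map_zero]⟩
      | add x y _ _ hx hy =>
        obtain ⟨u, hu1, hu2, hu3⟩ := hx
        obtain ⟨v, hv1, hv2, hv3⟩ := hy
        exact ⟨u + v, by rw [map_add, hu1, hv1, neg_add], add_mem hu2 hv2,
          by rw [map_add, map_add, hu3, hv3]⟩
      | smul r x _ hx =>
        obtain ⟨u, hu1, hu2, hu3⟩ := hx
        exact ⟨r • u, by rw [map_smul, hu1, smul_neg], Submodule.smul_mem _ _ hu2,
          by rw [map_smul, map_smul, hu3]⟩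
    -- homogeneous components
    have hcomp : ∀ e, ∃ u : Lam (Sum.elim deg deg'), sgn (Sum.elim deg deg') u = -u ∧
          u ∈ FW (Sum.elim deg deg') (Sum.elim (fun _ => 1) (fun _ => n)) n ∧
          d' u = pr (Sum.elim deg deg') e c := by
      intro e
      have hzero : pr (Sum.elim deg deg') e c = 0 →
          ∃ u : Lam (Sum.elim deg deg'), sgn (Sum.elim deg deg') u = -u ∧
          u ∈ FW (Sum.elim deg deg') (Sum.elim (fun _ => 1) (fun _ => n)) n ∧
          d' u = pr (Sum.elim deg deg') e c := fun h0 =>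
        ⟨0, by rw [map_zero, neg_zero], zero_mem _, by rw [map_zero, h0]⟩
      rcases Nat.even_or_odd e with he | he
      · by_cases hlt : e < n + 1
        · exact hzero (FW_low hle hcF hlt)
        · obtain ⟨m, hm⟩ : ∃ m, e = 2 * m + n + 1 := by
            obtain ⟨a, ha⟩ := he
            obtain ⟨b, hb⟩ := hn
            exact ⟨a - b - 1, by omega⟩
          subst hm
          have h1 : mapL φ hφ (pr (Sum.elim deg deg') (2 * m + n + 1) c) ∈
              WW (td deg n) (tw n) (actT (RT n f)) (2 * m + n + 1) (n + 1) := by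
            apply pr_mem_WW hφ hact
            rw [hwt]
            exact hcF
          have h2 := stageT S n f hn3 m h1
          have h3 : dT S n (FT n f) (mapL φ hφ (pr (Sum.elim deg deg') (2 * m + n + 1) c)) = 0 := by
            rw [← hcomm, d_prT hd'.diff, hdc, map_zero, map_zero]
          have h4 : mapL φ hφ (pr (Sum.elim deg deg') (2 * m + n + 1) c) ∈ ZT S n m f := by
            refine ⟨h2, ?_⟩
            have h5 := dT_stage S n f m _ _ h2
            rw [h3] at h5
            exact h5.symm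
          obtain ⟨u, hu1, hu2, hu3⟩ := hcomb m _ ((hf m).2.2 h4)
          exact ⟨u, hu1, hu2, hinj' hu3⟩
      · exact hzero (pr_even hc he)
    choose U hU1 hU2 hU3 using hcomp
    obtain ⟨N, hN⟩ := sum_pr (Sum.elim deg deg') c
    refine ⟨∑ e ∈ Finset.range N, U e, ?_, ?_, ?_⟩
    · rw [map_sum, ← Finset.sum_neg_distrib]
      exact Finset.sum_congr rfl fun e _ => hU1 e
    · exact Submodule.sum_mem _ fun e _ => hU2 e
    · rw [map_sum]
      exact (Finset.sum_congr rfl fun e _ => hU3 e).trans (hN N le_rfl).symm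
  · intro a
    apply hinj'
    rw [hcomm, hincl, dT_incl, hincl]

end Anick2
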