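import Pool.Agent.Helper2.AN.Facts

/-!
AN-15 (project AN, MP_5f0082_gt). At most two even generators.

Proof. Write `𝔸 m = Algebra.adjoin ℚ (gen '' {j | deg j < m})`; `S.sullivan i : S.d (gen i) ∈ 𝔸 (deg i)`.
General remark (Q): let `Z` be a set of odd generators, `x` an even generator (or none) and `g z` (`z ∈ Y`) elements with `g z - gen z ∈ ℚ[gen x] * gen z₀`. Everything below uses
elements `a` of the subalgebra generated by certain generators; compute modulo the ideal `(g '' Y)` by replacing every generator `gen z` by `c x^j gen z₀` (or by `0`).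

Case 0: no even generator. `Y = ∅`, `g = gen`; nothing to prove.
Case 1: exactly one even generator `x`. `g = gen`, `Y = {z odd | deg z < deg x}`. For `z ∈ Y`: `S.d (gen z)` is in `𝔸 (deg z)`, generated by elements of `gen '' Y` only, and is
  homogeneous of positive degree, so it is in `idealSpan (gen '' Y)` (an element of `adjoin (gen '' T)` is a scalar plus an element of `idealSpan (gen '' T)`; the scalar is `pr 0`). The same for `S.d (gen x)`.
Case 2: two even generators `x₁, x₂`, `deg x₁ ≤ deg x₂`. If `deg x₁ = deg x₂`, the same proof with `Y = {z odd | deg z < deg x₁}`. Let `deg x₁ < deg x₂`. Let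
  `ε : Lam deg →ₐ ℚ[X]` (`Polynomial ℚ`), `gen x₁ ↦ X`, all other generators `↦ 0`. For `z` odd, `deg z < deg x₂`: `ε (S.d (gen z)) = c z • X^(k z)` with `k z * deg x₁ = deg z + 1` if `c z ≠ 0`
  (a homogeneous element of degree `N` is mapped to a multiple of `X^k`, `k * deg x₁ = N`, on monomials).
  Case 2a: all `c z = 0` (`z` odd, `deg z < deg x₂`). `g = gen`, `Y` = all these `z`. An element `a` of `𝔸 (deg x₂)` is congruent modulo `idealSpan (gen '' Y)` to a polynomial in `gen x₁`, the one given by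
    `ε a`. `S.d (gen z)`, `z ∈ Y`: `ε = 0`, so it is in the ideal. `S.d (gen x₁)`, `S.d (gen x₂)` are odd, `ε` of an odd element is `0` (an odd monomial contains an odd generator), so they are in the ideal.
  Case 2b: let `z₀` have minimal degree among the `z` with `c z ≠ 0`; `k₀ = k z₀`. For `z` odd, `deg z < deg x₂`, `z ≠ z₀`: `g z = gen z - (c z / c z₀) • gen x₁ ^ (k z - k₀) * gen z₀` (if `c z = 0`: `g z = gen z`);
    `g = gen` on all other generators; `Y` = these `z`. `IsGenSystem`: degrees (`(k z - k₀) deg x₁ + deg z₀ = deg z`); `gen z = g z + (c z / c z₀) • g x₁ ^ _ * g z₀`.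
    Let `I = idealSpan (g '' Y)`. (i) Every `a ∈ 𝔸 (deg x₂)` is congruent modulo `I` to `P (gen x₁) + Q (gen x₁) * gen z₀`, `P, Q` polynomials (the set of these `a` is a subalgebra since `gen z₀ * gen z₀ = 0`, and contains
    the generators); if `a` is even one can take `Q = 0` and if `a` is odd `P = 0` (take the even resp. odd part, `I` is stable under `sgn` since the `g z` are odd); `ε I = 0` (`ε (g z) = 0`), so `P = ε a`.
    (ii) `S.d (g z) ∈ I` for `z ∈ Y`: it is even, in `𝔸 (deg x₂)` (`d (gen x₁) ∈ 𝔸`, `d (gen z₀) ∈ 𝔸`), and `ε (S.d (g z)) = c z X^(k z) - (c z / c z₀) X^(k z - k₀) c z₀ X^(k₀) - 0 = 0` (the term with `d (gen x₁ ^ _) * gen z₀` is killed by `ε`).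
    (iii) so `d I ⊆ I` (Leibniz).
    (iv) `S.d (gen x₁) ∈ I`: it is in `𝔸 (deg x₁)`, generated by the `gen z`, `z` odd, `deg z < deg x₁`; for these `c z = 0` (otherwise `k z deg x₁ = deg z + 1 ≤ deg x₁`, `k z = 1`, but `S.d (gen z)` is a combination of monomials in
    generators of degree `< deg z < deg x₁`, so `ε (S.d (gen z))` is a scalar, contradiction); so `z ≠ z₀`, `g z = gen z`, `z ∈ Y`, and as in Case 1 `S.d (gen x₁) ∈ I`.
    (v) `S.d (gen x₂) ∈ I`: it is odd and in `𝔸 (deg x₂)`, so congruent to `Q (gen x₁) * gen z₀`. Apply `d` and (iii), (iv): `0 ≡ d (Q (gen x₁)) * gen z₀ + Q (gen x₁) * d (gen z₀)` modulo `I`, and `ε`: `0 = Q(X) * c z₀ X^(k₀)` (`ε` kills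
    `gen z₀` and `I`). So `Q = 0`.
-/

set_option autoImplicit false

namespace Anick2

attribute [local irreducible] instRingLam

variable {ι : Type} {deg : ι → ℕ}

private theorem te_rho (r : ι → Lam deg) (hr : ∀ i, r i ∈ hom deg (deg i)) :
    ∃ ρ : Lam deg →ₐ[ℚ] Lam deg, (∀ i, ρ (gen deg i) = r i) ∧
      ∀ a, ρ (sgn deg a) = sgn deg (ρ a) := by
  refine ⟨Lam.lift deg r (fun i j => hom_comm deg (hr i) (hr j)), fun i => Lam.lift_gen _ _ _ i,
    fun a => ?_⟩
  have h : (Lam.lift deg r (fun i j => hom_comm deg (hr i) (hr j))).comp (sgn deg) =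
      (sgn deg).comp (Lam.lift deg r (fun i j => hom_comm deg (hr i) (hr j))) := by
    refine Lam.algHom_ext _ fun i => ?_
    rw [AlgHom.comp_apply, AlgHom.comp_apply, sgn_gen, map_smul, Lam.lift_gen, sgn_hom deg (hr i)]
  exact congrArg (fun f : Lam deg →ₐ[ℚ] Lam deg => f a) h

private theorem te_sub (Y : Set ι) (r g : ι → Lam deg) (hg : ∀ i ∈ Y, g i = gen deg i - r i)
    (hr : ∀ i, i ∉ Y → r i = gen deg i) (ρ : Lam deg →ₐ[ℚ] Lam deg)
    (hρ : ∀ i, ρ (gen deg i) = r i) (a : Lam deg) : a - ρ a ∈ idealSpan (g '' Y) := by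
  have h0 : ∀ i, gen deg i - r i ∈ idealSpan (g '' Y) := by
    intro i
    by_cases hi : i ∈ Y
    · rw [← hg i hi]
      exact mem_idealSpan_self ⟨i, hi, rfl⟩
    · rw [hr i hi, sub_self]
      exact zero_mem _
  induction a using Lam.induction with
  | hm l =>
    induction l with
    | nil =>
      rw [mon_nil, map_one, sub_self]
      exact zero_mem _
    | cons i l ih =>
      rw [mon_cons, map_mul, hρ]
      have e : gen deg i * mon deg l - r i * ρ (mon deg l) =
          (gen deg i - r i) * mon deg l + r i * (mon deg l - ρ (mon deg l)) := by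
        rw [sub_mul, mul_sub]
        abel
      rw [e]
      exact add_mem (idealSpan_right (h0 i) _) (idealSpan_left ih _)
  | h0 =>
    rw [map_zero, sub_self]
    exact zero_mem _
  | hadd a b ha hb =>
    rw [map_add, show a + b - (ρ a + ρ b) = (a - ρ a) + (b - ρ b) by abel]
    exact add_mem ha hb
  | hsmul q a ha =>
    rw [map_smul, ← smul_sub]
    exact Submodule.smul_mem _ _ ha

private theorem te_sys (Y : Set ι) (r g : ι → Lam deg) (hr : ∀ i, r i ∈ hom deg (deg i))
    (hg : ∀ i ∈ Y, g i = gen deg i - r i) (hg2 : ∀ i, i ∉ Y → g i = gen deg i)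
    (hadj : ∀ i ∈ Y, r i ∈ Algebra.adjoin ℚ (gen deg '' Yᶜ)) : IsGenSystem deg g := by
  constructor
  · intro i
    by_cases hi : i ∈ Y
    · rw [hg i hi]
      exact sub_mem (gen_mem_hom deg i) (hr i)
    · rw [hg2 i hi]
      exact gen_mem_hom deg i
  · rw [eq_top_iff]
    rintro a -
    have h1 : Algebra.adjoin ℚ (gen deg '' Yᶜ) ≤ Algebra.adjoin ℚ (Set.range g) := by
      refine Algebra.adjoin_le ?_
      rintro _ ⟨i, hi, rfl⟩
      exact Algebra.subset_adjoin ⟨i, hg2 i hi⟩
    have h2 : ∀ i, gen deg i ∈ Algebra.adjoin ℚ (Set.range g) := by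
      intro i
      by_cases hi : i ∈ Y
      · have h3 : gen deg i = g i + r i := by
          rw [hg i hi]
          abel
        rw [h3]
        exact add_mem (Algebra.subset_adjoin ⟨i, rfl⟩) (h1 (hadj i hi))
      · rw [← hg2 i hi]
        exact Algebra.subset_adjoin ⟨i, rfl⟩
    induction a using Lam.induction with
    | hm l =>
      induction l with
      | nil => exact one_mem _
      | cons i l ih =>
        rw [mon_cons]
        exact mul_mem (h2 i) ih
    | h0 => exact zero_mem _
    | hadd a b ha hb => exact add_mem ha hb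
    | hsmul q a ha => exact Subalgebra.smul_mem _ ha q

private theorem te_eps (x : ι) (hx : Even (deg x)) : ∃ ε : Lam deg →ₐ[ℚ] Polynomial ℚ,
    ε (gen deg x) = Polynomial.X ∧ ∀ i, i ≠ x → ε (gen deg i) = 0 := by
  classical
  refine ⟨Lam.lift deg (fun i => if i = x then Polynomial.X else 0) ?_, ?_, ?_⟩
  · intro i j
    by_cases hi : i = x
    · by_cases hj : j = x
      · rw [if_pos hi, if_pos hj, hi, hj, (hx.mul_left _).neg_one_pow, one_smul]
      · rw [if_neg hj, mul_zero, zero_mul, smul_zero]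
    · rw [if_neg hi, zero_mul, mul_zero, smul_zero]
  · rw [Lam.lift_gen, if_pos rfl]
  · intro i hi
    rw [Lam.lift_gen, if_neg hi]

private theorem te_eps_hom {x : ι} (h0 : 0 < deg x) {ε : Lam deg →ₐ[ℚ] Polynomial ℚ}
    (h1 : ε (gen deg x) = Polynomial.X) (h2 : ∀ i, i ≠ x → ε (gen deg i) = 0) {n : ℕ} {a : Lam deg}
    (ha : a ∈ hom deg n) :
    ∃ c : ℚ, ε a = Polynomial.monomial (n / deg x) c ∧ (c ≠ 0 → deg x ∣ n) := by
  have hm : ∀ l : List ι, ε (mon deg l) = 0 ∨
      (ε (mon deg l) = Polynomial.X ^ l.length ∧ degSum deg l = l.length * deg x) := by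
    intro l
    induction l with
    | nil =>
      right
      rw [mon_nil, map_one, List.length_nil, pow_zero, degSum_nil, zero_mul]
      exact ⟨rfl, rfl⟩
    | cons i l ih =>
      rw [mon_cons, map_mul]
      by_cases hi : i = x
      · rcases ih with ih | ⟨ih, ih'⟩
        · left
          rw [ih, mul_zero]
        · right
          rw [ih, hi, h1, degSum_cons, ih', List.length_cons]
          exact ⟨by rw [pow_succ, mul_comm], by ring⟩
      · left
        rw [h2 i hi, zero_mul]
  refine hom_induction deg (C := fun a => ∃ c : ℚ, ε a = Polynomial.monomial (n / deg x) c ∧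
    (c ≠ 0 → deg x ∣ n)) ?_ ?_ ?_ ?_ ha
  · intro l hl
    rcases hm l with h | ⟨h, h'⟩
    · exact ⟨0, by rw [h, map_zero], fun h => absurd rfl h⟩
    · refine ⟨1, ?_, fun _ => ?_⟩
      · rw [h, ← hl, h', Nat.mul_div_cancel _ h0, Polynomial.monomial_one_right_eq_X_pow]
      · rw [← hl, h']
        exact Dvd.intro_left _ rfl
  · exact ⟨0, by rw [map_zero, map_zero], fun h => absurd rfl h⟩
  · rintro a b ⟨c, hc, hc'⟩ ⟨c', hd, hd'⟩
    refine ⟨c + c', by rw [map_add, hc, hd, map_add], fun h => ?_⟩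
    by_cases hc0 : c = 0
    · apply hd'
      rintro rfl
      apply h
      rw [hc0, add_zero]
    · exact hc' hc0
  · rintro q a ⟨c, hc, hc'⟩
    exact ⟨q * c, by rw [map_smul, hc, Polynomial.smul_monomial, smul_eq_mul],
      fun h => hc' (right_ne_zero_of_mul h)⟩

private theorem te_sgn {x : ι} (hx : Even (deg x)) (P : Polynomial ℚ) :
    sgn deg (Polynomial.aeval (gen deg x) P) = Polynomial.aeval (gen deg x) P := by
  rw [← Polynomial.aeval_algHom_apply, sgn_gen_even hx]

private theorem te_form {x : ι} (hx : Even (deg x)) {D : ℕ}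
    (F1 : ∀ i, deg i < D → Odd (deg i) ∨ i = x)
    {w : Lam deg} (hw : sgn deg w = -w) {ρ : Lam deg →ₐ[ℚ] Lam deg} (h1 : ρ (gen deg x) = gen deg x)
    (h2 : ∀ i, Odd (deg i) → deg i < D → ∃ Q : Polynomial ℚ,
      ρ (gen deg i) = Polynomial.aeval (gen deg x) Q * w)
    {a : Lam deg} (ha : a ∈ Algebra.adjoin ℚ (gen deg '' {j | deg j < D})) :
    ∃ P Q : Polynomial ℚ, ρ a = Polynomial.aeval (gen deg x) P +
      Polynomial.aeval (gen deg x) Q * w := by
  induction ha using Algebra.adjoin_induction with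
  | mem a ha =>
    obtain ⟨i, hi, rfl⟩ := ha
    rcases F1 i hi with h | h
    · obtain ⟨Q, hQ⟩ := h2 i h hi
      exact ⟨0, Q, by rw [hQ, map_zero, zero_add]⟩
    · exact ⟨Polynomial.X, 0, by
        rw [h, h1, Polynomial.aeval_X, map_zero, zero_mul, add_zero]⟩
  | algebraMap q =>
    exact ⟨Polynomial.C q, 0, by
      rw [AlgHom.commutes, Polynomial.aeval_C, map_zero, zero_mul, add_zero]⟩
  | add a b _ _ iha ihb =>
    obtain ⟨P, Q, h⟩ := iha
    obtain ⟨P', Q', h'⟩ := ihb
    exact ⟨P + P', Q + Q', by rw [map_add, h, h', map_add, map_add, add_mul]; abel⟩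
  | mul a b _ _ iha ihb =>
    obtain ⟨P, Q, h⟩ := iha
    obtain ⟨P', Q', h'⟩ := ihb
    refine ⟨P * P', P * Q' + Q * P', ?_⟩
    rw [map_mul, h, h', map_mul, map_add, map_mul, map_mul]
    have e1 : Polynomial.aeval (gen deg x) P' * w = w * Polynomial.aeval (gen deg x) P' :=
      even_comm (te_sgn hx P') w
    have e2 : Polynomial.aeval (gen deg x) Q' * w = w * Polynomial.aeval (gen deg x) Q' :=
      even_comm (te_sgn hx Q') w
    have e3 : w * w = 0 := odd_sq hw
    generalize Polynomial.aeval (gen deg x) P = p at *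
    generalize Polynomial.aeval (gen deg x) Q = q at *
    generalize Polynomial.aeval (gen deg x) P' = p' at *
    generalize Polynomial.aeval (gen deg x) Q' = q' at *
    have e4 : (q * w) * (q' * w) = 0 := by
      rw [e2, mul_assoc, ← mul_assoc w w q', e3, zero_mul, mul_zero]
    rw [add_mul, mul_add, mul_add, e4, add_zero, add_mul, mul_assoc q w p', ← e1, mul_assoc p q' w,
      mul_assoc q p' w]
    abel

private theorem te_even {x : ι} (hx : Even (deg x)) {w : Lam deg} (hw : sgn deg w = -w)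
    {b : Lam deg} {P Q : Polynomial ℚ}
    (hb : b = Polynomial.aeval (gen deg x) P + Polynomial.aeval (gen deg x) Q * w) :
    (sgn deg b = b → b = Polynomial.aeval (gen deg x) P) ∧
    (sgn deg b = -b → b = Polynomial.aeval (gen deg x) Q * w) := by
  have h1 : sgn deg b = Polynomial.aeval (gen deg x) P - Polynomial.aeval (gen deg x) Q * w := by
    rw [hb, map_add, map_mul, te_sgn hx, te_sgn hx, hw, mul_neg, sub_eq_add_neg]
  rw [h1, hb]
  generalize Polynomial.aeval (gen deg x) P = p
  generalize Polynomial.aeval (gen deg x) Q * w = q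
  constructor
  · intro h
    have h2 : (2 : ℚ) • q = 0 := by
      rw [two_smul]
      have h3 : q + q = (p + q) - (p - q) := by abel
      rw [h3, h, sub_self]
    have h4 : q = 0 := (smul_eq_zero.1 h2).resolve_left (by norm_num)
    rw [h4, add_zero]
  · intro h
    have h2 : (2 : ℚ) • p = 0 := by
      rw [two_smul]
      have h3 : p + p = (p - q) + (p + q) := by abel
      rw [h3, h, neg_add_cancel]
    have h4 : p = 0 := (smul_eq_zero.1 h2).resolve_left (by norm_num)
    rw [h4, zero_add]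

private theorem te_core {d : Lam deg →ₗ[ℚ] Lam deg} (hd : IsDifferential (hom deg) d)
    (hs : SullivanCondition deg (gen deg) d) {x : ι} (hx : Even (deg x)) {D : ℕ}
    (F1 : ∀ i, deg i < D → Odd (deg i) ∨ i = x) (F4 : ∀ t, Even (deg t) → deg t ≤ D)
    {ε : Lam deg →ₐ[ℚ] Polynomial ℚ} (hε1 : ε (gen deg x) = Polynomial.X)
    (Y : Set ι) (hY : ∀ i ∈ Y, Odd (deg i)) (hYD : ∀ i ∈ Y, deg i < D)
    (w : Lam deg) (hw : sgn deg w = -w) (hεw : ε w = 0)
    (hεdw : w = 0 ∨ ε (d w) ≠ 0)
    (r : ι → Lam deg) (hr : ∀ i, r i ∈ hom deg (deg i)) (hrY : ∀ i, i ∉ Y → r i = gen deg i)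
    (hr2 : ∀ i, Odd (deg i) → deg i < D → ∃ Q : Polynomial ℚ,
      r i = Polynomial.aeval (gen deg x) Q * w)
    (hadj : ∀ i ∈ Y, r i ∈ Algebra.adjoin ℚ (gen deg '' Yᶜ))
    (hεY : ∀ i ∈ Y, ε (gen deg i) = 0)
    (hB : ∀ i ∈ Y, d (r i) ∈ Algebra.adjoin ℚ (gen deg '' {j | deg j < D}))
    (hεd : ∀ i ∈ Y, ε (d (gen deg i)) = ε (d (r i))) :
    ∃ (g : ι → Lam deg) (Y : Set ι), IsGenSystem deg g ∧
      (∀ y ∈ Y, Odd (deg y) ∧ d (g y) ∈ idealSpan (g '' Y)) ∧
      ∀ t, Even (deg t) → d (g t) ∈ idealSpan (g '' Y) := by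
  classical
  obtain ⟨ρ, hρ, hρs⟩ := te_rho r hr
  set g : ι → Lam deg := fun i => if i ∈ Y then gen deg i - r i else gen deg i with hg
  have hgY : ∀ i ∈ Y, g i = gen deg i - r i := fun i hi => by rw [hg]; exact if_pos hi
  have hgY' : ∀ i, i ∉ Y → g i = gen deg i := fun i hi => by rw [hg]; exact if_neg hi
  have hsys := te_sys Y r g hr hgY hgY' hadj
  have hsub := te_sub Y r g hgY hrY ρ hρ
  clear_value g
  have hxY : x ∉ Y := fun h => (Nat.not_even_iff_odd.2 (hY x h)) hx
  -- `ε` and `ρ`
  have hεr : ∀ i, ε (r i) = ε (gen deg i) := by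
    intro i
    by_cases hi : i ∈ Y
    · obtain ⟨Q, hQ⟩ := hr2 i (hY i hi) (hYD i hi)
      rw [hQ, map_mul, hεw, mul_zero, hεY i hi]
    · rw [hrY i hi]
  have hερ : ∀ a, ε (ρ a) = ε a := by
    intro a
    have h : ε.comp ρ = ε := by
      refine Lam.algHom_ext _ fun i => ?_
      rw [AlgHom.comp_apply, hρ, hεr]
    exact congrArg (fun f : Lam deg →ₐ[ℚ] Polynomial ℚ => f a) h
  have hεP : ∀ P : Polynomial ℚ, ε (Polynomial.aeval (gen deg x) P) = P := by
    intro P
    rw [← Polynomial.aeval_algHom_apply, hε1, Polynomial.aeval_X_left_apply]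
  have hform : ∀ a ∈ Algebra.adjoin ℚ (gen deg '' {j | deg j < D}), ∃ P Q : Polynomial ℚ,
      ρ a = Polynomial.aeval (gen deg x) P + Polynomial.aeval (gen deg x) Q * w := by
    intro a ha
    refine te_form hx F1 hw ?_ ?_ ha
    · rw [hρ, hrY x hxY]
    · intro i hi hi'
      rw [hρ]
      exact hr2 i hi hi'
  have hdB : ∀ i, deg i ≤ D → d (gen deg i) ∈ Algebra.adjoin ℚ (gen deg '' {j | deg j < D}) := by
    intro i hi
    refine Algebra.adjoin_mono (Set.image_mono ?_) (hs i)
    intro j hj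
    exact lt_of_lt_of_le hj hi
  -- even elements
  have heven : ∀ a ∈ Algebra.adjoin ℚ (gen deg '' {j | deg j < D}), sgn deg a = a → ε a = 0 →
      a ∈ idealSpan (g '' Y) := by
    intro a ha hsa hεa
    obtain ⟨P, Q, h⟩ := hform a ha
    have h1 := (te_even hx hw h).1 (by rw [← hρs, hsa])
    have h2 : P = 0 := by
      rw [← hεP P, ← h1, hερ, hεa]
    have h3 := hsub a
    rw [h1, h2, map_zero, sub_zero] at h3
    exact h3
  have hdY : ∀ y ∈ Y, d (g y) ∈ idealSpan (g '' Y) := by
    intro y hy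
    refine heven _ ?_ ?_ ?_
    · rw [hgY y hy, map_sub]
      exact sub_mem (hdB y (hYD y hy).le) (hB y hy)
    · have h1 : sgn deg (g y) = -g y := by
        rw [sgn_hom deg (hsys.mem y), (hY y hy).neg_one_pow, neg_one_smul]
      rw [sgn_d hd, h1, map_neg, neg_neg]
    · rw [hgY y hy, map_sub, map_sub, hεd y hy, sub_self]
  -- the ideal is stable
  have hstab : ∀ a ∈ idealSpan (g '' Y), d a ∈ idealSpan (g '' Y) ∧ ε a = 0 := by
    intro a ha
    unfold idealSpan at ha
    induction ha using Submodule.span_induction with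
    | mem a ha =>
      obtain ⟨p, v, q, hv, rfl⟩ := ha
      obtain ⟨y, hy, rfl⟩ := hv
      have hv : g y ∈ idealSpan (g '' Y) := mem_idealSpan_self ⟨y, hy, rfl⟩
      constructor
      · rw [d_mul hd, d_mul hd]
        have h1 : sgn deg (g y) = -g y := by
          rw [sgn_hom deg (hsys.mem y), (hY y hy).neg_one_pow, neg_one_smul]
        refine add_mem (idealSpan_right (add_mem (idealSpan_left hv _)
          (idealSpan_left (hdY y hy) _)) _) ?_
        rw [map_mul, h1]
        exact idealSpan_right (idealSpan_left (neg_mem hv) _) _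
      · rw [map_mul, map_mul, hgY y hy, map_sub, hεr, sub_self, mul_zero, zero_mul]
    | zero =>
      rw [map_zero, map_zero]
      exact ⟨zero_mem _, rfl⟩
    | add a b _ _ iha ihb =>
      rw [map_add, map_add, iha.2, ihb.2, add_zero]
      exact ⟨add_mem iha.1 ihb.1, rfl⟩
    | smul q a _ iha =>
      rw [map_smul, map_smul, iha.2, smul_zero]
      exact ⟨Submodule.smul_mem _ _ iha.1, rfl⟩
  refine ⟨g, Y, hsys, fun y hy => ⟨hY y hy, hdY y hy⟩, fun t ht => ?_⟩
  have htY : t ∉ Y := fun h => (Nat.not_even_iff_odd.2 (hY t h)) ht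
  rw [hgY' t htY]
  have hda := hdB t (F4 t ht)
  obtain ⟨P, Q, h⟩ := hform _ hda
  have h1 := (te_even hx hw h).2 (by
    rw [← hρs, sgn_d hd, sgn_gen_even ht, map_neg])
  have h2 : Polynomial.aeval (gen deg x) Q * w = 0 := by
    rcases hεdw with h0 | h0
    · rw [h0, mul_zero]
    · have h3 := (hstab _ (hstab _ (hsub (d (gen deg t)))).1).2
      rw [h1, map_sub, hd.d_d, zero_sub, d_mul hd, map_neg, map_add, map_mul, map_mul, hεw,
        mul_zero, zero_add, te_sgn hx, hεP, neg_eq_zero] at h3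
      rw [(mul_eq_zero.1 h3).resolve_right h0, map_zero, zero_mul]
  have h3 := hsub (d (gen deg t))
  rw [h1, h2, sub_zero] at h3
  exact h3

theorem two_even {ι : Type} [Finite ι] {deg : ι → ℕ} (S : MinimalSullivan deg)
    (h : {i | Even (deg i)}.ncard ≤ 2) :
    ∃ (g : ι → Lam deg) (Y : Set ι), IsGenSystem deg g ∧
      (∀ y ∈ Y, Odd (deg y) ∧ S.d (g y) ∈ idealSpan (g '' Y)) ∧
      ∀ t, Even (deg t) → S.d (g t) ∈ idealSpan (g '' Y) := by
  classical
  by_cases hE : ∃ i, Even (deg i)
  swap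
  · refine ⟨gen deg, ∅, ?_, fun y hy => absurd hy (Set.notMem_empty y),
      fun t ht => absurd ⟨t, ht⟩ hE⟩
    exact te_sys ∅ (gen deg) (gen deg) (gen_mem_hom deg) (fun i hi => absurd hi (Set.notMem_empty i))
      (fun i _ => rfl) (fun i hi => absurd hi (Set.notMem_empty i))
  have hfin : {i | Even (deg i)}.Finite := Set.toFinite _
  obtain ⟨x, hx, hxmin⟩ := Set.exists_min_image {i | Even (deg i)} deg hfin hE
  obtain ⟨x₂, hx₂, hxmax⟩ := Set.exists_max_image {i | Even (deg i)} deg hfin hE
  have hxe : Even (deg x) := hx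
  have hx2 := S.two_le x
  have hx0 : 0 < deg x := by omega
  have F4 : ∀ t, Even (deg t) → deg t ≤ deg x₂ := fun t ht => hxmax t ht
  have F1 : ∀ i, deg i < deg x₂ → Odd (deg i) ∨ i = x := by
    intro i hi
    by_contra hcon
    rw [not_or, Nat.not_odd_iff_even] at hcon
    have h1 := hxmin i hcon.1
    have h2 : 2 < {i | Even (deg i)}.ncard := by
      rw [Set.two_lt_ncard_iff hfin]
      refine ⟨i, x, x₂, hcon.1, hx, hx₂, hcon.2, ?_, ?_⟩
      · rintro rfl
        omega
      · rintro rfl
        omega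
    omega
  obtain ⟨ε, hε1, hε2⟩ := te_eps x hxe
  have hc0 := fun z => te_eps_hom hx0 hε1 hε2
    (S.isDifferential.map_hom _ _ (gen_mem_hom deg z))
  choose c hc hc' using hc0
  have F3 : ∀ z, deg z ≤ deg x → c z = 0 := by
    intro z hz
    by_contra hcz
    have h1 : ∃ q : ℚ, ε (S.d (gen deg z)) = Polynomial.C q := by
      have h2 : Algebra.adjoin ℚ (gen deg '' {j | deg j < deg z}) ≤
          (⊥ : Subalgebra ℚ (Polynomial ℚ)).comap ε := by
        refine Algebra.adjoin_le ?_
        rintro _ ⟨j, hj, rfl⟩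
        have hjx : j ≠ x := by
          rintro rfl
          have : deg j < deg z := hj
          omega
        change ε (gen deg j) ∈ (⊥ : Subalgebra ℚ (Polynomial ℚ))
        rw [hε2 j hjx]
        exact zero_mem _
      have h3 : ε (S.d (gen deg z)) ∈ (⊥ : Subalgebra ℚ (Polynomial ℚ)) := h2 (S.sullivan z)
      obtain ⟨q, hq⟩ := Algebra.mem_bot.1 h3
      exact ⟨q, hq.symm⟩
    obtain ⟨q, hq⟩ := h1
    rw [hc z] at hq
    have h4 : 1 ≤ (deg z + 1) / deg x := by
      rw [Nat.le_div_iff_mul_le hx0, one_mul]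
      exact Nat.le_of_dvd (Nat.succ_pos _) (hc' z hcz)
    have h5 := congrArg (fun p : Polynomial ℚ => p.coeff ((deg z + 1) / deg x)) hq
    simp only [Polynomial.coeff_monomial, if_true, Polynomial.coeff_C] at h5
    rw [if_neg (by omega)] at h5
    exact hcz h5
  by_cases hb : ∃ z, z ∈ {z | Odd (deg z) ∧ deg z < deg x₂ ∧ c z ≠ 0}
  · -- there is a first nonzero coefficient
    obtain ⟨z₀, ⟨hz1, hz2, hz3⟩, hzmin⟩ := Set.exists_min_image
      {z | Odd (deg z) ∧ deg z < deg x₂ ∧ c z ≠ 0} deg (Set.toFinite _) hb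
    have hxz : deg x < deg z₀ := by
      by_contra h
      exact hz3 (F3 z₀ (not_lt.1 h))
    set Y : Set ι := {z | (Odd (deg z) ∧ deg z < deg x₂) ∧ z ≠ z₀} with hYdef
    set m : ι → ℕ := fun i => (deg i + 1) / deg x - (deg z₀ + 1) / deg x with hm
    set r : ι → Lam deg := fun i => if i ∈ Y then
      (c i / c z₀) • (gen deg x ^ m i * gen deg z₀) else gen deg i with hrdef
    have hrY : ∀ i ∈ Y, r i = (c i / c z₀) • (gen deg x ^ m i * gen deg z₀) := fun i hi => by
      rw [hrdef]; exact if_pos hi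
    have hrY' : ∀ i, i ∉ Y → r i = gen deg i := fun i hi => by rw [hrdef]; exact if_neg hi
    clear_value r
    have hmul : ∀ i, c i ≠ 0 → (deg i + 1) / deg x * deg x = deg i + 1 := fun i hi =>
      Nat.div_mul_cancel (hc' i hi)
    have hle : ∀ i ∈ Y, c i ≠ 0 → (deg z₀ + 1) / deg x ≤ (deg i + 1) / deg x := by
      intro i hi hci
      exact Nat.div_le_div_right (Nat.succ_le_succ (hzmin i ⟨hi.1.1, hi.1.2, hci⟩))
    have hpow : ∀ k : ℕ, gen deg x ^ k ∈ hom deg (k * deg x) := by
      intro k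
      induction k with
      | zero =>
        rw [pow_zero, zero_mul]
        exact mon_mem_hom deg []
      | succ k ih =>
        rw [pow_succ, show (k + 1) * deg x = k * deg x + deg x by ring]
        exact mul_mem_hom deg ih (gen_mem_hom deg x)
    have hodd0 : sgn deg (gen deg z₀) = -gen deg z₀ := sgn_gen_odd hz1
    have hxz' : z₀ ≠ x := by
      rintro rfl
      omega
    have hxB : gen deg x ∈ Algebra.adjoin ℚ (gen deg '' {j | deg j < deg x₂}) :=
      Algebra.subset_adjoin ⟨x, by change deg x < deg x₂; omega, rfl⟩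
    have hzB : gen deg z₀ ∈ Algebra.adjoin ℚ (gen deg '' {j | deg j < deg x₂}) :=
      Algebra.subset_adjoin ⟨z₀, hz2, rfl⟩
    have hdB : ∀ i, deg i ≤ deg x₂ → S.d (gen deg i) ∈
        Algebra.adjoin ℚ (gen deg '' {j | deg j < deg x₂}) := by
      intro i hi
      refine Algebra.adjoin_mono (Set.image_mono ?_) (S.sullivan i)
      intro j hj
      exact lt_of_lt_of_le hj hi
    have hdpow : ∀ k : ℕ, S.d (gen deg x ^ k) ∈
        Algebra.adjoin ℚ (gen deg '' {j | deg j < deg x₂}) := by
      intro k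
      cases k with
      | zero =>
        rw [pow_zero, d_one S.isDifferential]
        exact zero_mem _
      | succ k =>
        rw [d_pow_even S.isDifferential (sgn_gen_even hxe)]
        exact Subalgebra.smul_mem _ (mul_mem (pow_mem hxB k) (hdB x (by omega))) _
    have hsp : ∀ k : ℕ, sgn deg (gen deg x ^ k) = gen deg x ^ k := by
      intro k
      rw [map_pow, sgn_gen_even hxe]
    refine te_core S.isDifferential S.sullivan hxe F1 F4 hε1 Y (fun i hi => hi.1.1)
      (fun i hi => hi.1.2) (gen deg z₀) hodd0 (hε2 z₀ hxz') (Or.inr ?_) r ?_ hrY' ?_ ?_ ?_ ?_ ?_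
    · rw [hc z₀]
      intro h0
      exact hz3 (Polynomial.monomial_eq_zero_iff _ _ |>.1 h0)
    · intro i
      by_cases hi : i ∈ Y
      · rw [hrY i hi]
        by_cases hci : c i = 0
        · rw [hci, zero_div, zero_smul]
          exact zero_mem _
        · refine Submodule.smul_mem _ _ ?_
          have h1 := mul_mem_hom deg (hpow (m i)) (gen_mem_hom deg z₀)
          have h2 : m i * deg x + deg z₀ = deg i := by
            have h3 := hmul i hci
            have h4 := hmul z₀ hz3
            have h5 := hle i hi hci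
            have h6 : m i + (deg z₀ + 1) / deg x = (deg i + 1) / deg x := by
              rw [hm]
              exact Nat.sub_add_cancel h5
            have h7 : (m i + (deg z₀ + 1) / deg x) * deg x = deg i + 1 := by rw [h6, h3]
            rw [add_mul, h4] at h7
            omega
          rwa [h2] at h1
      · rw [hrY' i hi]
        exact gen_mem_hom deg i
    · intro i hi hi'
      by_cases hiz : i = z₀
      · refine ⟨1, ?_⟩
        have h1 : i ∉ Y := fun h => h.2 hiz
        rw [hrY' i h1, map_one, one_mul, hiz]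
      · refine ⟨Polynomial.C (c i / c z₀) * Polynomial.X ^ m i, ?_⟩
        rw [hrY i ⟨⟨hi, hi'⟩, hiz⟩, map_mul, Polynomial.aeval_C, map_pow, Polynomial.aeval_X,
          Algebra.algebraMap_eq_smul_one, smul_one_mul, smul_mul_assoc]
    · intro i hi
      rw [hrY i hi]
      have h1 : gen deg x ∈ Algebra.adjoin ℚ (gen deg '' Yᶜ) :=
        Algebra.subset_adjoin ⟨x, fun h => (Nat.not_even_iff_odd.2 h.1.1) hxe, rfl⟩
      have h2 : gen deg z₀ ∈ Algebra.adjoin ℚ (gen deg '' Yᶜ) :=
        Algebra.subset_adjoin ⟨z₀, fun h => h.2 rfl, rfl⟩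
      exact Subalgebra.smul_mem _ (mul_mem (pow_mem h1 _) h2) _
    · intro i hi
      refine hε2 i ?_
      rintro rfl
      exact (Nat.not_even_iff_odd.2 hi.1.1) hxe
    · intro i hi
      rw [hrY i hi, map_smul, d_mul S.isDifferential, hsp]
      exact Subalgebra.smul_mem _ (add_mem (mul_mem (hdpow _) hzB)
        (mul_mem (pow_mem hxB _) (hdB z₀ hz2.le))) _
    · intro i hi
      rw [hrY i hi, map_smul, d_mul S.isDifferential, hsp, map_smul, map_add, map_mul, map_mul,
        hε2 z₀ hxz', mul_zero, zero_add, map_pow, hε1, hc z₀, hc i]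
      by_cases hci : c i = 0
      · rw [hci, zero_div, zero_smul, map_zero]
      · have h6 : m i + (deg z₀ + 1) / deg x = (deg i + 1) / deg x := by
          rw [hm]
          exact Nat.sub_add_cancel (hle i hi hci)
        rw [← Polynomial.monomial_one_right_eq_X_pow, Polynomial.monomial_mul_monomial,
          Polynomial.smul_monomial, h6, one_mul, smul_eq_mul, div_mul_cancel₀ _ hz3]
  · -- all coefficients are zero
    set Y : Set ι := {z | Odd (deg z) ∧ deg z < deg x₂} with hYdef
    set r : ι → Lam deg := fun i => if i ∈ Y then 0 else gen deg i with hrdef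
    have hrY : ∀ i ∈ Y, r i = 0 := fun i hi => by rw [hrdef]; exact if_pos hi
    have hrY' : ∀ i, i ∉ Y → r i = gen deg i := fun i hi => by rw [hrdef]; exact if_neg hi
    clear_value r
    refine te_core S.isDifferential S.sullivan hxe F1 F4 hε1 Y (fun i hi => hi.1)
      (fun i hi => hi.2) 0 (by rw [map_zero, neg_zero]) (map_zero ε) (Or.inl rfl) r ?_ hrY' ?_ ?_ ?_ ?_ ?_
    · intro i
      by_cases hi : i ∈ Y
      · rw [hrY i hi]
        exact zero_mem _
      · rw [hrY' i hi]
        exact gen_mem_hom deg i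
    · intro i hi hi'
      exact ⟨0, by rw [hrY i ⟨hi, hi'⟩, mul_zero]⟩
    · intro i hi
      rw [hrY i hi]
      exact zero_mem _
    · intro i hi
      refine hε2 i ?_
      rintro rfl
      exact (Nat.not_even_iff_odd.2 hi.1) hxe
    · intro i hi
      rw [hrY i hi, map_zero]
      exact zero_mem _
    · intro i hi
      have h1 : c i = 0 := by
        by_contra h
        exact hb ⟨i, hi.1, hi.2, h⟩
      rw [hrY i hi, hc i, h1, map_zero, map_zero, map_zero]

end Anick2
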