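import Pool.Agent.Helper2.AN.BaseNil
import Pool.Agent.Helper2.AN.Tower
import Pool.Agent.Helper2.AN.Extract
import Pool.Agent.Helper2.AN.KFin
import Pool.Agent.Helper2.AN.GenEquiv
import Pool.Agent.Helper2.AN.Conj
import Pool.Agent.Helper2.AN.TwoEven

/-!
AN-17 (project AN, MP_5f0082_gt). The theorem.

Proof of `anick_tame`. `g`, `Y` from `Tame`. `Φ` from `gen_equiv` (`1 ≤ 2 ≤ deg i`), `S₁` from `conj_sullivan`: `S₁.d a = Φ.symm (S.d (Φ a))`. For `S₁` the hypotheses hold with `gen` instead of `g`: `Φ.symm (g i) = gen i`,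
`Φ.symm` maps `idealSpan (g '' Y)` into `idealSpan (gen '' Y)` (span induction) and the same with `g i₁`, `g i₂` adjoined; flat systems: `Φ.symm ∘ e`, `Φ.symm (ω i j)` (`graded_sgn`, `graded_lamPos` for `Φ.symm`).
Let `n' = 2 * n + 3` (odd, `≥ 3`, `≥ n`). `exists_odd_tower S₁` gives `κ, deg', d`; `base_nil` gives the nilpotency for each even `i`; `extract` gives `m, deg'', S₂` with `S₁.IsExtension S₂`; the even generators of `S₂` are the `inl i`, `deg i`
even, so `coh_finite` gives `S₂.CohomologyFinite`; `conj_back` gives `S₃`.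
`two_tame`: `two_even`, and `S.d (g t) ∈ I` gives a flat system with `s = 1`, `e = g t`, `ω = 0` (`g t ∈ hom (deg t)` is even and in `lamPos`: `sgn_hom`; a homogeneous element of positive degree is in `lamPos`, as `hom (deg t)` is spanned by
monomials of positive degree).
-/

set_option autoImplicit false

namespace Anick2

attribute [local irreducible] instRingLam

private theorem symm_idealSpan {ι : Type} {deg : ι → ℕ} (Φ : Lam deg →ₐ[ℚ] Lam deg)
    {s s' : Set (Lam deg)} (h : ∀ a ∈ s, Φ a ∈ s') {a : Lam deg} (ha : a ∈ idealSpan s) :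
    Φ a ∈ idealSpan s' := by
  unfold idealSpan at ha ⊢
  induction ha using Submodule.span_induction with
  | mem x hx =>
    obtain ⟨p, v, q, hv, rfl⟩ := hx
    refine Submodule.subset_span ⟨Φ p, Φ v, Φ q, h v hv, ?_⟩
    rw [map_mul, map_mul]
  | zero => rw [map_zero]; exact zero_mem _
  | add y z _ _ hy hz => rw [map_add]; exact add_mem hy hz
  | smul r y _ hy => rw [map_smul]; exact Submodule.smul_mem _ _ hy

private theorem hom_lamPos {ι : Type} {deg : ι → ℕ} {m : ℕ} (hm : 1 ≤ m) {a : Lam deg}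
    (ha : a ∈ hom deg m) : a ∈ lamPos deg := by
  refine hom_induction deg (C := fun a => a ∈ lamPos deg) (fun l hl => ?_) (zero_mem _)
    (fun a b ha hb => add_mem ha hb) (fun r a ha => Submodule.smul_mem _ _ ha) ha
  refine Submodule.subset_span ⟨l, ?_, rfl⟩
  rintro rfl
  rw [degSum_nil] at hl
  omega

theorem anick_tame {ι : Type} [Finite ι] {deg : ι → ℕ} (S : MinimalSullivan deg) (h : S.Tame)
    (n : ℕ) :
    ∃ (m : ℕ) (deg' : Fin m → ℕ) (S' : MinimalSullivan (Sum.elim deg deg')),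
      (∀ j, n ≤ deg' j ∧ Odd (deg' j)) ∧ S.IsExtension S' ∧ S'.CohomologyFinite := by
  obtain ⟨g, Y, hg, hY, ht⟩ := h
  have h1 : ∀ i, 1 ≤ deg i := fun i => le_trans (by norm_num) (S.two_le i)
  obtain ⟨Φ, hΦg, hΦ, hΦs⟩ := gen_equiv h1 hg
  obtain ⟨S₁, hS₁⟩ := conj_sullivan S Φ hΦ hΦs
  have hsg : ∀ i, Φ.symm (g i) = gen deg i := fun i => by
    rw [← hΦg i]; exact Φ.symm_apply_apply _
  have hY1 : ∀ a ∈ g '' Y, Φ.symm a ∈ gen deg '' Y := by
    rintro _ ⟨y, hy, rfl⟩
    exact ⟨y, hy, (hsg y).symm⟩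
  have hI : ∀ a, a ∈ idealSpan (g '' Y) → Φ.symm a ∈ idealSpan (gen deg '' Y) := fun a ha =>
    symm_idealSpan (Φ.symm : Lam deg →ₐ[ℚ] Lam deg) hY1 ha
  have hdgen : ∀ i, S₁.d (gen deg i) = Φ.symm (S.d (g i)) := fun i => by
    rw [hS₁, hΦg]
  have hdsymm : ∀ a, S₁.d (Φ.symm a) = Φ.symm (S.d a) := fun a => by
    rw [hS₁, Φ.apply_symm_apply]
  have hY' : ∀ y ∈ Y, Odd (deg y) ∧ S₁.d (gen deg y) ∈ idealSpan (gen deg '' Y) := by
    intro y hy
    refine ⟨(hY y hy).1, ?_⟩
    rw [hdgen]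
    exact hI _ (hY y hy).2
  have ht' : ∀ i, Even (deg i) → FlatElem S₁.d (idealSpan (gen deg '' Y)) (gen deg i) ∨
      PairElem S₁.d (gen deg) Y (gen deg i) := by
    intro i hi
    rcases ht i hi with ⟨s, e, ω, k, hf, hk⟩ | ⟨i₁, i₂, hne, he1, he2, h1', h2', h3'⟩
    · left
      have hsgn : ∀ a, Φ.symm (sgn deg a) = sgn deg (Φ.symm a) := fun a =>
        graded_sgn (Φ := (Φ.symm : Lam deg →ₐ[ℚ] Lam deg)) hΦs a
      refine ⟨s, fun i => Φ.symm (e i), fun i j => Φ.symm (ω i j), k, ⟨?_, ?_, ?_, ?_, ?_, ?_⟩, ?_⟩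
      · intro i
        rw [← hsgn, hf.even]
      · intro i
        exact graded_lamPos h1 (Φ := (Φ.symm : Lam deg →ₐ[ℚ] Lam deg)) hΦs (hf.pos i)
      · intro i j
        rw [← hsgn, hf.odd, map_neg]
      · intro i j hij
        change Φ.symm (ω i j) = 0
        rw [hf.tri i j hij, map_zero]
      · intro i
        have := hI _ (hf.de i)
        rw [map_sub, map_sum] at this
        rw [hdsymm]
        simpa only [map_mul] using this
      · intro i j
        have := hI _ (hf.dω i j)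
        rw [map_sub, map_sum] at this
        rw [hdsymm]
        simpa only [map_mul] using this
      · change Φ.symm (e k) = _
        rw [hk, hsg]
    · right
      refine ⟨i₁, i₂, hne, he1, he2, ?_, ?_, ?_⟩
      · rw [hdgen]; exact hI _ h1'
      · rw [hdgen]
        refine symm_idealSpan (Φ.symm : Lam deg →ₐ[ℚ] Lam deg) ?_ h2'
        rintro a (ha | ha)
        · exact Or.inl (hY1 a ha)
        · right
          rw [Set.mem_singleton_iff] at ha ⊢
          rw [ha]; exact hsg i₁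
      · rw [hdgen]
        refine symm_idealSpan (Φ.symm : Lam deg →ₐ[ℚ] Lam deg) ?_ h3'
        rintro a (ha | ha)
        · exact Or.inl (hY1 a ha)
        · right
          rcases ha with rfl | ha
          · left; exact hsg i₁
          · right
            rw [Set.mem_singleton_iff] at ha ⊢
            rw [ha]; exact hsg i₂
  obtain ⟨κ, deg', d, hk, hfin, hd, hP, hS⟩ :=
    exists_odd_tower S₁ (n := 2 * n + 3) ⟨n + 1, by ring⟩ (by omega)
  have hnil : ∀ i, Even (deg i) →
      ∃ M, gen (Sum.elim deg deg') (Sum.inl i) ^ M ∈ JJ (Sum.elim deg deg') d :=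
    fun i hi => base_nil S₁ hY' hi (ht' i hi) hd hP hS
  obtain ⟨m, deg'', S₂, hm, hext, hnil2⟩ := extract S₁ hk hfin hd hS hnil
  have hc : S₂.CohomologyFinite := by
    apply coh_finite
    rintro (i | j) hi
    · exact hnil2 i hi
    · exfalso
      have h1 : Even (deg'' j) := hi
      exact Nat.not_even_iff_odd.2 (hm j).2 h1
  obtain ⟨S₃, h3, h4⟩ := conj_back S S₁ Φ hΦ hΦs hS₁ S₂ hext hc
  exact ⟨m, deg'', S₃, fun j => ⟨by have := (hm j).1; omega, (hm j).2⟩, h3, h4⟩

theorem two_tame {ι : Type} [Finite ι] {deg : ι → ℕ} (S : MinimalSullivan deg)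
    (h : {i | Even (deg i)}.ncard ≤ 2) : S.Tame := by
  obtain ⟨g, Y, hg, hY, ht⟩ := two_even S h
  refine ⟨g, Y, hg, hY, fun t ht' => Or.inl ⟨1, fun _ => g t, fun _ _ => 0, 0,
    ⟨?_, ?_, ?_, ?_, ?_, ?_⟩, rfl⟩⟩
  · intro i
    change sgn deg (g t) = g t
    rw [sgn_hom deg (hg.mem t), ht'.neg_one_pow, one_smul]
  · intro i
    exact hom_lamPos (le_trans (by norm_num) (S.two_le t)) (hg.mem t)
  · intro i j
    change sgn deg 0 = -0
    rw [map_zero, neg_zero]
  · intro i j _
    rfl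
  · intro i
    simpa using ht t ht'
  · intro i j
    simp

theorem anick {ι : Type} [Finite ι] {deg : ι → ℕ} (S : MinimalSullivan deg)
    (h : {i | Even (deg i)}.ncard ≤ 2 ∨ S.Tame) (n : ℕ) :
    ∃ (m : ℕ) (deg' : Fin m → ℕ) (S' : MinimalSullivan (Sum.elim deg deg')),
      (∀ j, n ≤ deg' j ∧ Odd (deg' j)) ∧ S.IsExtension S' ∧ S'.CohomologyFinite :=
  anick_tame S (h.elim (two_tame S) id) n

end Anick2
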