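import Pool.Agent.Helper2.GCA.Lam

/-!
Definitions for the statement of the theorem on Anick's conjecture: relative Sullivan algebras,
finite-dimensional cohomology, systems of generators, flat triangular systems, pairs.

`A` is a graded `ℚ`-algebra with homogeneous components `H n`, `P` the ideal of the elements without
constant term (`A = ΛW`, `H n = hom deg n`, `P = Λ⁺W = lamPos deg`).
-/

set_option autoImplicit false

namespace Anick2

section general
variable {A B : Type} [Ring A] [Algebra ℚ A] [Ring B] [Algebra ℚ B] {ι : Type}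

/-- The cohomology of `(A, d)` is finite-dimensional. -/
def CohFin (d : A →ₗ[ℚ] A) : Prop :=
  Module.Finite ℚ (LinearMap.ker d ⧸ (LinearMap.range d).comap (LinearMap.ker d).subtype)

/-- The homomorphism of algebras `A → B` which maps the generators `v i` to `v' i` commutes with the
differentials. -/
def Extends (v : ι → A) (v' : ι → B) (d : A →ₗ[ℚ] A) (d' : B →ₗ[ℚ] B) : Prop :=
  ∃ J : A →ₐ[ℚ] B, (∀ i, J (v i) = v' i) ∧ ∀ a, d' (J a) = J (d a)

/-- The odd part `⨁_n A^{2n+1}` of a graded algebra with homogeneous components `H n = A^n`. -/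
noncomputable def oddPart (H : ℕ → Submodule ℚ A) : Submodule ℚ A := ⨆ n : ℕ, H (2 * n + 1)

/-- The `g i` are homogeneous generators of `A`, `g i` of degree `deg i`. -/
structure IsGens (H : ℕ → Submodule ℚ A) (deg : ι → ℕ) (g : ι → A) : Prop where
  mem : ∀ i, g i ∈ H (deg i)
  adjoin : Algebra.adjoin ℚ (Set.range g) = ⊤

/-- Modulo `I`, the even elements `e i ∈ P` and the odd elements `ω i j` (`j < i`) satisfy
`d e_i = ∑_j ω_ij e_j` and `d ω_ij = ∑_l ω_il ω_lj` (a flat strictly triangular connection). -/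
structure FlatSys (H : ℕ → Submodule ℚ A) (P : Submodule ℚ A) (d : A →ₗ[ℚ] A) (I : Submodule ℚ A)
    {s : ℕ} (e : Fin s → A) (ω : Fin s → Fin s → A) : Prop where
  even : ∀ i, e i ∈ evenPart H ⊓ P
  odd : ∀ i j, ω i j ∈ oddPart H
  tri : ∀ i j, ¬ j < i → ω i j = 0
  de : ∀ i, d (e i) - ∑ j, ω i j * e j ∈ I
  dω : ∀ i j, d (ω i j) - ∑ l, ω i l * ω l j ∈ I

/-- `t` belongs to a flat triangular system modulo `I`. -/
def InFlatSys (H : ℕ → Submodule ℚ A) (P : Submodule ℚ A) (d : A →ₗ[ℚ] A) (I : Submodule ℚ A)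
    (t : A) : Prop :=
  ∃ (s : ℕ) (e : Fin s → A) (ω : Fin s → Fin s → A) (k : Fin s), FlatSys H P d I e ω ∧ e k = t

/-- There are two different even generators `x₁ = g i₁`, `x₂ = g i₂` with `d x₁ ∈ (Y)`,
`d x₂ ∈ (Y, x₁)` and `d t ∈ (Y, x₁, x₂)`. -/
def OnPair (deg : ι → ℕ) (d : A →ₗ[ℚ] A) (g : ι → A) (Y : Set ι) (t : A) : Prop :=
  ∃ i₁ i₂ : ι, i₁ ≠ i₂ ∧ Even (deg i₁) ∧ Even (deg i₂) ∧ d (g i₁) ∈ idealSpan (g '' Y) ∧
    d (g i₂) ∈ idealSpan (g '' Y ∪ {g i₁}) ∧ d t ∈ idealSpan (g '' Y ∪ {g i₁, g i₂})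

/-- There are homogeneous generators `g i` and a set `Y` of odd ones among them which generate a
differential ideal `(Y)`, such that each even generator belongs to a flat triangular system modulo
`(Y)` or lies on a pair. -/
def IsTame (H : ℕ → Submodule ℚ A) (P : Submodule ℚ A) (deg : ι → ℕ) (d : A →ₗ[ℚ] A) : Prop :=
  ∃ (g : ι → A) (Y : Set ι), IsGens H deg g ∧
    (∀ y ∈ Y, Odd (deg y) ∧ d (g y) ∈ idealSpan (g '' Y)) ∧
    ∀ t, Even (deg t) → InFlatSys H P d (idealSpan (g '' Y)) (g t) ∨ OnPair deg d g Y (g t)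

end general

variable {ι κ : Type}

/-- `Λ⁺W`: the span of the nonempty monomials. -/
noncomputable def lamPlus (deg : ι → ℕ) : Submodule ℚ (Lam deg) :=
  Submodule.span ℚ {a | ∃ l : List ι, l ≠ [] ∧ a = mon deg l}

/-- `S'` is a relative Sullivan algebra over `S`: the differential of `ΛW ⊗ ΛV = Λ(W ⊕ V)` extends the
differential of `ΛW`. -/
def MinimalSullivan.IsExt {deg : ι → ℕ} {deg' : κ → ℕ} (S : MinimalSullivan deg)
    (S' : MinimalSullivan (Sum.elim deg deg')) : Prop :=
  Extends (gen deg) (fun i => gen (Sum.elim deg deg') (Sum.inl i)) S.d S'.d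

end Anick2
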