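import Pool.Agent.Helper2.AN.Final
import Pool.Agent.Helper2.AN.Stmt2

/-!
The theorem of project AN in terms of the short definitions of `Stmt2`.
-/

set_option autoImplicit false

namespace Anick2

attribute [local irreducible] instRingLam

private theorem sgn_even {ι : Type} {deg : ι → ℕ} {a : Lam deg} (ha : a ∈ evenPart (hom deg)) :
    sgn deg a = a := by
  unfold evenPart at ha
  induction ha using Submodule.iSup_induction' with
  | mem n a ha =>
    rw [sgn_hom deg ha, (even_two_mul n).neg_one_pow, one_smul]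
  | zero => rw [map_zero]
  | add a b _ _ iha ihb => rw [map_add, iha, ihb]

private theorem sgn_odd {ι : Type} {deg : ι → ℕ} {a : Lam deg} (ha : a ∈ oddPart (hom deg)) :
    sgn deg a = -a := by
  unfold oddPart at ha
  induction ha using Submodule.iSup_induction' with
  | mem n a ha =>
    rw [sgn_hom deg ha, (odd_two_mul_add_one n).neg_one_pow, neg_one_smul]
  | zero => rw [map_zero, neg_zero]
  | add a b _ _ iha ihb => rw [map_add, iha, ihb, neg_add]

theorem tame_of_isTame {ι : Type} {deg : ι → ℕ} (S : MinimalSullivan deg)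
    (h : IsTame (hom deg) (lamPlus deg) deg S.d) : S.Tame := by
  obtain ⟨g, Y, hg, hY, ht⟩ := h
  refine ⟨g, Y, ⟨hg.mem, hg.adjoin⟩, hY, fun t hte => ?_⟩
  rcases ht t hte with ⟨s, e, ω, k, hf, hk⟩ | h1
  · exact Or.inl ⟨s, e, ω, k, ⟨fun i => sgn_even (hf.even i).1, fun i => (hf.even i).2,
      fun i j => sgn_odd (hf.odd i j), hf.tri, hf.de, hf.dω⟩, hk⟩
  · exact Or.inr h1

theorem anick' {ι : Type} [Finite ι] {deg : ι → ℕ} (S : MinimalSullivan deg)
    (h : {i | Even (deg i)}.ncard ≤ 2 ∨ IsTame (hom deg) (lamPlus deg) deg S.d) (n : ℕ) :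
    ∃ (m : ℕ) (deg' : Fin m → ℕ) (S' : MinimalSullivan (Sum.elim deg deg')),
      (∀ j, n ≤ deg' j ∧ Odd (deg' j)) ∧ S.IsExt S' ∧ CohFin S'.d := by
  obtain ⟨m, deg', S', h1, h2, h3⟩ := anick S (h.imp id (tame_of_isTame S)) n
  refine ⟨m, deg', S', h1, ⟨inclSum deg deg', fun i => ?_, h2⟩, h3⟩
  unfold inclSum
  rw [Lam.lift_gen]

end Anick2
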