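import Pool.Agent.Helper2.AN.Facts

/-!
AN-05 (project AN, MP_5f0082_gt). The elements of a flat triangular system are nilpotent modulo `JJ`.

Proof. A system (`Sys`) of weight `k` on a finite index set `A` with a height function: even elements
`e a ∈ FW k`, odd elements `ω a b` (zero unless `b` is lower than `a`) with `d e_a = ∑ ω_ab e_b`,
`d ω_ab = ∑ ω_ac ω_cb`. The product of two systems (index set `A × B`, elements `e_a e'_b`, connection
`ω ⊗ 1 + 1 ⊗ ω'`) is again one (the mixed terms cancel by `odd_anti`), so the `N`-th power of `e k`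
belongs to a system of weight `N` (`exists_pow`). If the weight is at least `n + 1`, then there are
odd `U a ∈ FW n` with `d U_a = e_a + ∑ ω_ab U_b` (`exists_U`, induction on the height: the right hand
side is closed), so `e_a = d U_a - ∑ ω_ab U_b ∈ JJ`.
-/

set_option autoImplicit false

namespace Anick2

attribute [local irreducible] instRingLam

private structure Sys {ι : Type} {deg : ι → ℕ} (wt : ι → ℕ) (d : Lam deg →ₗ[ℚ] Lam deg) (k : ℕ)
    {A : Type} [Fintype A] (e : A → Lam deg) (ω : A → A → Lam deg) (ht : A → ℕ) : Prop where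
  even : ∀ a, sgn deg (e a) = e a
  mem : ∀ a, e a ∈ FW deg wt k
  odd : ∀ a b, sgn deg (ω a b) = -ω a b
  tri : ∀ a b, ¬ ht b < ht a → ω a b = 0
  de : ∀ a, d (e a) = ∑ b, ω a b * e b
  dω : ∀ a b, d (ω a b) = ∑ c, ω a c * ω c b

private theorem Sys.prod {ι : Type} {deg wt : ι → ℕ} {d : Lam deg →ₗ[ℚ] Lam deg}
    (hd : IsDifferential (hom deg) d) {k l : ℕ} {A B : Type} [Fintype A] [Fintype B]
    [DecidableEq A] [DecidableEq B]
    {e : A → Lam deg} {ω : A → A → Lam deg} {ht : A → ℕ}
    {e' : B → Lam deg} {ω' : B → B → Lam deg} {ht' : B → ℕ}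
    (h : Sys wt d k e ω ht) (h' : Sys wt d l e' ω' ht') :
    Sys wt d (k + l) (fun p : A × B => e p.1 * e' p.2)
      (fun p q : A × B => (if p.2 = q.2 then ω p.1 q.1 else 0) + (if p.1 = q.1 then ω' p.2 q.2 else 0))
      (fun p : A × B => ht p.1 + ht' p.2) := by
  refine ⟨fun p => ?_, fun p => ?_, fun p q => ?_, fun p q hpq => ?_, fun p => ?_, fun p q => ?_⟩
  · rw [map_mul, h.even, h'.even]
  · exact FW_mul (h.mem _) (h'.mem _)
  · rw [map_add, neg_add]
    congr 1
    · split
      · exact h.odd _ _
      · rw [map_zero, neg_zero]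
    · split
      · exact h'.odd _ _
      · rw [map_zero, neg_zero]
  · have h1 : (if p.2 = q.2 then ω p.1 q.1 else 0) = 0 := by
      split
      · rename_i hh
        apply h.tri
        rw [hh] at hpq
        omega
      · rfl
    have h2 : (if p.1 = q.1 then ω' p.2 q.2 else 0) = 0 := by
      split
      · rename_i hh
        apply h'.tri
        rw [hh] at hpq
        omega
      · rfl
    rw [h1, h2, add_zero]
  · rw [d_mul hd, h.even, h.de, h'.de, Fintype.sum_prod_type]
    simp only [add_mul, Finset.sum_add_distrib, ite_mul, zero_mul]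
    congr 1
    · rw [Finset.sum_mul]
      refine Finset.sum_congr rfl fun a _ => ?_
      rw [Finset.sum_ite_eq, if_pos (Finset.mem_univ _), mul_assoc]
    · rw [Finset.sum_comm, Finset.mul_sum]
      refine Finset.sum_congr rfl fun b _ => ?_
      rw [Finset.sum_ite_eq, if_pos (Finset.mem_univ _), ← mul_assoc, ← mul_assoc,
        even_comm (h.even _)]
  · obtain ⟨a, b⟩ := p
    obtain ⟨a', b'⟩ := q
    simp only
    rw [map_add, Fintype.sum_prod_type]
    have e1 : d (if b = b' then ω a a' else 0) = if b = b' then ∑ c, ω a c * ω c a' else 0 := by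
      split
      · exact h.dω _ _
      · exact map_zero d
    have e2 : d (if a = a' then ω' b b' else 0) = if a = a' then ∑ c, ω' b c * ω' c b' else 0 := by
      split
      · exact h'.dω _ _
      · exact map_zero d
    rw [e1, e2]
    have hterm : ∀ x : A, ∀ y : B,
        ((if b = y then ω a x else 0) + (if a = x then ω' b y else 0)) *
          ((if y = b' then ω x a' else 0) + (if x = a' then ω' y b' else 0))
        = (if y = b' then if b = y then ω a x * ω x a' else 0 else 0)
          + (if x = a' then if b = y then ω a x * ω' y b' else 0 else 0)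
          + (if y = b' then if a = x then ω' b y * ω x a' else 0 else 0)
          + (if x = a' then if a = x then ω' b y * ω' y b' else 0 else 0) := by
      intro x y
      rw [add_mul, mul_add, mul_add]
      simp only [ite_mul, mul_ite, zero_mul, mul_zero]
      abel
    simp only [hterm, Finset.sum_add_distrib]
    have s1 : ∑ x : A, ∑ y : B, (if y = b' then if b = y then ω a x * ω x a' else 0 else 0)
        = if b = b' then ∑ c, ω a c * ω c a' else 0 := by
      rw [Finset.sum_comm, Finset.sum_eq_single b' (fun y _ hy => by simp [hy]) (by simp)]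
      by_cases hb : b = b'
      · simp [hb]
      · simp [hb]
    have s2 : ∑ x : A, ∑ y : B, (if x = a' then if b = y then ω a x * ω' y b' else 0 else 0)
        = ω a a' * ω' b b' := by
      rw [Finset.sum_eq_single a' (fun y _ hy => by simp [hy]) (by simp)]
      simp
    have s3 : ∑ x : A, ∑ y : B, (if y = b' then if a = x then ω' b y * ω x a' else 0 else 0)
        = ω' b b' * ω a a' := by
      rw [Finset.sum_comm, Finset.sum_eq_single b' (fun y _ hy => by simp [hy]) (by simp)]
      simp
    have s4 : ∑ x : A, ∑ y : B, (if x = a' then if a = x then ω' b y * ω' y b' else 0 else 0)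
        = if a = a' then ∑ c, ω' b c * ω' c b' else 0 := by
      rw [Finset.sum_eq_single a' (fun y _ hy => by simp [hy]) (by simp)]
      by_cases ha : a = a'
      · simp [ha]
      · simp [ha]
    rw [s1, s2, s3, s4, odd_anti (h'.odd b b') (h.odd a a')]
    abel

private theorem exists_pow {ι : Type} {deg wt : ι → ℕ} {d : Lam deg →ₗ[ℚ] Lam deg}
    (hd : IsDifferential (hom deg) d) {A : Type} [Fintype A] [DecidableEq A]
    {e : A → Lam deg} {ω : A → A → Lam deg} {ht : A → ℕ} (h : Sys wt d 1 e ω ht) (a : A) (N : ℕ) :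
    ∃ (B : Type) (_ : Fintype B) (_ : DecidableEq B) (e' : B → Lam deg) (ω' : B → B → Lam deg)
      (ht' : B → ℕ) (b : B), Sys wt d N e' ω' ht' ∧ e' b = e a ^ N := by
  induction N with
  | zero =>
    refine ⟨Unit, inferInstance, inferInstance, fun _ => 1, fun _ _ => 0, fun _ => 0, (), ?_, ?_⟩
    · refine ⟨fun _ => map_one _, fun _ => ?_, fun _ _ => ?_, fun _ _ _ => rfl, fun _ => ?_,
        fun _ _ => ?_⟩
      · rw [FW_zero]; trivial
      · rw [map_zero, neg_zero]
      · rw [d_one hd]; simp
      · rw [map_zero]; simp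
    · rw [pow_zero]
  | succ N ih =>
    obtain ⟨B, iB, iD, e', ω', ht', b, hB, hb⟩ := ih
    exact ⟨B × A, inferInstance, inferInstance, _, _, _, (b, a), hB.prod hd h, by
      simp only; rw [hb, pow_succ]⟩

private theorem exists_U {ι : Type} {deg wt : ι → ℕ} {d : Lam deg →ₗ[ℚ] Lam deg} {n : ℕ}
    (hd : Dat deg wt d) (hP : Kills deg wt n d) {A : Type} [Fintype A]
    {e : A → Lam deg} {ω : A → A → Lam deg} {ht : A → ℕ} (h : Sys wt d (n + 1) e ω ht) (H : ℕ) :
    ∃ U : A → Lam deg, ∀ a, ht a < H → sgn deg (U a) = -U a ∧ U a ∈ FW deg wt n ∧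
      d (U a) = e a + ∑ b, ω a b * U b := by
  classical
  induction H with
  | zero => exact ⟨fun _ => 0, fun a ha => by omega⟩
  | succ H ih =>
    obtain ⟨U, hU⟩ := ih
    have key : ∀ a, ht a < H + 1 → ∃ u : Lam deg, sgn deg u = -u ∧ u ∈ FW deg wt n ∧
        d u = e a + ∑ b, ω a b * U b := by
      intro a ha
      have hlow : ∀ b, ω a b = 0 ∨ ht b < H := by
        intro b
        by_cases hb : ht b < ht a
        · right; omega
        · left; exact h.tri a b hb
      apply hP
      · rw [map_add, h.even, map_sum]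
        congr 1
        refine Finset.sum_congr rfl fun b _ => ?_
        rcases hlow b with hb | hb
        · rw [hb, zero_mul, map_zero]
        · rw [map_mul, h.odd, (hU b hb).1, neg_mul_neg]
      · refine add_mem (h.mem a) (sum_mem fun b _ => ?_)
        rcases hlow b with hb | hb
        · rw [hb, zero_mul]; exact zero_mem _
        · rw [add_comm n 1]
          exact FW_mul (lamPos_le hd.one_le (odd_pos (h.odd a b))) (hU b hb).2.1
      · have h1 : ∀ b, d (ω a b * U b) = (∑ c, ω a c * ω c b) * U b
            - ω a b * e b - ω a b * ∑ c, ω b c * U c := by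
          intro b
          rcases hlow b with hb | hb
          · rw [← h.dω, hb]
            simp
          · rw [d_mul hd.diff, h.dω, h.odd, (hU b hb).2.2, neg_mul, mul_add]
            abel
        rw [map_add, map_sum, h.de]
        simp only [h1, Finset.sum_sub_distrib]
        have h2 : ∑ b, (∑ c, ω a c * ω c b) * U b = ∑ b, ω a b * ∑ c, ω b c * U c := by
          simp only [Finset.sum_mul, Finset.mul_sum]
          rw [Finset.sum_comm]
          refine Finset.sum_congr rfl fun b _ => Finset.sum_congr rfl fun c _ => ?_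
          rw [mul_assoc]
        rw [h2]
        abel
    choose u hu using key
    refine ⟨fun a => if ha : ht a = H then u a (by omega) else U a, fun a ha => ?_⟩
    have hsum : ∑ b, ω a b * (if hb : ht b = H then u b (by omega) else U b)
        = ∑ b, ω a b * U b := by
      refine Finset.sum_congr rfl fun b _ => ?_
      by_cases hb : ht b < ht a
      · rw [dif_neg (by omega)]
      · rw [h.tri a b hb, zero_mul, zero_mul]
    simp only [hsum]
    by_cases hh : ht a = H
    · simp only [dif_pos hh]
      exact hu a (by omega)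
    · simp only [dif_neg hh]
      exact hU a (by omega)

theorem flat_nil {ι : Type} {deg wt : ι → ℕ} {d : Lam deg →ₗ[ℚ] Lam deg} {n : ℕ}
    (hd : Dat deg wt d) (hP : Kills deg wt n d) {s : ℕ} {e : Fin s → Lam deg}
    {ω : Fin s → Fin s → Lam deg} (h : FlatMod d ⊥ e ω) (k : Fin s) :
    e k ^ (n + 1) ∈ JJ deg d := by
  have hS : Sys wt d 1 e ω (fun i : Fin s => (i : ℕ)) := by
    refine ⟨h.even, fun a => lamPos_le hd.one_le (h.pos a), h.odd, fun a b hab => h.tri a b hab,
      fun a => ?_, fun a b => ?_⟩
    · have := h.de a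
      rw [Submodule.mem_bot] at this
      exact sub_eq_zero.1 this
    · have := h.dω a b
      rw [Submodule.mem_bot] at this
      exact sub_eq_zero.1 this
  obtain ⟨B, iB, iD, e', ω', ht', b, hB, hb⟩ := exists_pow hd.diff hS k (n + 1)
  obtain ⟨U, hU⟩ := exists_U hd hP hB (ht' b + 1)
  rw [← hb]
  obtain ⟨-, -, h3⟩ := hU b (by omega)
  have h4 : e' b = d (U b) - ∑ c, ω' b c * U c := by rw [h3]; abel
  rw [h4]
  exact sub_mem (d_mem_JJ _) (sum_mem fun c _ => JJ_right (odd_mem_JJ (hB.odd b c)) _)

end Anick2
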