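import Pool.Agent.Helper2.AN.Facts

/-!
AN-11 (project AN, MP_5f0082_gt). If the even generators are nilpotent modulo `JJ`, then `ΛV` is, modulo the ideal generated by
the (even, central) elements `d (gen k)`, `k` odd, spanned by finitely many homogeneous elements.

Proof. `O = {k | Odd (deg k)}`.
(1) `p : Lam deg →ₐ MvPolynomial ι ℚ`, `gen i ↦ X i` for `deg i` even, `gen i ↦ 0` for `deg i` odd (`Lam.lift`; the target is commutative, the signs are `1` for two even
    generators). `p` vanishes on odd elements (an odd monomial contains an odd generator). Let `𝔭` be the ideal generated by the `p (d (gen k))`, `k ∈ O`.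
    `p (d a) ∈ 𝔭` for all `a`: on monomials by induction, `p (d (gen i * b)) = p (d (gen i)) * p b + p (sgn (gen i)) * p (d b)`; `i` even: `d (gen i)` is odd, so
    `p (d (gen i)) = 0`; `i` odd: `p (sgn (gen i)) = 0`. So `p a ∈ 𝔭` for `a ∈ JJ`.
(2) `σ : MvPolynomial ι ℚ →ₗ Lam deg`, linear, the monomial `X^m` ↦ `mon (m.toMultiset.toList)` (`MvPolynomial.basisMonomials`, or `Finsupp.lsum`). For a list `l` of even
    generators `mon l` depends only on the multiset of `l` (`List.Perm` induction, `gen_comm` with sign 1), so `σ (p (mon l)) = mon l`. Let `E s` be the span of the `mon l` with at least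
    `s` odd entries. Then `a - σ (p a) ∈ E 1` for all `a` (on monomials: if `l` has an odd entry, `p (mon l) = 0`).
(3) For `i` even let `M` be such that `gen i ^ M ∈ JJ` (then also for all larger `M`; take one `M ≥ 1` for all `i`). `X i ^ M = p (gen i ^ M) = ∑_k c_k * p (d (gen k))` with `c_k` polynomials
    (`Ideal.span`, finitely many `k`). Apply the algebra endomorphism `π` of `MvPolynomial ι ℚ` with `X j ↦ 0` for `j` odd, `X j ↦ X j` for `j` even (`π ∘ p = p`): we may take `c_k = π c_k`, and
    `π c_k` is in the range of `p`, `π c_k = p c̃_k`. So `p (gen i ^ M - ∑_k d (gen k) * c̃_k) = 0`, and by (2) `gen i ^ M = ∑_k d (gen k) * c̃_k + ν_i`, `ν_i ∈ E 1`.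
(4) `E s * E t ⊆ E (s + t)`; `E (r + 1) = 0` for `r = card O`: a list with more than `r` odd entries contains an odd generator twice; move the two occurrences next to each other (`hom_comm`),
    `gen k * gen k = 0` (`odd_sq`).
(5) `G` = the set of all `mon (l₁ ++ l₂)` with `l₁` a list of even generators in which each generator occurs less than `M` times (or: length `≤ M * card ι`), `l₂` a list of odd generators of
    length `≤ r` (finite: lists of bounded length over a finite type; all `mon`s are homogeneous). It is simplest to take `G` = all `mon l` with `l.length ≤ M * card ι + r`.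
    `V = span G ⊔ span {d (gen k) * c | k ∈ O}`. Claim `E s ≤ V` for all `s`, by descending induction from `E (r + 1) = 0`. Let `l` have exactly `s ≤ r` odd entries. Up to sign
    `mon l = mon l₁ * mon l₂`, `l₁` the even and `l₂` the odd entries (`hom_comm`). If every even generator occurs less than `M` times in `l₁`, the length is `≤ M * card ι + r`. Otherwise
    `mon l₁ = gen i ^ M * mon l₃` and `mon l₁ * mon l₂ = ∑_k d (gen k) * (c̃_k * mon l₃ * mon l₂) + ν_i * mon l₃ * mon l₂`, the last term in `E (1 + s) ≤ V`. `s = 0` is the claim.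
-/

set_option autoImplicit false

namespace Anick2

attribute [local irreducible] instRingLam

section
variable {ι : Type} {deg : ι → ℕ}

private abbrev EvT (deg : ι → ℕ) : Type := {i : ι // Even (deg i)}

open Classical in
private noncomputable def pp (deg : ι → ℕ) : Lam deg →ₐ[ℚ] MvPolynomial (EvT deg) ℚ :=
  Lam.lift deg (fun i => if h : Even (deg i) then MvPolynomial.X ⟨i, h⟩ else 0) (by
    intro i j
    by_cases hi : Even (deg i)
    · by_cases hj : Even (deg j)
      · rw [dif_pos hi, dif_pos hj, (hi.mul_right _).neg_one_pow, one_smul, mul_comm]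
      · rw [dif_neg hj, mul_zero, zero_mul, smul_zero]
    · rw [dif_neg hi, mul_zero, zero_mul, smul_zero])

private theorem pp_even (i : EvT deg) : pp deg (gen deg i.1) = MvPolynomial.X i := by
  unfold pp
  rw [Lam.lift_gen, dif_pos i.2]

private theorem pp_odd {i : ι} (h : Odd (deg i)) : pp deg (gen deg i) = 0 := by
  unfold pp
  rw [Lam.lift_gen, dif_neg (Nat.not_even_iff_odd.mpr h)]

private theorem pp_sgn (a : Lam deg) : pp deg (sgn deg a) = pp deg a := by
  have : (pp deg).comp (sgn deg) = pp deg := by
    refine Lam.algHom_ext _ fun i => ?_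
    rw [AlgHom.comp_apply]
    rcases Nat.even_or_odd (deg i) with h | h
    · rw [sgn_gen_even h]
    · rw [sgn_gen_odd h, map_neg, pp_odd h, neg_zero]
  exact congrArg (fun f : Lam deg →ₐ[ℚ] MvPolynomial (EvT deg) ℚ => f a) this

private theorem pp_odd_elem {a : Lam deg} (h : sgn deg a = -a) : pp deg a = 0 := by
  have h1 := pp_sgn a
  rw [h, map_neg] at h1
  exact self_eq_neg.mp h1.symm

private theorem gen_mem_center (i : EvT deg) :
    gen deg i.1 ∈ Subalgebra.center ℚ (Lam deg) := by
  rw [Subalgebra.mem_center_iff]
  intro b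
  exact (even_comm (sgn_gen_even i.2) b).symm

private noncomputable def sec (deg : ι → ℕ) : MvPolynomial (EvT deg) ℚ →ₐ[ℚ] Lam deg :=
  (Subalgebra.center ℚ (Lam deg)).val.comp
    (MvPolynomial.aeval (fun i : EvT deg =>
      (⟨gen deg i.1, gen_mem_center i⟩ : Subalgebra.center ℚ (Lam deg))))

private theorem sec_X (i : EvT deg) : sec deg (MvPolynomial.X i) = gen deg i.1 := by
  unfold sec
  rw [AlgHom.comp_apply, MvPolynomial.aeval_X]
  rfl

private theorem pp_sec (c : MvPolynomial (EvT deg) ℚ) : pp deg (sec deg c) = c := by
  have : (pp deg).comp (sec deg) = AlgHom.id ℚ _ := by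
    refine MvPolynomial.algHom_ext fun i => ?_
    rw [AlgHom.comp_apply, sec_X, pp_even, AlgHom.id_apply]
  exact congrArg (fun f : MvPolynomial (EvT deg) ℚ →ₐ[ℚ] MvPolynomial (EvT deg) ℚ => f c) this

/-- number of odd entries -/
private noncomputable def oc (deg : ι → ℕ) (l : List ι) : ℕ :=
  l.countP (fun i => decide (Odd (deg i)))

private theorem oc_append (l l' : List ι) : oc deg (l ++ l') = oc deg l + oc deg l' :=
  List.countP_append

private theorem oc_cons_even {i : ι} (h : Even (deg i)) (l : List ι) :
    oc deg (i :: l) = oc deg l := by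
  unfold oc
  rw [List.countP_cons_of_neg]
  simpa using h

private theorem oc_cons_odd {i : ι} (h : Odd (deg i)) (l : List ι) :
    oc deg (i :: l) = oc deg l + 1 := by
  unfold oc
  rw [List.countP_cons_of_pos]
  simpa using h

private noncomputable def EE (deg : ι → ℕ) (s : ℕ) : Submodule ℚ (Lam deg) :=
  Submodule.span ℚ {a | ∃ l : List ι, s ≤ oc deg l ∧ a = mon deg l}

private theorem mon_mem_EE (l : List ι) {s : ℕ} (h : s ≤ oc deg l) : mon deg l ∈ EE deg s :=
  Submodule.subset_span ⟨l, h, rfl⟩

private theorem EE_mul_mon {s t : ℕ} {a : Lam deg} (ha : a ∈ EE deg s) (l : List ι)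
    (hl : t ≤ oc deg l) : a * mon deg l ∈ EE deg (s + t) := by
  unfold EE at ha
  induction ha using Submodule.span_induction with
  | mem x hx =>
    obtain ⟨m, hm, rfl⟩ := hx
    rw [← mon_append]
    apply mon_mem_EE
    rw [oc_append]
    omega
  | zero => rw [zero_mul]; exact zero_mem _
  | add y z _ _ hy hz => rw [add_mul]; exact add_mem hy hz
  | smul r y _ hy => rw [smul_mul_assoc]; exact Submodule.smul_mem _ _ hy

/-- a monomial is `sec (pp _)` of itself or has an odd entry -/
private theorem sub_sec_mem (a : Lam deg) : a - sec deg (pp deg a) ∈ EE deg 1 := by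
  induction a using Lam.induction with
  | hm l =>
    rcases Nat.eq_zero_or_pos (oc deg l) with h | h
    · have : sec deg (pp deg (mon deg l)) = mon deg l := by
        induction l with
        | nil => rw [mon_nil, map_one, map_one]
        | cons i l ih =>
          rcases Nat.even_or_odd (deg i) with hi | hi
          · rw [oc_cons_even hi] at h
            rw [mon_cons, map_mul, map_mul, ih h, pp_even ⟨i, hi⟩, sec_X]
          · rw [oc_cons_odd hi] at h
            omega
      rw [this, sub_self]
      exact zero_mem _
    · have : pp deg (mon deg l) = 0 := by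
        induction l with
        | nil => simp [oc] at h
        | cons i l ih =>
          rcases Nat.even_or_odd (deg i) with hi | hi
          · rw [oc_cons_even hi] at h
            rw [mon_cons, map_mul, ih h, mul_zero]
          · rw [mon_cons, map_mul, pp_odd hi, zero_mul]
      rw [this, map_zero, sub_zero]
      exact mon_mem_EE l h
  | h0 => rw [map_zero, map_zero, sub_zero]; exact zero_mem _
  | hadd a b ha hb =>
    rw [map_add, map_add, add_sub_add_comm]
    exact add_mem ha hb
  | hsmul r a ha =>
    rw [map_smul, map_smul, ← smul_sub]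
    exact Submodule.smul_mem _ _ ha

open Classical in
private theorem extract {i : ι} (hi : Even (deg i)) :
    ∀ (M : ℕ) (l : List ι), M ≤ l.count i →
      ∃ l', mon deg l = gen deg i ^ M * mon deg l' ∧ oc deg l' = oc deg l := by
  intro M
  induction M with
  | zero => intro l _; exact ⟨l, by rw [pow_zero, one_mul], rfl⟩
  | succ M ih =>
    intro l hl
    have hmem : i ∈ l := List.count_pos_iff.mp (by omega)
    obtain ⟨s, t, rfl⟩ := List.append_of_mem hmem
    rw [List.count_append, List.count_cons_self] at hl
    obtain ⟨l', h1, h2⟩ := ih (s ++ t) (by rw [List.count_append]; omega)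
    refine ⟨l', ?_, ?_⟩
    · rw [mon_append, mon_cons, ← mul_assoc, ← even_comm (sgn_gen_even hi) (mon deg s), mul_assoc,
        ← mon_append, h1, ← mul_assoc, ← pow_succ']
    · rw [h2, oc_append, oc_append, oc_cons_even hi]

private theorem sq_zero {i : ι} (hi : Odd (deg i)) (u w : List ι) :
    gen deg i * (mon deg u * (gen deg i * mon deg w)) = 0 := by
  rw [← mul_assoc, hom_comm deg (gen_mem_hom deg i) (mon_mem_hom deg u), smul_mul_assoc,
    mul_assoc, ← mul_assoc (gen deg i) (gen deg i), odd_sq (sgn_gen_odd hi), zero_mul, mul_zero,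
    smul_zero]

open Classical in
private theorem odd_twice {i : ι} (hi : Odd (deg i)) (l : List ι) (hl : 2 ≤ l.count i) :
    mon deg l = 0 := by
  have hmem : i ∈ l := List.count_pos_iff.mp (by omega)
  obtain ⟨s, t, rfl⟩ := List.append_of_mem hmem
  rw [List.count_append, List.count_cons_self] at hl
  by_cases ht : i ∈ t
  · obtain ⟨u, w, rfl⟩ := List.append_of_mem ht
    rw [mon_append, mon_cons, mon_append, mon_cons, sq_zero hi, mul_zero]
  · have hs : i ∈ s := by
      have : t.count i = 0 := List.count_eq_zero.mpr ht
      exact List.count_pos_iff.mp (by omega)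
    obtain ⟨u, w, rfl⟩ := List.append_of_mem hs
    rw [List.append_assoc, List.cons_append, mon_append, mon_cons, mon_append, mon_cons,
      sq_zero hi, mul_zero]

open Classical in
private theorem length_le [Fintype ι] (l : List ι) {C : ℕ} (h : ∀ i, l.count i ≤ C) :
    l.length ≤ C * Fintype.card ι := by
  have h1 : l.length = ∑ i : ι, l.count i := by
    rw [← List.sum_toFinset_count_eq_length l]
    refine Finset.sum_subset (Finset.subset_univ _) ?_
    intro x _ hx
    rw [List.mem_toFinset] at hx
    exact List.count_eq_zero.mpr hx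
  rw [h1]
  calc ∑ i : ι, l.count i ≤ ∑ _i : ι, C := Finset.sum_le_sum fun i _ => h i
    _ = C * Fintype.card ι := by rw [Finset.sum_const, Finset.card_univ, smul_eq_mul, mul_comm]

open Classical in
private theorem oc_le [Fintype ι] (l : List ι) (h : ∀ i, Odd (deg i) → l.count i ≤ 1) :
    oc deg l ≤ Fintype.card ι := by
  have h1 : oc deg l = (l.filter (fun i => decide (Odd (deg i)))).length := by
    unfold oc
    rw [List.countP_eq_length_filter]
  rw [h1]
  have h2 := length_le (l.filter (fun i => decide (Odd (deg i)))) (C := 1) (fun i => by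
    rcases Nat.even_or_odd (deg i) with hi | hi
    · rw [List.count_eq_zero.mpr]
      · omega
      · intro hm
        have := (List.mem_filter.mp hm).2
        simp only [decide_eq_true_eq] at this
        exact (Nat.not_even_iff_odd.mpr this) hi
    · refine le_trans ?_ (h i hi)
      exact List.Sublist.count_le i (List.filter_sublist))
  omega

end

theorem k_red {ι : Type} [Finite ι] {deg : ι → ℕ} (S : MinimalSullivan deg)
    (h : ∀ i, Even (deg i) → ∃ M, gen deg i ^ M ∈ JJ deg S.d) :
    ∃ G : Set (Lam deg), G.Finite ∧ (∀ g ∈ G, ∃ m, g ∈ hom deg m) ∧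
      ∀ a : Lam deg, a ∈ Submodule.span ℚ G ⊔
        Submodule.span ℚ {b | ∃ (k : ι) (c : Lam deg), Odd (deg k) ∧
          b = S.d (gen deg k) * c} := by
  classical
  haveI : Fintype ι := Fintype.ofFinite ι
  have hd := S.isDifferential
  set K : Submodule ℚ (Lam deg) := Submodule.span ℚ {b | ∃ (k : ι) (c : Lam deg), Odd (deg k) ∧
          b = S.d (gen deg k) * c} with hK
  -- the ideal of the images
  set I : Ideal (MvPolynomial (EvT deg) ℚ) :=
    Ideal.span {q | ∃ k : ι, Odd (deg k) ∧ q = pp deg (S.d (gen deg k))} with hI
  have hpd : ∀ b : Lam deg, pp deg (S.d b) ∈ I := by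
    intro b
    induction b using Lam.induction with
    | hm l =>
      induction l with
      | nil => rw [mon_nil, d_one hd, map_zero]; exact zero_mem _
      | cons i l ih =>
        rw [mon_cons, d_mul hd, map_add, map_mul, map_mul]
        refine add_mem ?_ (I.mul_mem_left _ ih)
        rcases Nat.even_or_odd (deg i) with hi | hi
        · have : pp deg (S.d (gen deg i)) = 0 := by
            apply pp_odd_elem
            rw [sgn_d hd, sgn_gen_even hi]
          rw [this, zero_mul]
          exact zero_mem _
        · exact I.mul_mem_right _ (Ideal.subset_span ⟨i, hi, rfl⟩)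
    | h0 => rw [map_zero, map_zero]; exact zero_mem _
    | hadd a b ha hb => rw [map_add, map_add]; exact add_mem ha hb
    | hsmul r a ha =>
      rw [map_smul, map_smul, Algebra.smul_def]
      exact I.mul_mem_left _ ha
  have hpJ : ∀ a ∈ JJ deg S.d, pp deg a ∈ I := by
    intro a ha
    unfold JJ idealSpan at ha
    induction ha using Submodule.span_induction with
    | mem x hx =>
      obtain ⟨P, v, Q, hv, rfl⟩ := hx
      rw [map_mul, map_mul]
      refine I.mul_mem_right _ (I.mul_mem_left _ ?_)
      rcases hv with ⟨i, hi, rfl⟩ | ⟨b, rfl⟩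
      · rw [pp_odd hi]; exact zero_mem _
      · exact hpd b
    | zero => rw [map_zero]; exact zero_mem _
    | add y z _ _ hy hz => rw [map_add]; exact add_mem hy hz
    | smul r y _ hy =>
      rw [map_smul, Algebra.smul_def]
      exact I.mul_mem_left _ hy
  have hKmul : ∀ c ∈ K, ∀ b : Lam deg, c * b ∈ K := by
    intro c hc b
    induction hc using Submodule.span_induction with
    | mem x hx =>
      obtain ⟨k, a, hk, rfl⟩ := hx
      exact Submodule.subset_span ⟨k, a * b, hk, by rw [mul_assoc]⟩
    | zero => rw [zero_mul]; exact zero_mem _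
    | add y z _ _ hy hz => rw [add_mul]; exact add_mem hy hz
    | smul r y _ hy => rw [smul_mul_assoc]; exact Submodule.smul_mem _ _ hy
  -- lifting the ideal
  have hlift : ∀ q ∈ I, ∃ c ∈ K, pp deg c = q := by
    intro q hq
    induction hq using Submodule.span_induction with
    | mem x hx =>
      obtain ⟨k, hk, rfl⟩ := hx
      exact ⟨S.d (gen deg k) * 1, Submodule.subset_span ⟨k, 1, hk, rfl⟩, by rw [mul_one]⟩
    | zero => exact ⟨0, zero_mem _, map_zero _⟩
    | add y z _ _ hy hz =>
      obtain ⟨c, hc, rfl⟩ := hy
      obtain ⟨c', hc', rfl⟩ := hz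
      exact ⟨c + c', add_mem hc hc', map_add _ _ _⟩
    | smul r y _ hy =>
      obtain ⟨c, hc, rfl⟩ := hy
      refine ⟨c * sec deg r, hKmul c hc _, ?_⟩
      rw [map_mul, pp_sec, smul_eq_mul, mul_comm]
  -- the exponent
  have hex : ∃ M : ℕ, ∀ i, Even (deg i) → ∃ c ∈ K, gen deg i ^ M - c ∈ EE deg 1 := by
    have h1 : ∀ i : ι, ∃ M : ℕ, Even (deg i) → gen deg i ^ M ∈ JJ deg S.d := by
      intro i
      by_cases hi : Even (deg i)
      · obtain ⟨M, hM⟩ := h i hi
        exact ⟨M, fun _ => hM⟩
      · exact ⟨0, fun h => absurd h hi⟩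
    choose f hf using h1
    refine ⟨∑ i : ι, f i, fun i hi => ?_⟩
    have h2 : gen deg i ^ (∑ i : ι, f i) ∈ JJ deg S.d := by
      have h3 : f i ≤ ∑ i : ι, f i := Finset.single_le_sum (fun _ _ => Nat.zero_le _)
        (Finset.mem_univ i)
      obtain ⟨e, he⟩ := Nat.exists_eq_add_of_le h3
      rw [he, pow_add]
      exact JJ_right (hf i hi) _
    obtain ⟨c, hc, hc'⟩ := hlift _ (hpJ _ h2)
    refine ⟨c, hc, ?_⟩
    have h4 := sub_sec_mem (deg := deg) (gen deg i ^ (∑ i : ι, f i) - c)
    rw [map_sub, hc', sub_self, map_zero, sub_zero] at h4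
    exact h4
  obtain ⟨M, hM⟩ := hex
  set L := (M + 1) * Fintype.card ι with hL
  set G : Set (Lam deg) := mon deg '' {l : List ι | l.length ≤ L} with hG
  refine ⟨G, (List.finite_length_le ι L).image _, ?_, ?_⟩
  · rintro _ ⟨l, _, rfl⟩
    exact ⟨_, mon_mem_hom deg l⟩
  have key : ∀ t s : ℕ, Fintype.card ι + 1 ≤ s + t →
      EE deg s ≤ Submodule.span ℚ G ⊔ K := by
    intro t
    induction t with
    | zero =>
      intro s hs
      unfold EE
      rw [Submodule.span_le]
      rintro _ ⟨l, hl, rfl⟩
      by_cases hc : ∀ i, Odd (deg i) → l.count i ≤ 1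
      · have := oc_le l hc
        omega
      · push Not at hc
        obtain ⟨i, hi, hi'⟩ := hc
        rw [odd_twice hi l hi']
        exact zero_mem _
    | succ t ih =>
      intro s hs
      unfold EE
      rw [Submodule.span_le]
      rintro _ ⟨l, hl, rfl⟩
      by_cases hc : ∀ i, Odd (deg i) → l.count i ≤ 1
      · by_cases he : ∀ i, Even (deg i) → l.count i < M
        · refine Submodule.mem_sup_left (Submodule.subset_span ⟨l, ?_, rfl⟩)
          refine length_le l (C := M + 1) fun i => ?_
          rcases Nat.even_or_odd (deg i) with hi | hi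
          · have := he i hi; omega
          · have := hc i hi; omega
        · push Not at he
          obtain ⟨i, hi, hi'⟩ := he
          obtain ⟨l', h1, h2⟩ := extract hi M l hi'
          obtain ⟨c, hc1, hc2⟩ := hM i hi
          have h3 : mon deg l = c * mon deg l' + (gen deg i ^ M - c) * mon deg l' := by
            rw [h1, sub_mul]; abel
          rw [h3]
          refine add_mem (Submodule.mem_sup_right (hKmul _ hc1 _)) ?_
          refine ih (1 + s) (by omega) (EE_mul_mon hc2 l' ?_)
          omega
      · push Not at hc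
        obtain ⟨i, hi, hi'⟩ := hc
        rw [odd_twice hi l hi']
        exact zero_mem _
  intro a
  have hall : a ∈ EE deg 0 := by
    induction a using Lam.induction with
    | hm l => exact mon_mem_EE l (Nat.zero_le _)
    | h0 => exact zero_mem _
    | hadd a b ha hb => exact add_mem ha hb
    | hsmul r a ha => exact Submodule.smul_mem _ _ ha
  exact key (Fintype.card ι + 1) 0 (by omega) hall

end Anick2
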