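import Pool.Agent.Helper2.AN.Flat
import Pool.Agent.Helper2.AN.DivEven

/-!
AN-06 (project AN, MP_5f0082_gt). Two exceptional even generators.

Proof. `X₁ = gen i₁`, `X₂ = gen i₂` are even, so central, and `d (X * a) = d X * a + X * d a`.
(1) `d X₂ = X₁ * θ`, `θ` odd, `d θ = 0`: `mem_ideal_one` gives `θ`; replace it by `(1/2) • (θ - sgn θ)`, which is odd
    (`sgn_sgn`) and still satisfies the equation, since `d X₂` is odd (`sgn_d`). `0 = d (d X₂) = X₁ * d θ`, `even_cancel`.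
(2) `d t = X₁ * a + X₂ * b`, `a, b` odd: `mem_ideal_two`, again take the odd parts.
(3) `0 = d (d t) = X₁ * d a + X₁ * θ * b + X₂ * d b = X₁ * (d a + θ * b) + X₂ * d b`. By `even_koszul` there is `e` with
    `d b = -(X₁ * e)`, `d a + θ * b = X₂ * e`. `e` is even: replace `e` by `(1/2) • (e + sgn e)` (`d b`, `d a + θ b` are even).
    `0 = d (d b) = -(X₁ * d e)`, so `d e = 0`.
(4) Let `k = n + 3`. `ρ = t^(k-1) * e - (k-1) • (t^(k-2) * (a * b))` is even, in `FW (n+1)` (`t^(k-2) = t^(n+1)`, `FW_pow`), and closed: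
    `d (t^(k-1)) = (k-1) • (t^(k-2) * d t)` (`d_pow_even`), `d (a * b) = d a * b - a * d b = (X₂ e - θ b) b + a X₁ e = X₂ e b + X₁ a e = (d t) * e`
    (`b * b = 0`, `odd_sq`), `(d t) * (a * b) = 0`. So `d ρ = (k-1) t^(k-2) (d t) e - (k-1) (k-2) t^(k-3) (d t) (a b) - (k-1) t^(k-2) (d t) e = 0`.
(5) `Kills`: `ρ = d z`, `z` odd, `z ∈ FW n`. Put `γ₁ = t^(k-1) * a - X₂ * z`, `γ₂ = t^(k-1) * b + X₁ * z` (odd). Then
    `d γ₂ = (k-1) t^(k-2) (d t) b - X₁ t^(k-1) e + X₁ ρ = (k-1) t^(k-2) X₁ a b - X₁ t^(k-1) e + X₁ ρ = 0`,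
    `d γ₁ = (k-1) t^(k-2) (d t) a + t^(k-1) (X₂ e - θ b) - X₁ θ z - X₂ ρ`, `(d t) a = X₂ b a = -X₂ a b`, so
    `d γ₁ = X₂ (t^(k-1) e - (k-1) t^(k-2) a b) - t^(k-1) θ b - X₁ θ z - X₂ ρ = -θ * (t^(k-1) b + X₁ z) = -(θ * γ₂)`,
    `d (t^k) = k • (t^(k-1) (X₁ a + X₂ b)) = k • (X₁ * γ₁ + X₂ * γ₂)` (`X₁ X₂ z` cancels).
(6) `flat_nil` for `s = 3`, `e = ![X₁, X₂, t^k]`, `ω 1 0 = θ`, `ω 2 0 = k • γ₁`, `ω 2 1 = k • γ₂`, all other `ω i j = 0`:
    `d X₁ = 0`, `d X₂ = θ * X₁`, `d (t^k) = k γ₁ X₁ + k γ₂ X₂`, `d θ = 0`, `d (k γ₂) = 0`, `d (k γ₁) = -(θ * k γ₂) = (k γ₂) * θ = ω 2 1 * ω 1 0`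
    (`odd_anti`). `pos`: `X₁, X₂ ∈ lamPos`; `t ∈ lamPos` by hypothesis, so `t^k ∈ lamPos` (`k ≥ 1`; `lamPos_eq`, `FW_pow`, `FW_anti`).
    So `(t^k)^(n+1) ∈ JJ`; `M = k * (n+1)`.
-/

set_option autoImplicit false

namespace Anick2

section alg
variable {R : Type} [Ring R]

private lemma cl (c : Subring.center R) (w : R) : (c : R) * w = c • w := rfl
private lemma cr (c : Subring.center R) (w : R) : w * (c : R) = c • w :=
  Subring.mem_center_iff.mp c.2 w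

variable (x1 x2 t e : Subring.center R) (a b θ z : R) (n : ℕ)

private lemma alg_rho (hab : b * a = -(a * b)) (haa : a * a = 0) (hbb : b * b = 0) :
    (n + 2) • ((t : R) ^ (n + 1) * ((x1 : R) * a + (x2 : R) * b)) * (e : R) -
      (n + 2) • ((n + 1) • ((t : R) ^ n * ((x1 : R) * a + (x2 : R) * b)) * (a * b) +
        (t : R) ^ (n + 1) * (((x2 : R) * (e : R) - θ * b) * b + (-a) * (-((x1 : R) * (e : R))))) = 0 := by
  have h1 : a * (a * b) = 0 := by rw [← mul_assoc, haa, zero_mul]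
  have h2 : b * (a * b) = 0 := by rw [← mul_assoc, hab, neg_mul, mul_assoc, hbb, mul_zero, neg_zero]
  have h3 : θ * b * b = 0 := by rw [mul_assoc, hbb, mul_zero]
  have p1 : ∀ (m : ℕ) (w : R), (t : R) ^ m * w = (t ^ m) • w := fun m w => rfl
  simp only [p1, cl, cr, add_mul, sub_mul, mul_neg, smul_mul_assoc,
    mul_smul_comm, h1, h2, h3, smul_zero, sub_zero, add_zero, zero_add]
  module

private lemma alg_g2 (hbb : b * b = 0) :
    (n + 2) • ((t : R) ^ (n + 1) * ((x1 : R) * a + (x2 : R) * b)) * b +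
      (t : R) ^ (n + 2) * (-((x1 : R) * (e : R))) +
      (x1 : R) * ((t : R) ^ (n + 2) * (e : R) - (n + 2) • ((t : R) ^ (n + 1) * (a * b))) = 0 := by
  have p1 : ∀ (m : ℕ) (w : R), (t : R) ^ m * w = (t ^ m) • w := fun m w => rfl
  have h0 : (e : R) = e • (1 : R) := by rw [← cl, mul_one]
  rw [h0]
  simp only [p1, cl, add_mul, smul_mul_assoc, mul_smul_comm, hbb, smul_zero, add_zero]
  module

private lemma alg_g1 (hab : b * a = -(a * b)) (haa : a * a = 0) :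
    (n + 2) • ((t : R) ^ (n + 1) * ((x1 : R) * a + (x2 : R) * b)) * a +
      (t : R) ^ (n + 2) * ((x2 : R) * (e : R) - θ * b) -
      ((x1 : R) * θ * z +
        (x2 : R) * ((t : R) ^ (n + 2) * (e : R) - (n + 2) • ((t : R) ^ (n + 1) * (a * b)))) =
      -(θ * ((t : R) ^ (n + 2) * b + (x1 : R) * z)) := by
  have p1 : ∀ (m : ℕ) (w : R), (t : R) ^ m * w = (t ^ m) • w := fun m w => rfl
  have h0 : (e : R) = e • (1 : R) := by rw [← cl, mul_one]
  rw [h0]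
  simp only [p1, cl, add_mul, mul_add, smul_mul_assoc,
    mul_smul_comm, haa, hab, smul_zero, zero_add]
  module

private lemma alg_tk :
    (n + 3) • ((t : R) ^ (n + 2) * ((x1 : R) * a + (x2 : R) * b)) =
      (n + 3) • ((t : R) ^ (n + 2) * a - (x2 : R) * z) * (x1 : R) +
      (n + 3) • ((t : R) ^ (n + 2) * b + (x1 : R) * z) * (x2 : R) := by
  have p1 : ∀ (m : ℕ) (w : R), (t : R) ^ m * w = (t ^ m) • w := fun m w => rfl
  simp only [p1, cl, cr]
  module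

end alg

theorem pair_nil {ι : Type} {deg wt : ι → ℕ} {d : Lam deg →ₗ[ℚ] Lam deg} {n : ℕ}
    (hd : Dat deg wt d) (hP : Kills deg wt n d) {i₁ i₂ : ι} (hne : i₁ ≠ i₂)
    (he₁ : Even (deg i₁)) (he₂ : Even (deg i₂)) (h₁ : d (gen deg i₁) = 0)
    (h₂ : d (gen deg i₂) ∈ idealSpan {gen deg i₁}) {t : Lam deg} (ht : sgn deg t = t)
    (ht' : t ∈ lamPos deg) (h : d t ∈ idealSpan {gen deg i₁, gen deg i₂}) :
    ∃ M, t ^ M ∈ JJ deg d := by
  have hD := hd.diff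
  set X₁ := gen deg i₁ with hX₁
  set X₂ := gen deg i₂ with hX₂
  have s₁ : sgn deg X₁ = X₁ := sgn_gen_even he₁
  have s₂ : sgn deg X₂ = X₂ := sgn_gen_even he₂
  have hcen : ∀ {u : Lam deg}, sgn deg u = u → u ∈ Subring.center (Lam deg) := fun hu => by
    rw [Subring.mem_center_iff]
    intro g
    exact (even_comm hu g).symm
  -- odd and even parts
  have oddp : ∀ u : Lam deg, sgn deg ((2 : ℚ)⁻¹ • (u - sgn deg u)) = -((2 : ℚ)⁻¹ • (u - sgn deg u)) := by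
    intro u
    rw [map_smul, map_sub, sgn_sgn, ← smul_neg, neg_sub]
  have evp : ∀ u : Lam deg, sgn deg ((2 : ℚ)⁻¹ • (u + sgn deg u)) = (2 : ℚ)⁻¹ • (u + sgn deg u) := by
    intro u
    rw [map_smul, map_add, sgn_sgn, add_comm]
  have half : ∀ w : Lam deg, (2 : ℚ)⁻¹ • (w + w) = w := by
    intro w
    rw [← two_smul ℚ w, smul_smul, inv_mul_cancel₀ (by norm_num), one_smul]
  -- (1)
  obtain ⟨θ0, hθ0⟩ := mem_ideal_one he₁ h₂
  rw [← hX₁] at hθ0
  have odX₂ : sgn deg (d X₂) = -d X₂ := by rw [sgn_d hD, s₂]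
  set θ := (2 : ℚ)⁻¹ • (θ0 - sgn deg θ0) with hθdef
  have sθ : sgn deg θ = -θ := oddp θ0
  have e1 : X₁ * sgn deg θ0 = -d X₂ := by
    rw [← odX₂, hθ0, map_mul, s₁]
  have dX₂ : d X₂ = X₁ * θ := by
    rw [hθdef, mul_smul_comm, mul_sub, e1, ← hθ0, sub_neg_eq_add, half]
  have dθ : d θ = 0 := by
    have h3 : d (d X₂) = 0 := hD.d_d _
    rw [dX₂, d_mul hD, h₁, zero_mul, zero_add, s₁] at h3
    exact even_cancel he₁ h3
  -- (2)
  obtain ⟨a0, b0, hab0⟩ := mem_ideal_two he₁ he₂ h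
  rw [← hX₁, ← hX₂] at hab0
  have odt : sgn deg (d t) = -d t := by rw [sgn_d hD, ht]
  set a := (2 : ℚ)⁻¹ • (a0 - sgn deg a0) with hadef
  set b := (2 : ℚ)⁻¹ • (b0 - sgn deg b0) with hbdef
  have sa : sgn deg a = -a := oddp a0
  have sb : sgn deg b = -b := oddp b0
  have e2 : X₁ * sgn deg a0 + X₂ * sgn deg b0 = -d t := by
    rw [← odt, hab0, map_add, map_mul, map_mul, s₁, s₂]
  have hdt : d t = X₁ * a + X₂ * b := by
    have h3 : X₁ * a + X₂ * b =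
        (2 : ℚ)⁻¹ • ((X₁ * a0 + X₂ * b0) - (X₁ * sgn deg a0 + X₂ * sgn deg b0)) := by
      rw [hadef, hbdef, mul_smul_comm, mul_smul_comm, ← smul_add, mul_sub, mul_sub]
      congr 1
      abel
    rw [h3, e2, ← hab0, sub_neg_eq_add, half]
  -- (3)
  have e3 : X₁ * (d a + θ * b) + X₂ * d b = 0 := by
    have h3 : d (d t) = 0 := hD.d_d _
    rw [hdt, map_add, d_mul hD, d_mul hD, h₁, zero_mul, zero_add, s₁, s₂, dX₂] at h3
    rw [← h3, mul_add, mul_assoc]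
    abel
  obtain ⟨e0, he0, he0'⟩ := even_koszul he₁ he₂ hne e3
  rw [← hX₁] at he0
  rw [← hX₂] at he0'
  set e := (2 : ℚ)⁻¹ • (e0 + sgn deg e0) with hedef
  have se : sgn deg e = e := evp e0
  have sdb : sgn deg (d b) = d b := by rw [sgn_d hD, sb, map_neg, neg_neg]
  have sda : sgn deg (d a + θ * b) = d a + θ * b := by
    rw [map_add, sgn_d hD, sa, map_neg, neg_neg, map_mul, sθ, sb, neg_mul_neg]
  have hdb : d b = -(X₁ * e) := by
    have h3 : -(X₁ * sgn deg e0) = d b := by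
      rw [← sdb, he0, map_neg, map_mul, s₁]
    have h4 : -(X₁ * e) = (2 : ℚ)⁻¹ • (-(X₁ * e0) + -(X₁ * sgn deg e0)) := by
      rw [hedef, mul_smul_comm, mul_add, ← smul_neg, neg_add]
    rw [h4, h3, ← he0, half]
  have hda' : d a + θ * b = X₂ * e := by
    have h3 : X₂ * sgn deg e0 = d a + θ * b := by
      rw [← sda, he0', map_mul, s₂]
    have h4 : X₂ * e = (2 : ℚ)⁻¹ • (X₂ * e0 + X₂ * sgn deg e0) := by
      rw [hedef, mul_smul_comm, mul_add]
    rw [h4, h3, ← he0', half]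
  have hda : d a = X₂ * e - θ * b := by rw [← hda', add_sub_cancel_right]
  have hde : d e = 0 := by
    have h3 : d (d b) = 0 := hD.d_d _
    rw [hdb, map_neg, d_mul hD, h₁, zero_mul, zero_add, s₁, neg_eq_zero] at h3
    exact even_cancel he₁ h3
  -- facts
  have hab : b * a = -(a * b) := odd_anti sb sa
  have haa : a * a = 0 := odd_sq sa
  have hbb : b * b = 0 := odd_sq sb
  have st : ∀ m : ℕ, sgn deg (t ^ m) = t ^ m := fun m => by rw [map_pow, ht]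
  have dpow : ∀ m : ℕ, d (t ^ (m + 1)) = (m + 1) • (t ^ m * (X₁ * a + X₂ * b)) := fun m => by
    rw [← hdt, d_pow_even hD ht m, ← Nat.cast_smul_eq_nsmul ℚ (m + 1) (t ^ m * d t), Nat.cast_succ]
  have tFW : ∀ m : ℕ, t ^ m ∈ FW deg wt m := fun m => FW_pow (lamPos_le hd.one_le ht') m
  have top : ∀ w : Lam deg, w ∈ FW deg wt 0 := fun w => by rw [FW_zero]; trivial
  set c1 : Subring.center (Lam deg) := ⟨X₁, hcen s₁⟩ with hc1
  set c2 : Subring.center (Lam deg) := ⟨X₂, hcen s₂⟩ with hc2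
  set ct : Subring.center (Lam deg) := ⟨t, hcen ht⟩ with hct
  set ce : Subring.center (Lam deg) := ⟨e, hcen se⟩ with hce
  -- (4)
  set ρ := t ^ (n + 2) * e - (n + 2) • (t ^ (n + 1) * (a * b)) with hρ
  have sρ : sgn deg ρ = ρ := by
    rw [hρ, map_sub, map_mul, st, se, map_nsmul, map_mul, st, map_mul, sa, sb, neg_mul_neg]
  have ρFW : ρ ∈ FW deg wt (n + 1) := by
    have h5 : t ^ (n + 2) * e ∈ FW deg wt (n + 2 + 0) := FW_mul (tFW (n + 2)) (top e)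
    have h6 : t ^ (n + 1) * (a * b) ∈ FW deg wt (n + 1 + 0) := FW_mul (tFW (n + 1)) (top (a * b))
    have h7 : t ^ (n + 2) * e ∈ FW deg wt (n + 1) := FW_anti (by omega) h5
    rw [hρ, ← Nat.cast_smul_eq_nsmul ℚ]
    exact Submodule.sub_mem _ h7 (Submodule.smul_mem _ _ h6)
  have dρ : d ρ = 0 := by
    rw [hρ, map_sub, d_mul hD, st, hde, mul_zero, add_zero, map_nsmul, d_mul hD, st,
      dpow (n + 1), dpow n, d_mul hD, hda, hdb, sa]
    exact alg_rho c1 c2 ct ce a b θ n hab haa hbb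
  -- (5)
  obtain ⟨z, sz, -, hz⟩ := hP ρ sρ ρFW dρ
  set γ₁ := t ^ (n + 2) * a - X₂ * z with hγ₁
  set γ₂ := t ^ (n + 2) * b + X₁ * z with hγ₂
  have sγ₁ : sgn deg γ₁ = -γ₁ := by
    rw [hγ₁, map_sub, map_mul, st, sa, map_mul, s₂, sz, mul_neg, mul_neg]
    abel
  have sγ₂ : sgn deg γ₂ = -γ₂ := by
    rw [hγ₂, map_add, map_mul, st, sb, map_mul, s₁, sz, mul_neg, mul_neg]
    abel
  have dγ₂ : d γ₂ = 0 := by
    rw [hγ₂, map_add, d_mul hD, st, d_mul hD, h₁, zero_mul, zero_add, s₁, hz, hdb, dpow (n + 1)]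
    exact alg_g2 c1 c2 ct ce a b n hbb
  have dγ₁ : d γ₁ = -(θ * γ₂) := by
    rw [hγ₁, map_sub, d_mul hD, st, d_mul hD, s₂, hz, hda, dX₂, dpow (n + 1)]
    exact alg_g1 c1 c2 ct ce a b θ z n hab haa
  have dtk : d (t ^ (n + 3)) = (n + 3) • γ₁ * X₁ + (n + 3) • γ₂ * X₂ := by
    rw [dpow (n + 2)]
    exact alg_tk c1 c2 ct a b z n
  -- (6)
  have tkpos : t ^ (n + 3) ∈ lamPos deg := by
    rw [lamPos_eq]
    have h3 : t ∈ FW deg (fun _ => 1) 1 := by rw [← lamPos_eq]; exact ht'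
    exact FW_anti (by omega) (FW_pow h3 (n + 3))
  have genpos : ∀ i : ι, gen deg i ∈ lamPos deg := by
    intro i
    rw [lamPos_eq]
    exact gen_mem_FW (wt := fun _ => 1) i
  have sk1 : sgn deg ((n + 3) • γ₁) = -((n + 3) • γ₁) := by rw [map_nsmul, sγ₁, smul_neg]
  have sk2 : sgn deg ((n + 3) • γ₂) = -((n + 3) • γ₂) := by rw [map_nsmul, sγ₂, smul_neg]
  have dk1 : d ((n + 3) • γ₁) = -(θ * ((n + 3) • γ₂)) := by
    rw [map_nsmul, dγ₁, smul_neg, mul_smul_comm]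
  have dk2 : d ((n + 3) • γ₂) = 0 := by rw [map_nsmul, dγ₂, smul_zero]
  generalize (n + 3) • γ₁ = g1 at sk1 dk1 dtk
  generalize (n + 3) • γ₂ = g2 at sk2 dk1 dk2 dtk
  have hflat : FlatMod d ⊥ ![X₁, X₂, t ^ (n + 3)] ![![0, 0, 0], ![θ, 0, 0], ![g1, g2, 0]] := by
    refine ⟨?_, ?_, ?_, ?_, ?_, ?_⟩
    · intro i
      fin_cases i
      · exact s₁
      · exact s₂
      · exact st _
    · intro i
      fin_cases i
      · exact genpos i₁
      · exact genpos i₂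
      · exact tkpos
    · intro i j
      fin_cases i <;> fin_cases j <;> simp [sθ, sk1, sk2]
    · intro i j hij
      fin_cases i <;> fin_cases j <;> simp at hij ⊢
    · intro i
      rw [Submodule.mem_bot]
      fin_cases i
      · simp [Fin.sum_univ_three, h₁]
      · simp [Fin.sum_univ_three, dX₂, even_comm s₁ θ]
      · simp [Fin.sum_univ_three, dtk]
    · intro i j
      rw [Submodule.mem_bot]
      fin_cases i <;> fin_cases j <;>
        simp [Fin.sum_univ_three, dθ, dk1, dk2, odd_anti sk2 sθ]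
  have hfin := flat_nil hd hP hflat 2
  refine ⟨(n + 3) * (n + 1), ?_⟩
  rw [pow_mul]
  exact hfin

end Anick2
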