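import Pool.Agent.Helper2.AN.QuotStep
import Pool.Agent.Helper2.AN.Pair

/-!
AN-07 (project AN, MP_5f0082_gt). Induction on the number of odd generators in `Y`.

Proof. Induction on `k = Y.ncard`.
`k = 0`: `Y = ∅`, `gen '' Y = ∅`, `idealSpan ∅ = ⊥` (span of the empty set). `FlatElem`: `flat_nil`. `PairElem`: `pair_nil`.
Step: let `y ∈ Y` have minimal degree. `d (gen y) = 0`: it is in `idealSpan (gen '' Y)`, so `retr deg Yᶜ` maps it to `0`; and it is in
`adjoin (gen '' {j | deg j < deg y})`, these `j` are not in `Y`, and `incl (retr a) = a` for `a` in the subalgebra generated by the `gen j`, `j ∉ Y`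
(`AlgHom.ext`-type argument: `Algebra.adjoin_induction`, `incl_gen`, `retr_gen`). Apply `quot_step` (`wt y = 1`): `R = {i | i ≠ y}`, `d'`, `ρ = retr deg R`.
`Y' = {i : R | (i : ι) ∈ Y}` has `ncard = k`. `ρ (idealSpan (gen '' Y)) ⊆ idealSpan (gen '' Y')`, and the same with `gen i₁`, `gen i₂` adjoined
(span induction: `ρ (p * gen j * q) = ρ p * ρ (gen j) * ρ q`, `ρ (gen y) = 0`, `ρ (gen j) = gen ⟨j, _⟩`; `i₁, i₂ ≠ y` by parity).
So the hypotheses hold for `Y'`, `d'`, `ρ t`: `d' (gen ⟨j, _⟩) = d' (ρ (gen j)) = ρ (d (gen j))`; `ρ` preserves `sgn` (`retr_sgn`) and `lamPos`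
(`lamPos_eq`, `retr_FW` with weight `1`); flat system: `ρ ∘ e`, `fun i j => ρ (ω i j)`: `ρ (d (e i) - ∑ ω i j * e j) = d' (ρ (e i)) - ∑ ρ (ω i j) * ρ (e j)`.
Induction hypothesis: `(ρ t)^M = ρ (t^M) ∈ JJ'`, so `t^M ∈ JJ` by the last property of `quot_step`.
(`retr_gen` and `incl_gen` are in `GCA/Basic.lean`; that `retr deg R (gen deg y) = 0` for `y ∉ R` is `by simp [retr]`.)
-/

set_option autoImplicit false

namespace Anick2

private theorem map_idealSpan {ι ι' : Type} {deg : ι → ℕ} {deg' : ι' → ℕ} (φ : Lam deg →ₐ[ℚ] Lam deg')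
    {s : Set (Lam deg)} {s' : Set (Lam deg')} (h : ∀ v ∈ s, φ v ∈ idealSpan s') {a : Lam deg}
    (ha : a ∈ idealSpan s) : φ a ∈ idealSpan s' := by
  unfold idealSpan at ha
  induction ha using Submodule.span_induction with
  | mem a ha =>
    obtain ⟨p, v, q, hv, rfl⟩ := ha
    rw [map_mul, map_mul]
    exact idealSpan_right (idealSpan_left (h v hv) _) _
  | zero => rw [map_zero]; exact zero_mem _
  | add a b _ _ iha ihb => rw [map_add]; exact add_mem iha ihb
  | smul r a _ iha => rw [map_smul]; exact Submodule.smul_mem _ _ iha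

private theorem idealSpan_empty {ι : Type} {deg : ι → ℕ} : idealSpan (∅ : Set (Lam deg)) = ⊥ := by
  unfold idealSpan
  rw [Submodule.span_eq_bot]
  rintro a ⟨p, v, q, hv, rfl⟩
  exact absurd hv (Set.notMem_empty v)

private theorem retr_gen_zero {ι : Type} {deg : ι → ℕ} (R : Set ι) {i : ι} (hi : i ∉ R) :
    retr deg R (gen deg i) = 0 := by
  simp [retr, hi]

private theorem incl_retr_adjoin {ι : Type} {deg : ι → ℕ} (R : Set ι) {a : Lam deg}
    (ha : a ∈ Algebra.adjoin ℚ (gen deg '' R)) : incl deg R (retr deg R a) = a := by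
  induction ha using Algebra.adjoin_induction with
  | mem a ha =>
    obtain ⟨i, hi, rfl⟩ := ha
    have h1 : retr deg R (gen deg i) = gen (fun i : R => deg i) ⟨i, hi⟩ := retr_gen deg R ⟨i, hi⟩
    rw [h1, incl_gen]
  | algebraMap r => rw [AlgHom.commutes, AlgHom.commutes]
  | add a b _ _ iha ihb => rw [map_add, map_add, iha, ihb]
  | mul a b _ _ iha ihb => rw [map_mul, map_mul, iha, ihb]

private theorem closed_of_min {ι : Type} {deg wt : ι → ℕ} {d : Lam deg →ₗ[ℚ] Lam deg}
    (hd : Dat deg wt d) (Y : Set ι) {y : ι} (hmin : ∀ z ∈ Y, deg y ≤ deg z)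
    (hy : d (gen deg y) ∈ idealSpan (gen deg '' Y)) : d (gen deg y) = 0 := by
  have h1 : retr deg Yᶜ (d (gen deg y)) = 0 := by
    have h2 := map_idealSpan (retr deg Yᶜ) (s := gen deg '' Y) (s' := ∅) (by
      rintro _ ⟨z, hz, rfl⟩
      rw [retr_gen_zero Yᶜ (fun h => h hz)]
      exact zero_mem _) hy
    rw [idealSpan_empty] at h2
    exact (Submodule.mem_bot ℚ).1 h2
  have h3 : d (gen deg y) ∈ Algebra.adjoin ℚ (gen deg '' Yᶜ) := by
    refine Algebra.adjoin_mono (Set.image_mono ?_) (hd.sull y)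
    intro j hj hjY
    exact absurd (hmin j hjY) (not_le.2 hj)
  have h4 := incl_retr_adjoin Yᶜ h3
  rw [h1, map_zero] at h4
  exact h4.symm

private theorem step_le {ι : Type} {deg : ι → ℕ} (R : Set ι) (s : Set ι) {v : Lam deg} (hv : v ∈ gen deg '' s)
    {s' : Set (Lam (fun i : R => deg i))}
    (hs : ∀ i : R, (i : ι) ∈ s → gen (fun i : R => deg i) i ∈ s') :
    retr deg R v ∈ idealSpan s' := by
  obtain ⟨j, hj, rfl⟩ := hv
  by_cases hjy : j ∈ R
  · have h1 : retr deg R (gen deg j) = gen (fun i : R => deg i) ⟨j, hjy⟩ := retr_gen deg R ⟨j, hjy⟩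
    rw [h1]
    exact mem_idealSpan_self (hs ⟨j, hjy⟩ hj)
  · rw [retr_gen_zero R hjy]
    exact zero_mem _

theorem nil_all {n : ℕ} (k : ℕ) : ∀ {ι : Type} {deg wt : ι → ℕ} {d : Lam deg →ₗ[ℚ] Lam deg},
    Dat deg wt d → Kills deg wt n d → ∀ Y : Set ι, Y.Finite → Y.ncard = k →
    (∀ y ∈ Y, Odd (deg y) ∧ wt y = 1 ∧ d (gen deg y) ∈ idealSpan (gen deg '' Y)) →
    ∀ t : Lam deg, sgn deg t = t → t ∈ lamPos deg →
    (FlatElem d (idealSpan (gen deg '' Y)) t ∨ PairElem d (gen deg) Y t) →
    ∃ M, t ^ M ∈ JJ deg d := by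
  induction k with
  | zero =>
    intro ι deg wt d hd hP Y hYf hYk hY t ht ht' h
    have hY0 : Y = ∅ := (Set.ncard_eq_zero hYf).1 hYk
    subst hY0
    rw [Set.image_empty] at h
    rcases h with h | h
    · obtain ⟨s, e, ω, k, hF, rfl⟩ := h
      rw [idealSpan_empty] at hF
      exact ⟨n + 1, flat_nil hd hP hF k⟩
    · obtain ⟨i₁, i₂, hne, he₁, he₂, h₁, h₂, h₃⟩ := h
      rw [Set.image_empty, idealSpan_empty] at h₁
      rw [Set.image_empty, Set.empty_union] at h₂ h₃
      exact pair_nil hd hP hne he₁ he₂ ((Submodule.mem_bot ℚ).1 h₁) h₂ ht ht' h₃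
  | succ k ih =>
    intro ι deg wt d hd hP Y hYf hYk hY t ht ht' h
    have hne : Y.Nonempty := by
      rw [← Set.ncard_pos hYf]
      omega
    obtain ⟨y, hyY, hmin⟩ := Set.exists_min_image Y deg hYf hne
    obtain ⟨hyo, hyw, hyd⟩ := hY y hyY
    have hdy : d (gen deg y) = 0 := closed_of_min hd Y hmin hyd
    obtain ⟨R, hR, d', hd', hP', hcomm, hJ⟩ : ∃ R : Set ι, (∀ i, i ∈ R ↔ i ≠ y) ∧
        ∃ d' : Lam (fun i : R => deg i) →ₗ[ℚ] Lam (fun i : R => deg i),
        Dat (fun i : R => deg i) (fun i => wt i) d' ∧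
        Kills (fun i : R => deg i) (fun i => wt i) n d' ∧
        (∀ a, d' (retr deg R a) = retr deg R (d a)) ∧
        (∀ a, retr deg R a ∈ JJ (fun i : R => deg i) d' → a ∈ JJ deg d) :=
      ⟨{i : ι | i ≠ y}, fun _ => Iff.rfl, quot_step hd hP hyo hyw hdy⟩
    obtain ⟨Y', hY'⟩ : ∃ Y' : Set R, ∀ i, i ∈ Y' ↔ (i : ι) ∈ Y := ⟨{i : R | (i : ι) ∈ Y}, fun _ => Iff.rfl⟩
    have hgen : ∀ i : R, d' (gen (fun i : R => deg i) i) = retr deg R (d (gen deg i)) := by
      intro i
      rw [← hcomm, retr_gen]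
    have hYf' : Y'.Finite := by
      refine (hYf.preimage (f := (Subtype.val : R → ι)) Subtype.val_injective.injOn).subset ?_
      intro i hi
      exact (hY' i).1 hi
    have himg : Subtype.val '' Y' = Y \ {y} := by
      ext j
      constructor
      · rintro ⟨i, hi, rfl⟩
        exact ⟨(hY' i).1 hi, (hR i).1 i.2⟩
      · rintro ⟨hj, hjy⟩
        exact ⟨⟨j, (hR j).2 hjy⟩, (hY' _).2 hj, rfl⟩
    have hYk' : Y'.ncard = k := by
      rw [← Set.ncard_image_of_injective Y' Subtype.val_injective, himg,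
        Set.ncard_sdiff_singleton_of_mem hyY, hYk]
      rfl
    have hs : ∀ v ∈ gen deg '' Y, retr deg R v ∈ idealSpan (gen (fun i : R => deg i) '' Y') :=
      fun v hv => step_le R Y hv (fun i hi => ⟨i, (hY' i).2 hi, rfl⟩)
    have hmap : ∀ a ∈ idealSpan (gen deg '' Y), retr deg R a ∈
        idealSpan (gen (fun i : R => deg i) '' Y') := fun a ha => map_idealSpan (retr deg R) hs ha
    have hY'' : ∀ i ∈ Y', Odd (deg i) ∧ wt i = 1 ∧
        d' (gen (fun i : R => deg i) i) ∈ idealSpan (gen (fun i : R => deg i) '' Y') := by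
      intro i hi
      obtain ⟨h1, h2, h3⟩ := hY i ((hY' i).1 hi)
      exact ⟨h1, h2, by rw [hgen]; exact hmap _ h3⟩
    have hpos : ∀ a ∈ lamPos deg, retr deg R a ∈ lamPos (fun i : R => deg i) := by
      intro a ha
      have h1 : a ∈ FW deg (fun _ => 1) 1 := lamPos_eq (deg := deg) ▸ ha
      have h2 : retr deg R a ∈ FW (fun i : R => deg i) (fun _ => 1) 1 := retr_FW R (wt := fun _ => 1) h1
      exact lamPos_eq (deg := fun i : R => deg i) ▸ h2
    have hev : ∀ a, sgn deg a = a → sgn (fun i : R => deg i) (retr deg R a) = retr deg R a := by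
      intro a ha
      rw [← retr_sgn, ha]
    have hfin : FlatElem d' (idealSpan (gen (fun i : R => deg i) '' Y')) (retr deg R t) ∨
        PairElem d' (gen (fun i : R => deg i)) Y' (retr deg R t) := by
      rcases h with h | h
      · left
        obtain ⟨s, e, ω, j, hF, rfl⟩ := h
        refine ⟨s, fun i => retr deg R (e i), fun i l => retr deg R (ω i l), j, ?_, rfl⟩
        refine ⟨fun i => hev _ (hF.even i), fun i => hpos _ (hF.pos i), fun i l => ?_,
          fun i l hil => ?_, fun i => ?_, fun i l => ?_⟩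
        · rw [← retr_sgn, hF.odd, map_neg]
        · rw [hF.tri i l hil, map_zero]
        · have h1 := hmap _ (hF.de i)
          rw [map_sub, map_sum] at h1
          simp only [map_mul] at h1
          rw [hcomm]
          exact h1
        · have h1 := hmap _ (hF.dω i l)
          rw [map_sub, map_sum] at h1
          simp only [map_mul] at h1
          rw [hcomm]
          exact h1
      · right
        obtain ⟨i₁, i₂, hne', he₁, he₂, h₁, h₂, h₃⟩ := h
        have hi₁ : i₁ ∈ R := by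
          rw [hR]
          rintro rfl
          exact (Nat.not_even_iff_odd.2 hyo) he₁
        have hi₂ : i₂ ∈ R := by
          rw [hR]
          rintro rfl
          exact (Nat.not_even_iff_odd.2 hyo) he₂
        have hg₁ : retr deg R (gen deg i₁) = gen (fun i : R => deg i) ⟨i₁, hi₁⟩ := retr_gen deg R ⟨i₁, hi₁⟩
        have hg₂ : retr deg R (gen deg i₂) = gen (fun i : R => deg i) ⟨i₂, hi₂⟩ := retr_gen deg R ⟨i₂, hi₂⟩
        have hmono : ∀ {s s' : Set (Lam (fun i : R => deg i))}, s ⊆ s' → idealSpan s ≤ idealSpan s' := by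
          intro s s' hss
          unfold idealSpan
          refine Submodule.span_mono ?_
          rintro a ⟨p, v, q, hv, rfl⟩
          exact ⟨p, v, q, hss hv, rfl⟩
        refine ⟨⟨i₁, hi₁⟩, ⟨i₂, hi₂⟩, fun h => hne' (congrArg Subtype.val h), he₁, he₂, ?_, ?_, ?_⟩
        · rw [hgen]
          exact hmap _ h₁
        · rw [hgen]
          refine map_idealSpan (retr deg R) ?_ h₂
          rintro v (hv | hv)
          · exact hmono Set.subset_union_left (hs v hv)
          · rw [Set.mem_singleton_iff] at hv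
            rw [hv, hg₁]
            exact mem_idealSpan_self (Or.inr rfl)
        · rw [hcomm]
          refine map_idealSpan (retr deg R) ?_ h₃
          rintro v (hv | hv)
          · exact hmono Set.subset_union_left (hs v hv)
          · rcases hv with hv | hv
            · rw [hv, hg₁]
              exact mem_idealSpan_self (Or.inr (Or.inl rfl))
            · rw [Set.mem_singleton_iff] at hv
              rw [hv, hg₂]
              exact mem_idealSpan_self (Or.inr (Or.inr rfl))
    obtain ⟨M, hM⟩ := ih hd' hP' Y' hYf' hYk' hY'' (retr deg R t) (hev t ht) (hpos t ht') hfin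
    refine ⟨M, hJ _ ?_⟩
    rw [map_pow]
    exact hM

end Anick2
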