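import Pool.Agent.Helper2.AN.Facts

/-!
AN-03 (project AN, MP_5f0082_gt). Splitting off one odd generator `y`: `ΛW = Λ' ⊕ y Λ'`, `Λ'` the free
algebra on the other generators (`incl`, `retr` of `GCA/Basic.lean`, for the set `{i | i ≠ y}`).

Proof. Put `R = {i | i ≠ y}`, `Λ' = Lam (fun i : R => deg i)`. Let `M : Lam deg →ₐ Matrix (Fin 2) (Fin 2) Λ'` be
`Lam.lift` with
  `gen j ↦ !![sgn (gen' j), 0; 0, gen' j]` (`j ≠ y`, `gen' j` the generator of `Λ'`), `gen y ↦ !![0, 1; 0, 0]`.
Relations: for `j, k ≠ y` clear (`gen_comm`, `sgn` is an algebra map); for `y` and `j`: with `s = sgn (gen' j) =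
(-1)^(deg j) gen' j`, `E diag(s, g) = g E`, `diag(s, g) E = s E`, and `(-1)^(deg y deg j) = (-1)^(deg j)` since `deg y` is
odd; for `y, y`: `E E = 0`. By induction on monomials: `M a 1 0 = 0`, `M a 1 1 = retr a`, `M a 0 0 = sgn (retr a)`.
Put `q a = M a 0 1` (linear). Then `M (a b) = M a M b` gives `q (a b) = sgn (retr a) * q b + q a * retr b`,
`q (gen y) = 1`, `q (gen j) = 0`.
(1) `a = incl (retr a) + gen y * incl (q a)`: on monomials, by induction on the list:
    for `gen j * b`, `j ≠ y`: `q (gen j b) = sgn (gen' j) * q b`, `gen j * gen y = (-1)^(deg j) gen y * gen j`, fine;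
    for `gen y * b`: `retr (gen y b) = 0`, `q (gen y b) = retr b`, and `gen y * b = gen y * (incl (retr b) + gen y * _)
    = gen y * incl (retr b)` since `gen y * gen y = 0`.
(2) `q (incl b) = 0` (by induction on monomials of `Λ'`), (3) `q (gen y * incl b) = retr (incl b) = b`.
(4) parity: on monomials `q (mon l)` is `0` or `±` a monomial of degree `degSum l - deg y`, `deg y` odd; more
    simply by induction on the monomial with `q (a b) = sgn (retr a) q b + q a retr b`.
(5), (6) weight and degree: by induction on the list prove: for every `l`, `q (mon l)` lies in the span of the `mon l'`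
    with `degSum deg l' + deg y = degSum deg l` and `degSum wt l' + wt y = degSum wt l` (`l'` a list in `R`; weights of `l'`
    computed after `Subtype.val`), then extend linearly.
(7)-(10): `retr` and `incl` preserve weights and parity: on monomials.
-/

set_option autoImplicit false

namespace Anick2

variable {ι : Type} {deg : ι → ℕ}

private theorem neg_one_smul_lam (x : Lam deg) : (-1 : ℚ) • x = -x := by
  rw [Algebra.smul_def, map_neg, map_one, neg_one_mul]

section Split
variable (y : ι)

/-- The values of the matrix representation on the generators. -/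
private noncomputable def osF (deg : ι → ℕ) (j : ι) :
    Matrix (Fin 2) (Fin 2) (Lam (fun i : {i : ι | i ≠ y} => deg i)) :=
  open Classical in
  if h : j ∈ {i : ι | i ≠ y} then
    !![sgn _ (gen (fun i : {i : ι | i ≠ y} => deg i) ⟨j, h⟩), 0;
      0, gen (fun i : {i : ι | i ≠ y} => deg i) ⟨j, h⟩]
  else !![0, 1; 0, 0]

private theorem osF_ne {j : ι} (h : j ∈ {i : ι | i ≠ y}) : osF y deg j =
    !![sgn _ (gen (fun i : {i : ι | i ≠ y} => deg i) ⟨j, h⟩), 0;
      0, gen (fun i : {i : ι | i ≠ y} => deg i) ⟨j, h⟩] := by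
  unfold osF
  rw [dif_pos h]

private theorem osF_self : osF y deg y = !![0, 1; 0, 0] := by
  unfold osF
  rw [dif_neg]
  simp

private theorem osF_comm (hy : Odd (deg y)) (i j : ι) :
    osF y deg i * osF y deg j = (-1 : ℚ) ^ (deg i * deg j) • (osF y deg j * osF y deg i) := by
  have hp : ∀ n : ℕ, (-1 : ℚ) ^ (n * deg y) = (-1 : ℚ) ^ n := by
    intro n
    rw [mul_comm, pow_mul, hy.neg_one_pow]
  have hq : ∀ n : ℕ, (-1 : ℚ) ^ n * (-1 : ℚ) ^ n = 1 := by
    intro n
    rw [← mul_pow]; simp
  by_cases hi : i ∈ {i : ι | i ≠ y}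
  · by_cases hj : j ∈ {i : ι | i ≠ y}
    · rw [osF_ne y hi, osF_ne y hj]
      have h1 := gen_comm (fun i : {i : ι | i ≠ y} => deg i) ⟨i, hi⟩ ⟨j, hj⟩
      have h2 := congrArg (sgn (fun i : {i : ι | i ≠ y} => deg i)) h1
      rw [map_mul, map_smul, map_mul] at h2
      ext a b
      fin_cases a <;> fin_cases b
      · simpa [Matrix.mul_fin_two] using h2
      · simp [Matrix.mul_fin_two]
      · simp [Matrix.mul_fin_two]
      · simpa [Matrix.mul_fin_two] using h1
    · have hj' : j = y := by simpa using hj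
      subst hj'
      rw [osF_ne j hi, osF_self]
      have h1 := sgn_gen (fun i : {i : ι | i ≠ j} => deg i) ⟨i, hi⟩
      ext a b
      fin_cases a <;> fin_cases b
      · simp [Matrix.mul_fin_two]
      · simpa [Matrix.mul_fin_two, hp] using h1
      · simp [Matrix.mul_fin_two]
      · simp [Matrix.mul_fin_two]
  · have hi' : i = y := by simpa using hi
    subst hi'
    by_cases hj : j ∈ {k : ι | k ≠ i}
    · rw [osF_ne i hj, osF_self]
      have h1 := sgn_gen (fun k : {k : ι | k ≠ i} => deg k) ⟨j, hj⟩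
      ext a b
      fin_cases a <;> fin_cases b
      · simp [Matrix.mul_fin_two]
      · simp only [Matrix.mul_fin_two, Fin.mk_one, Fin.isValue, Fin.zero_eta]
        rw [mul_comm (deg i), hp]
        simp [h1, smul_smul, hq]
      · simp [Matrix.mul_fin_two]
      · simp [Matrix.mul_fin_two]
    · have hj' : j = i := by simpa using hj
      subst hj'
      rw [osF_self]
      ext a b
      fin_cases a <;> fin_cases b <;> simp [Matrix.mul_fin_two]

variable (hy : Odd (deg y))

/-- The matrix representation. -/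
private noncomputable def osM :
    Lam deg →ₐ[ℚ] Matrix (Fin 2) (Fin 2) (Lam (fun i : {i : ι | i ≠ y} => deg i)) :=
  Lam.lift deg (osF y deg) (osF_comm y hy)

private theorem osM_ne {j : ι} (h : j ∈ {i : ι | i ≠ y}) : osM y hy (gen deg j) =
    !![sgn _ (gen (fun i : {i : ι | i ≠ y} => deg i) ⟨j, h⟩), 0;
      0, gen (fun i : {i : ι | i ≠ y} => deg i) ⟨j, h⟩] := by
  unfold osM
  rw [Lam.lift_gen, osF_ne y h]

private theorem osM_self : osM y hy (gen deg y) = !![0, 1; 0, 0] := by
  unfold osM
  rw [Lam.lift_gen, osF_self]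

private theorem retr_gen_ne {j : ι} (h : j ∈ {i : ι | i ≠ y}) :
    retr deg {i : ι | i ≠ y} (gen deg j) = gen (fun i : {i : ι | i ≠ y} => deg i) ⟨j, h⟩ :=
  retr_gen deg {i : ι | i ≠ y} ⟨j, h⟩

private theorem retr_gen_not (R : Set ι) {j : ι} (h : j ∉ R) :
    retr deg R (gen deg j) = 0 := by
  simp [retr, h]

private theorem retr_gen_self :
    retr deg {i : ι | i ≠ y} (gen deg y) = 0 := retr_gen_not _ (by simp)

private theorem osM_entries (a : Lam deg) :
    osM y hy a 0 0 = sgn _ (retr deg {i : ι | i ≠ y} a) ∧ osM y hy a 1 0 = 0 ∧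
      osM y hy a 1 1 = retr deg {i : ι | i ≠ y} a := by
  induction a using Lam.induction with
  | hm l =>
    induction l with
    | nil => simp
    | cons i l ih =>
      rw [mon_cons, map_mul, map_mul]
      obtain ⟨h1, h2, h3⟩ := ih
      by_cases hi : i ∈ {i : ι | i ≠ y}
      · rw [osM_ne y hy hi, retr_gen_ne y hi]
        refine ⟨?_, ?_, ?_⟩
        · simp [Matrix.mul_apply, Fin.sum_univ_two, h1]
        · simp [Matrix.mul_apply, Fin.sum_univ_two, h2]
        · simp [Matrix.mul_apply, Fin.sum_univ_two, h3]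
      · have hi' : i = y := by simpa using hi
        subst hi'
        rw [osM_self, retr_gen_self]
        refine ⟨?_, ?_, ?_⟩
        · simp [Matrix.mul_apply, Fin.sum_univ_two, h2]
        · simp [Matrix.mul_apply, Fin.sum_univ_two]
        · simp [Matrix.mul_apply, Fin.sum_univ_two]
  | h0 => simp
  | hadd a b ha hb => simp [ha.1, ha.2.1, ha.2.2, hb.1, hb.2.1, hb.2.2]
  | hsmul r a ha => simp [ha.1, ha.2.1, ha.2.2]

/-- The component along `y`. -/
private noncomputable def osQ : Lam deg →ₗ[ℚ] Lam (fun i : {i : ι | i ≠ y} => deg i) where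
  toFun a := osM y hy a 0 1
  map_add' a b := by simp
  map_smul' r a := by simp

private theorem osQ_one : osQ y hy 1 = 0 := by
  simp [osQ]

private theorem osQ_self : osQ y hy (gen deg y) = 1 := by
  simp [osQ, osM_self]

private theorem osQ_ne {j : ι} (h : j ∈ {i : ι | i ≠ y}) : osQ y hy (gen deg j) = 0 := by
  change osM y hy (gen deg j) 0 1 = 0
  rw [osM_ne y hy h]
  simp

private theorem osQ_mul (a b : Lam deg) : osQ y hy (a * b) =
    sgn _ (retr deg {i : ι | i ≠ y} a) * osQ y hy b + osQ y hy a * retr deg {i : ι | i ≠ y} b := by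
  change osM y hy (a * b) 0 1 = _
  rw [map_mul, Matrix.mul_apply, Fin.sum_univ_two, (osM_entries y hy a).1,
    (osM_entries y hy b).2.2]
  rfl

private theorem gen_sq (hy : Odd (deg y)) : gen deg y * gen deg y = 0 := by
  have h := gen_comm deg y y
  have ho : Odd (deg y * deg y) := hy.mul hy
  rw [ho.neg_one_pow, neg_one_smul_lam] at h
  have h2 : (2 : ℚ) • (gen deg y * gen deg y) = 0 := by
    rw [two_smul]
    nth_rw 1 [h]
    rw [neg_add_cancel]
  rcases smul_eq_zero.1 h2 with h3 | h3
  · norm_num at h3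
  · exact h3

private theorem osQ_dec (a : Lam deg) : a = incl deg {i : ι | i ≠ y} (retr deg {i : ι | i ≠ y} a) +
    gen deg y * incl deg {i : ι | i ≠ y} (osQ y hy a) := by
  induction a using Lam.induction with
  | hm l =>
    induction l with
    | nil => simp [osQ_one]
    | cons i l ih =>
      rw [mon_cons]
      by_cases hi : i ∈ {i : ι | i ≠ y}
      · rw [osQ_mul, osQ_ne y hy hi, zero_mul, add_zero, map_mul, retr_gen_ne y hi, map_mul,
          map_mul, sgn_gen, map_smul, incl_gen, smul_mul_assoc, mul_smul_comm, ← mul_assoc]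
        have h1 := gen_comm deg i y
        have h2 : (-1 : ℚ) ^ (deg i * deg y) = (-1 : ℚ) ^ deg i := by
          rw [mul_comm, pow_mul, hy.neg_one_pow]
        rw [h2] at h1
        change _ = _ + (-1 : ℚ) ^ deg i • (gen deg y * gen deg i * _)
        rw [← smul_mul_assoc, ← h1, mul_assoc, ← mul_add, ← ih]
      · have hi' : i = y := by simpa using hi
        subst hi'
        rw [osQ_mul, osQ_self, retr_gen_self, map_zero, zero_mul, zero_add, one_mul, map_mul,
          retr_gen_self, zero_mul, map_zero, zero_add]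
        nth_rw 1 [ih]
        rw [mul_add, ← mul_assoc, gen_sq i hy, zero_mul, add_zero]
  | h0 => simp
  | hadd a b ha hb =>
    rw [map_add, map_add, map_add, map_add, mul_add]
    nth_rw 1 [ha, hb]
    abel
  | hsmul r a ha =>
    rw [map_smul, map_smul, map_smul, map_smul, mul_smul_comm, ← smul_add, ← ha]

private theorem osQ_incl (b : Lam (fun i : {i : ι | i ≠ y} => deg i)) :
    osQ y hy (incl deg {i : ι | i ≠ y} b) = 0 := by
  induction b using Lam.induction with
  | hm l =>
    induction l with
    | nil => simp [osQ_one]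
    | cons i l ih =>
      rw [mon_cons, map_mul, osQ_mul, ih, incl_gen, osQ_ne y hy i.2]
      simp
  | h0 => simp
  | hadd a b ha hb => simp [ha, hb]
  | hsmul r a ha => simp [ha]

private theorem osQ_gen_incl (b : Lam (fun i : {i : ι | i ≠ y} => deg i)) :
    osQ y hy (gen deg y * incl deg {i : ι | i ≠ y} b) = b := by
  rw [osQ_mul, osQ_incl, mul_zero, zero_add, osQ_self, one_mul, retr_incl]

end Split

private theorem retr_mon (R : Set ι) (l : List ι) : ∃ (c : ℚ) (l' : List R),
    retr deg R (mon deg l) = c • mon (fun i : R => deg i) l' ∧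
      (c = 0 ∨ ∀ wt : ι → ℕ, degSum (fun i : R => wt i) l' = degSum wt l) := by
  induction l with
  | nil => exact ⟨1, [], by simp, Or.inr fun wt => by simp⟩
  | cons i l ih =>
    obtain ⟨c, l', h1, h2⟩ := ih
    by_cases hi : i ∈ R
    · refine ⟨c, ⟨i, hi⟩ :: l', ?_, ?_⟩
      · rw [mon_cons, map_mul, h1, mon_cons, mul_smul_comm]
        congr 2
        exact retr_gen deg R ⟨i, hi⟩
      · rcases h2 with h2 | h2
        · exact Or.inl h2
        · refine Or.inr fun wt => ?_
          rw [degSum_cons, degSum_cons, h2 wt]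
    · refine ⟨0, [], ?_, Or.inl rfl⟩
      rw [mon_cons, map_mul, retr_gen_not R hi, zero_mul, zero_smul]

private theorem osQ_mon {y : ι} (hy : Odd (deg y)) (l : List ι) :
    ∃ (c : ℚ) (l' : List {i : ι | i ≠ y}),
    osQ y hy (mon deg l) = c • mon (fun i : {i : ι | i ≠ y} => deg i) l' ∧
      (c = 0 ∨ ∀ wt : ι → ℕ,
        degSum (fun i : {i : ι | i ≠ y} => wt i) l' + wt y = degSum wt l) := by
  induction l with
  | nil => exact ⟨0, [], by rw [mon_nil, osQ_one, zero_smul], Or.inl rfl⟩
  | cons i l ih =>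
    obtain ⟨c, l', h1, h2⟩ := ih
    by_cases hi : i ∈ {i : ι | i ≠ y}
    · refine ⟨(-1 : ℚ) ^ deg i * c, ⟨i, hi⟩ :: l', ?_, ?_⟩
      · rw [mon_cons, osQ_mul, osQ_ne y hy hi, zero_mul, add_zero, h1, retr_gen_ne y hi, sgn_gen,
          smul_mul_smul_comm, mon_cons]
      · rcases h2 with h2 | h2
        · exact Or.inl (by rw [h2, mul_zero])
        · refine Or.inr fun wt => ?_
          rw [degSum_cons, degSum_cons, ← h2 wt, add_assoc]
    · have hi' : i = y := by simpa using hi
      subst hi'
      obtain ⟨c', l'', h3, h4⟩ := retr_mon (deg := deg) {k : ι | k ≠ i} l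
      refine ⟨c', l'', ?_, ?_⟩
      · rw [mon_cons, osQ_mul, osQ_self, retr_gen_self, map_zero, zero_mul, zero_add, one_mul, h3]
      · rcases h4 with h4 | h4
        · exact Or.inl h4
        · refine Or.inr fun wt => ?_
          rw [degSum_cons, h4 wt, add_comm]

variable (R : Set ι)

theorem retr_FW {wt : ι → ℕ} {k : ℕ} {a : Lam deg} (ha : a ∈ FW deg wt k) :
    retr deg R a ∈ FW (fun i : R => deg i) (fun i => wt i) k := by
  unfold FW at ha
  induction ha using Submodule.span_induction with
  | mem x hx =>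
    obtain ⟨l, hl, rfl⟩ := hx
    obtain ⟨c, l', h1, h2⟩ := retr_mon (deg := deg) R l
    rw [h1]
    rcases h2 with h2 | h2
    · rw [h2, zero_smul]; exact zero_mem _
    · exact Submodule.smul_mem _ _ (Submodule.subset_span ⟨l', by rw [h2 wt]; exact hl, rfl⟩)
  | zero => rw [map_zero]; exact zero_mem _
  | add x z _ _ hx hz => rw [map_add]; exact add_mem hx hz
  | smul r x _ hx => rw [map_smul]; exact Submodule.smul_mem _ _ hx

theorem incl_FW {wt : ι → ℕ} {k : ℕ} {a : Lam (fun i : R => deg i)}
    (ha : a ∈ FW (fun i : R => deg i) (fun i => wt i) k) : incl deg R a ∈ FW deg wt k := by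
  unfold FW at ha
  induction ha using Submodule.span_induction with
  | mem x hx =>
    obtain ⟨l, hl, rfl⟩ := hx
    rw [incl_mon]
    exact Submodule.subset_span ⟨l.map Subtype.val, by rw [degSum_map wt R l]; exact hl, rfl⟩
  | zero => rw [map_zero]; exact zero_mem _
  | add x z _ _ hx hz => rw [map_add]; exact add_mem hx hz
  | smul r x _ hx => rw [map_smul]; exact Submodule.smul_mem _ _ hx

theorem retr_sgn (a : Lam deg) : retr deg R (sgn deg a) = sgn _ (retr deg R a) := by
  have h : (retr deg R).comp (sgn deg) = (sgn (fun i : R => deg i)).comp (retr deg R) := by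
    refine Lam.algHom_ext _ fun i => ?_
    rw [AlgHom.comp_apply, AlgHom.comp_apply, sgn_gen, map_smul]
    by_cases hi : i ∈ R
    · have h1 : retr deg R (gen deg i) = gen (fun i : R => deg i) ⟨i, hi⟩ :=
        retr_gen deg R ⟨i, hi⟩
      rw [h1, sgn_gen]
    · rw [retr_gen_not R hi, smul_zero, map_zero]
  exact congrArg (fun f : Lam deg →ₐ[ℚ] Lam (fun i : R => deg i) => f a) h

theorem incl_sgn (a : Lam (fun i : R => deg i)) :
    incl deg R (sgn _ a) = sgn deg (incl deg R a) := by
  have h : (incl deg R).comp (sgn (fun i : R => deg i)) = (sgn deg).comp (incl deg R) := by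
    refine Lam.algHom_ext _ fun i => ?_
    rw [AlgHom.comp_apply, AlgHom.comp_apply, sgn_gen, map_smul, incl_gen, sgn_gen]
  exact congrArg (fun f : Lam (fun i : R => deg i) →ₐ[ℚ] Lam deg => f a) h

theorem incl_hom {n : ℕ} {a : Lam (fun i : R => deg i)} (ha : a ∈ hom (fun i : R => deg i) n) :
    incl deg R a ∈ hom deg n :=
  homS_le deg R n (incl_mem deg R ha)

theorem retr_hom {n : ℕ} {a : Lam deg} (ha : a ∈ hom deg n) :
    retr deg R a ∈ hom (fun i : R => deg i) n := by
  refine hom_induction deg (C := fun a => retr deg R a ∈ hom (fun i : R => deg i) n)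
    (fun l hl => ?_) (by rw [map_zero]; exact zero_mem _)
    (fun a b ha hb => by rw [map_add]; exact add_mem ha hb)
    (fun r a ha => by rw [map_smul]; exact Submodule.smul_mem _ _ ha) ha
  obtain ⟨c, l', h1, h2⟩ := retr_mon (deg := deg) R l
  rw [h1]
  rcases h2 with h2 | h2
  · rw [h2, zero_smul]; exact zero_mem _
  · refine Submodule.smul_mem _ _ ?_
    have h3 := mon_mem_hom (fun i : R => deg i) l'
    rw [h2 deg, hl] at h3
    exact h3

theorem incl_DLE {M : ℕ} {a : Lam (fun i : R => deg i)}
    (ha : a ∈ DLE (fun i : R => deg i) M) : incl deg R a ∈ DLE deg M := by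
  unfold DLE at ha
  induction ha using Submodule.span_induction with
  | mem x hx =>
    obtain ⟨l, hl, rfl⟩ := hx
    rw [incl_mon]
    exact Submodule.subset_span ⟨l.map Subtype.val, by rw [degSum_map deg R l]; exact hl, rfl⟩
  | zero => rw [map_zero]; exact zero_mem _
  | add x z _ _ hx hz => rw [map_add]; exact add_mem hx hz
  | smul r x _ hx => rw [map_smul]; exact Submodule.smul_mem _ _ hx

theorem d_DLE {d : Lam deg →ₗ[ℚ] Lam deg} (hd : IsDifferential (hom deg) d) {M : ℕ}
    {a : Lam deg} (ha : a ∈ DLE deg M) : d a ∈ DLE deg (M + 1) := by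
  unfold DLE at ha
  induction ha using Submodule.span_induction with
  | mem x hx =>
    obtain ⟨l, hl, rfl⟩ := hx
    have h1 := hd.map_hom _ _ (mon_mem_hom deg l)
    refine hom_induction deg (C := fun a => a ∈ DLE deg (M + 1)) (fun l' hl' => ?_) (zero_mem _)
      (fun a b ha hb => add_mem ha hb) (fun r a ha => Submodule.smul_mem _ _ ha) h1
    exact Submodule.subset_span ⟨l', by omega, rfl⟩
  | zero => rw [map_zero]; exact zero_mem _
  | add x z _ _ hx hz => rw [map_add]; exact add_mem hx hz
  | smul r x _ hx => rw [map_smul]; exact Submodule.smul_mem _ _ hx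

theorem odd_split {y : ι} (hy : Odd (deg y)) :
    ∃ q : Lam deg →ₗ[ℚ] Lam (fun i : {i : ι | i ≠ y} => deg i),
      (∀ a, a = incl deg {i : ι | i ≠ y} (retr deg {i : ι | i ≠ y} a) +
        gen deg y * incl deg {i : ι | i ≠ y} (q a)) ∧
      (∀ b, q (incl deg {i : ι | i ≠ y} b) = 0) ∧
      (∀ b, q (gen deg y * incl deg {i : ι | i ≠ y} b) = b) ∧
      (∀ a, sgn _ (q a) = -q (sgn deg a)) ∧
      (∀ (wt : ι → ℕ) (k : ℕ) (a : Lam deg), wt y = 1 → a ∈ FW deg wt (k + 1) →
        q a ∈ FW (fun i : {i : ι | i ≠ y} => deg i) (fun i => wt i) k) ∧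
      (∀ (M : ℕ) (a : Lam deg), a ∈ DLE deg M →
        q a ∈ DLE (fun i : {i : ι | i ≠ y} => deg i) (M - deg y) ∧ (M < deg y → q a = 0)) := by
  refine ⟨osQ y hy, osQ_dec y hy, osQ_incl y hy, osQ_gen_incl y hy, fun a => ?_,
    fun wt k a hw ha => ?_, fun M a ha => ?_⟩
  · have h1 := congrArg (fun z => osQ y hy (sgn deg z)) (osQ_dec y hy a)
    simp only [map_add, map_mul] at h1
    rw [← incl_sgn, osQ_incl, zero_add, ← incl_sgn, sgn_gen, hy.neg_one_pow, neg_one_smul_lam,
      neg_mul, map_neg, osQ_gen_incl] at h1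
    rw [h1, neg_neg]
  · unfold FW at ha
    induction ha using Submodule.span_induction with
    | mem x hx =>
      obtain ⟨l, hl, rfl⟩ := hx
      obtain ⟨c, l', h1, h2⟩ := osQ_mon (deg := deg) hy l
      rw [h1]
      rcases h2 with h2 | h2
      · rw [h2, zero_smul]; exact zero_mem _
      · refine Submodule.smul_mem _ _ (Submodule.subset_span ⟨l', ?_, rfl⟩)
        have := h2 wt
        omega
    | zero => rw [map_zero]; exact zero_mem _
    | add x z _ _ hx hz => rw [map_add]; exact add_mem hx hz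
    | smul r x _ hx => rw [map_smul]; exact Submodule.smul_mem _ _ hx
  · unfold DLE at ha
    induction ha using Submodule.span_induction with
    | mem x hx =>
      obtain ⟨l, hl, rfl⟩ := hx
      obtain ⟨c, l', h1, h2⟩ := osQ_mon (deg := deg) hy l
      rw [h1]
      rcases h2 with h2 | h2
      · rw [h2, zero_smul]; exact ⟨zero_mem _, fun _ => rfl⟩
      · have h3 := h2 deg
        refine ⟨Submodule.smul_mem _ _ (Submodule.subset_span ⟨l', ?_, rfl⟩), fun h4 => ?_⟩
        · omega
        · exfalso; omega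
    | zero => rw [map_zero]; exact ⟨zero_mem _, fun _ => rfl⟩
    | add x z _ _ hx hz =>
      rw [map_add]
      exact ⟨add_mem hx.1 hz.1, fun h => by rw [hx.2 h, hz.2 h, add_zero]⟩
    | smul r x _ hx =>
      rw [map_smul]
      exact ⟨Submodule.smul_mem _ _ hx.1, fun h => by rw [hx.2 h, smul_zero]⟩

end Anick2
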