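import Pool.Agent.Helper2.AN.OddSplit

/-!
AN-04 (project AN, MP_5f0082_gt). The property `Kills` passes to the quotient by a closed odd generator.

Notation. `A = Lam deg`, `R = {i | i ≠ y}`, `A' = Lam (deg|R)`, `ρ = retr`, `ι = incl`, `Y = gen deg y`, `q` of
`odd_split`. `Y * Y = 0`, `ρ Y = 0`, `d Y = 0`, so `d (Y * a) = -(Y * d a)`. `d' = ρ ∘ d ∘ ι`.
(a) `d' (ρ a) = ρ (d a)`: `a = ι (ρ a) + Y * ι (q a)`, `ρ (d (Y * _)) = -ρ (Y * _) = 0`.
(b) `IsDifferential`: degree and Leibniz from `d` and `ι` (`incl_hom`, `retr_hom`); `d' (d' a) = d' (ρ (d (ι a))) = ρ (d (d (ι a))) = 0`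
    by (a). `SullivanCondition`: `d' (gen i) = ρ (d (gen i))`, and `ρ` maps `adjoin (gen '' {deg j < deg i})` into the subalgebra
    generated by the `gen j`, `j ∈ R`, `deg j < deg i` (`AlgHom.map_adjoin`, `ρ Y = 0`). `raise`: `retr_FW`.
(c) `Kills`. Let `c ∈ A'` be even, in `FW (n+1)`, `d' c = 0`. Put `c 0 = c`, `c (j+1) = (1/(j+1)) • q (d (ι (c j)))`.
    Claim: `c j` is even, in `FW (n+1)`, and `d (ι (c j)) = (j+1) • (Y * ι (c (j+1)))`.
    `j = 0`: `d (ι c) = ι (ρ (d (ι c))) + Y * ι (q (d (ι c))) = ι (d' c) + Y * ι (c 1)`. Step: `d d = 0` and the formula for `j` give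
    `Y * d (ι (c (j+1))) = 0`; write `d (ι (c (j+1))) = ι p + Y * ι r` (`p = ρ _`, `r = q _`); then `Y * ι p = 0` (as `Y * Y = 0`), so
    `p = q (Y * ι p) = 0`, and `r = (j+2) • c (j+2)`. Parity: `d (ι (c j))` is odd, `q` changes the parity. Weight: `d (ι (c j)) ∈ FW (n+2)`
    (`incl_FW`, `d_raise`), so `q _ ∈ FW (n+1)`. Termination: `c 0 ∈ DLE M` for some `M`; `c j ∈ DLE (M - 2j)` and `c j = 0` if `M < 2j`,
    since `deg y ≥ 3` (odd and `≥ 2`), `incl_DLE`, `d_DLE`. So `c j = 0` for `j ≥ J`.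
    Descending recursion (for `J - k`, induction on `k`; put `U j = 0` for `j ≥ J`): there are odd `U j ∈ FW n` with
    `d (U j) = ι (c j) + (j+1) • (Y * U (j+1))`: the right side is even, in `FW (n+1)` (`Y ∈ FW 1` as `wt y = 1`), and
    `d (RHS) = (j+1) • Y ι (c (j+1)) - (j+1) • Y * (ι (c (j+1)) + (j+2) • Y * U (j+2)) = 0`. For `j ≥ J` both sides are `0`.
    (It is enough to prove by induction on `k`: for all `j` with `J ≤ j + k` there are odd `U, V ∈ FW n` with `d U = ι (c j) + (j+1) • (Y * V)` and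
    `d V = ι (c (j+1)) + Y * W` for some `W`.) Put `u = ρ (U 0)`: odd, in `FW n` (`retr_FW`, `retr_sgn`), `d' u = ρ (d (U 0)) = ρ (ι (c 0)) + 0 = c`.
(d) `JJ`: let `ρ a ∈ JJ' `. First, `ι b ∈ JJ` for `b ∈ JJ'`: `ι (p * s * q) = ι p * ι s * ι q`, `ι (gen j) = gen j` odd, and
    `ι (d' u) = ι (ρ (d (ι u))) = d (ι u) - Y * ι (q (d (ι u))) ∈ JJ`. Then `a = ι (ρ a) + Y * ι (q a) ∈ JJ`.
-/

set_option autoImplicit false

namespace Anick2

/-- The descending recursion: the abstract form of (c). -/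
private theorem kills_abs {A A' : Type} [Ring A] [Algebra ℚ A] [Ring A'] [Algebra ℚ A']
    (s : A →ₐ[ℚ] A) (s' : A' →ₐ[ℚ] A') (I : A' →ₐ[ℚ] A) (ρ : A →ₐ[ℚ] A') (q : A →ₗ[ℚ] A') (Y : A)
    (d : A →ₗ[ℚ] A) (F : ℕ → Submodule ℚ A) (F' : ℕ → Submodule ℚ A')
    (D : ℕ → Submodule ℚ A) (D' : ℕ → Submodule ℚ A') (n m : ℕ) (hm : 3 ≤ m)
    (hsplit : ∀ a, a = I (ρ a) + Y * I (q a))
    (hqY : ∀ b, q (Y * I b) = b)
    (hsq : ∀ a, s' (q a) = -q (s a))
    (hqF : ∀ k a, a ∈ F (k + 1) → q a ∈ F' k)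
    (hqD : ∀ M a, a ∈ D M → q a ∈ D' (M - m) ∧ (M < m → q a = 0))
    (hρF : ∀ k a, a ∈ F k → ρ a ∈ F' k)
    (hIF : ∀ k a, a ∈ F' k → I a ∈ F k)
    (hρs : ∀ a, ρ (s a) = s' (ρ a))
    (hIs : ∀ a, I (s' a) = s (I a))
    (hID : ∀ M a, a ∈ D' M → I a ∈ D M)
    (hdD : ∀ M a, a ∈ D M → d a ∈ D (M + 1))
    (hex : ∀ a, ∃ M, a ∈ D' M)
    (hYY : Y * Y = 0) (hρY : ρ Y = 0) (hsY : s Y = -Y)
    (hYF : ∀ k a, a ∈ F k → Y * a ∈ F (k + 1))
    (hρI : ∀ b, ρ (I b) = b)
    (hdY : ∀ a, d (Y * a) = -(Y * d a))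
    (hsd : ∀ a, s (d a) = -d (s a))
    (hdd : ∀ a, d (d a) = 0)
    (hdF : ∀ k a, a ∈ F k → d a ∈ F (k + 1))
    (hP : ∀ c, s c = c → c ∈ F (n + 1) → d c = 0 → ∃ u, s u = -u ∧ u ∈ F n ∧ d u = c)
    (c : A') (hc : s' c = c) (hcF : c ∈ F' (n + 1)) (hdc : ρ (d (I c)) = 0) :
    ∃ u : A', s' u = -u ∧ u ∈ F' n ∧ ρ (d (I u)) = c := by
  have hYYa : ∀ a, Y * (Y * a) = 0 := fun a => by rw [← mul_assoc, hYY, zero_mul]
  obtain ⟨g, hg0, hgs⟩ : ∃ g : ℕ → A', g 0 = c ∧
      ∀ j : ℕ, g (j + 1) = ((j : ℚ) + 1)⁻¹ • q (d (I (g j))) :=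
    ⟨fun j => Nat.rec c (fun j x => ((j : ℚ) + 1)⁻¹ • q (d (I x))) j, rfl, fun j => rfl⟩
  have hpos : ∀ j : ℕ, ((j : ℚ) + 1) ≠ 0 := fun j => by positivity
  have hgq : ∀ j : ℕ, ((j : ℚ) + 1) • g (j + 1) = q (d (I (g j))) := fun j => by
    rw [hgs, smul_smul, mul_inv_cancel₀ (hpos j), one_smul]
  -- parity
  have hpar : ∀ j, s' (g j) = g j := by
    intro j
    induction j with
    | zero => rw [hg0]; exact hc
    | succ j ih =>
      rw [hgs, map_smul, hsq, hsd, ← hIs, ih, map_neg, neg_neg]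
  -- weight
  have hwt : ∀ j, g j ∈ F' (n + 1) := by
    intro j
    induction j with
    | zero => rw [hg0]; exact hcF
    | succ j ih =>
      rw [hgs]
      exact Submodule.smul_mem _ _ (hqF _ _ (hdF _ _ (hIF _ _ ih)))
  -- the formula for the differential
  have hform : ∀ j : ℕ, d (I (g j)) = Y * I (q (d (I (g j)))) := by
    intro j
    induction j with
    | zero =>
      have h := hsplit (d (I (g 0)))
      rw [hg0] at h ⊢
      rw [hdc, map_zero, zero_add] at h
      exact h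
    | succ j ih =>
      have h1 : Y * d (I (g (j + 1))) = 0 := by
        have h2 := hdd (I (g j))
        rw [ih, ← hgq j, map_smul, mul_smul_comm, map_smul, hdY] at h2
        have h3 := (smul_eq_zero.1 h2).resolve_left (hpos j)
        exact neg_eq_zero.1 h3
      have h := hsplit (d (I (g (j + 1))))
      have h4 : Y * I (ρ (d (I (g (j + 1))))) = 0 := by
        have h5 := congrArg (fun x => Y * x) h
        simp only [mul_add] at h5
        rw [h1, hYYa, add_zero] at h5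
        exact h5.symm
      have h6 : ρ (d (I (g (j + 1)))) = 0 := by
        have h7 := hqY (ρ (d (I (g (j + 1)))))
        rw [h4, map_zero] at h7
        exact h7.symm
      rw [h6, map_zero, zero_add] at h
      exact h
  -- termination
  have hstep0 : ∀ j, g j = 0 → g (j + 1) = 0 := by
    intro j hj
    rw [hgs, hj, map_zero, map_zero, map_zero, smul_zero]
  have hzero : ∀ j, g j = 0 → ∀ i, j ≤ i → g i = 0 := by
    intro j hj i hi
    induction i, hi using Nat.le_induction with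
    | base => exact hj
    | succ i _ ih => exact hstep0 i ih
  have hterm : ∀ M j, g j ∈ D' M → ∃ J, ∀ i, J ≤ i → g i = 0 := by
    intro M
    induction M using Nat.strong_induction_on with
    | _ M ih =>
      intro j hj
      have h1 := hqD (M + 1) _ (hdD _ _ (hID _ _ hj))
      by_cases hM : M + 1 < m
      · refine ⟨j + 1, hzero (j + 1) ?_⟩
        rw [hgs, h1.2 hM, smul_zero]
      · refine ih (M + 1 - m) (by omega) (j + 1) ?_
        rw [hgs]
        exact Submodule.smul_mem _ _ h1.1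
  obtain ⟨M, hM⟩ := hex (g 0)
  obtain ⟨J, hJ⟩ := hterm M 0 hM
  -- the descending recursion
  have hrec : ∀ k j, J ≤ j + k → ∃ U V : A, s U = -U ∧ U ∈ F n ∧ d U = I (g j) + Y * V := by
    intro k
    induction k with
    | zero =>
      intro j hj
      refine ⟨0, 0, by rw [map_zero, neg_zero], zero_mem _, ?_⟩
      rw [hJ j hj, map_zero, map_zero, mul_zero, add_zero]
    | succ k ih =>
      intro j hj
      obtain ⟨U, V, hU, hUF, hdU⟩ := ih (j + 1) (by omega)
      obtain ⟨u, hu1, hu2, hu3⟩ := hP (I (g j) + Y * (((j : ℚ) + 1) • U))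
        (by
          rw [map_add, map_mul, map_smul, ← hIs, hpar, hsY, hU, smul_neg, neg_mul_neg])
        (add_mem (hIF _ _ (hwt j)) (hYF _ _ (Submodule.smul_mem _ _ hUF)))
        (by
          rw [map_add, hdY, map_smul, hdU, hform j, ← hgq j, smul_add, mul_add, mul_smul_comm,
            map_smul, mul_smul_comm, mul_smul_comm, hYYa, smul_zero, add_zero, add_neg_cancel])
      exact ⟨u, ((j : ℚ) + 1) • U, hu1, hu2, hu3⟩
  obtain ⟨U, V, hU, hUF, hdU⟩ := hrec J 0 (by omega)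
  refine ⟨ρ U, by rw [← hρs, hU, map_neg], hρF _ _ hUF, ?_⟩
  have h1 : ρ (d U) = ρ (d (I (ρ U))) := by
    have h2 := congrArg (fun x => ρ (d x)) (hsplit U)
    simp only [map_add] at h2
    rw [hdY, map_neg, map_mul, hρY, zero_mul, neg_zero, add_zero] at h2
    exact h2
  rw [← h1, hdU, map_add, map_mul, hρY, zero_mul, add_zero, hρI, hg0]

private theorem retr_y {ι : Type} (deg : ι → ℕ) (y : ι) :
    retr deg {i : ι | i ≠ y} (gen deg y) = 0 := by
  simp [retr]

theorem quot_step {ι : Type} {deg wt : ι → ℕ} {d : Lam deg →ₗ[ℚ] Lam deg} {n : ℕ}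
    (hd : Dat deg wt d) (hP : Kills deg wt n d) {y : ι} (hy : Odd (deg y)) (hwy : wt y = 1)
    (hdy : d (gen deg y) = 0) :
    ∃ d' : Lam (fun i : {i : ι | i ≠ y} => deg i) →ₗ[ℚ] Lam (fun i : {i : ι | i ≠ y} => deg i),
      Dat (fun i : {i : ι | i ≠ y} => deg i) (fun i => wt i) d' ∧
      Kills (fun i : {i : ι | i ≠ y} => deg i) (fun i => wt i) n d' ∧
      (∀ a, d' (retr deg {i : ι | i ≠ y} a) = retr deg {i : ι | i ≠ y} (d a)) ∧
      (∀ a, retr deg {i : ι | i ≠ y} a ∈ JJ (fun i : {i : ι | i ≠ y} => deg i) d' →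
        a ∈ JJ deg d) := by
  obtain ⟨q, hsplit, -, hqY, hsq, hqF, hqD⟩ := odd_split (deg := deg) hy
  have hsY : sgn deg (gen deg y) = -gen deg y := sgn_gen_odd hy
  have hYY : gen deg y * gen deg y = 0 := odd_sq hsY
  have hdY : ∀ a, d (gen deg y * a) = -(gen deg y * d a) := by
    intro a
    rw [d_mul hd.diff, hdy, zero_mul, zero_add, hsY, neg_mul]
  have hρY := retr_y deg y
  have ha : ∀ a, retr deg {i : ι | i ≠ y} (d (incl deg {i : ι | i ≠ y}
      (retr deg {i : ι | i ≠ y} a))) = retr deg {i : ι | i ≠ y} (d a) := by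
    intro a
    have h2 := congrArg (fun x => retr deg {i : ι | i ≠ y} (d x)) (hsplit a)
    simp only [map_add] at h2
    rw [hdY, map_neg, map_mul, hρY, zero_mul, neg_zero, add_zero] at h2
    exact h2.symm
  refine ⟨(retr deg {i : ι | i ≠ y}).toLinearMap ∘ₗ d ∘ₗ (incl deg {i : ι | i ≠ y}).toLinearMap,
    ?_, ?_, ha, ?_⟩
  · refine ⟨fun i => hd.two_le i, fun i => hd.one_le i, ⟨?_, ?_, ?_⟩, ?_, ?_⟩
    · intro k a hak
      exact retr_hom _ (hd.diff.map_hom _ _ (incl_hom _ hak))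
    · intro k a hak b
      change retr deg {i : ι | i ≠ y} (d (incl deg {i : ι | i ≠ y} (a * b))) =
        retr deg {i : ι | i ≠ y} (d (incl deg {i : ι | i ≠ y} a)) * b +
          (-1 : ℚ) ^ k • (a * retr deg {i : ι | i ≠ y} (d (incl deg {i : ι | i ≠ y} b)))
      rw [map_mul (incl deg {i : ι | i ≠ y}), hd.diff.leibniz k _ (incl_hom _ hak), map_add,
        map_smul, map_mul, map_mul, retr_incl, retr_incl]
    · intro a
      change retr deg {i : ι | i ≠ y} (d (incl deg {i : ι | i ≠ y}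
        (retr deg {i : ι | i ≠ y} (d (incl deg {i : ι | i ≠ y} a))))) = 0
      rw [ha, hd.diff.d_d, map_zero]
    · intro i
      change retr deg {i : ι | i ≠ y} (d (incl deg {i : ι | i ≠ y}
        (gen (fun i : {i : ι | i ≠ y} => deg i) i))) ∈ _
      rw [incl_gen]
      have h1 := hd.sull (i : ι)
      have h2 : retr deg {i : ι | i ≠ y} (d (gen deg (i : ι))) ∈
          (Algebra.adjoin ℚ (gen deg '' {j | deg j < deg (i : ι)})).map
            (retr deg {i : ι | i ≠ y}) := ⟨_, h1, rfl⟩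
      rw [AlgHom.map_adjoin] at h2
      refine Algebra.adjoin_le ?_ h2
      rintro _ ⟨_, ⟨j, hj, rfl⟩, rfl⟩
      by_cases hjy : j = y
      · rw [hjy, hρY]
        exact zero_mem _
      · rw [show retr deg {i : ι | i ≠ y} (gen deg j) = gen (fun i : {i : ι | i ≠ y} => deg i)
          (⟨j, hjy⟩ : {i : ι | i ≠ y}) from retr_gen deg {i : ι | i ≠ y} ⟨j, hjy⟩]
        exact Algebra.subset_adjoin ⟨⟨j, hjy⟩, hj, rfl⟩
    · intro i
      change retr deg {i : ι | i ≠ y} (d (incl deg {i : ι | i ≠ y}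
        (gen (fun i : {i : ι | i ≠ y} => deg i) i))) ∈ _
      rw [incl_gen]
      exact retr_FW _ (hd.raise (i : ι))
  · intro c hc hcF hdc
    have hm : 3 ≤ deg y := by
      have := hd.two_le y
      obtain ⟨t, ht⟩ := hy
      omega
    exact kills_abs (sgn deg) (sgn _) (incl deg {i : ι | i ≠ y}) (retr deg {i : ι | i ≠ y}) q
      (gen deg y) d (FW deg wt) (FW (fun i : {i : ι | i ≠ y} => deg i) (fun i => wt i)) (DLE deg)
      (DLE (fun i : {i : ι | i ≠ y} => deg i)) n (deg y) hm hsplit hqY hsq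
      (fun k a ha => hqF wt k a hwy ha) hqD (fun k a h => retr_FW _ h) (fun k a h => incl_FW _ h)
      (fun a => retr_sgn _ a) (fun a => incl_sgn _ a) (fun M a h => incl_DLE _ h)
      (fun M a h => d_DLE hd.diff h) (fun a => mem_DLE a) hYY hρY hsY
      (fun k a h => by
        have h1 := FW_mul (gen_mem_FW (deg := deg) (wt := wt) y) h
        rw [hwy, add_comm] at h1
        exact h1)
      (fun b => retr_incl deg _ b) hdY (fun a => sgn_d hd.diff a) hd.diff.d_d
      (fun k a h => d_raise hd h) hP c hc hcF hdc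
  · intro a haJ
    have hYJ : gen deg y ∈ JJ deg d := odd_mem_JJ hsY
    have hI : ∀ b, b ∈ JJ (fun i : {i : ι | i ≠ y} => deg i)
        ((retr deg {i : ι | i ≠ y}).toLinearMap ∘ₗ d ∘ₗ (incl deg {i : ι | i ≠ y}).toLinearMap) →
        incl deg {i : ι | i ≠ y} b ∈ JJ deg d := by
      intro b hb
      unfold JJ idealSpan at hb
      induction hb using Submodule.span_induction with
      | mem x hx =>
        obtain ⟨p, v, r, hv, rfl⟩ := hx
        rw [map_mul, map_mul]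
        refine JJ_right (JJ_left ?_ _) _
        rcases hv with ⟨i, hi, rfl⟩ | ⟨u, rfl⟩
        · rw [incl_gen]
          exact odd_mem_JJ (sgn_gen_odd hi)
        · change incl deg {i : ι | i ≠ y} (retr deg {i : ι | i ≠ y}
            (d (incl deg {i : ι | i ≠ y} u))) ∈ _
          have h1 := hsplit (d (incl deg {i : ι | i ≠ y} u))
          rw [← sub_eq_iff_eq_add] at h1
          rw [← h1]
          exact Submodule.sub_mem _ (d_mem_JJ _) (JJ_right hYJ _)
      | zero => rw [map_zero]; exact zero_mem _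
      | add x z _ _ hx hz => rw [map_add]; exact add_mem hx hz
      | smul r x _ hx => rw [map_smul]; exact Submodule.smul_mem _ _ hx
    rw [hsplit a]
    exact add_mem (hI _ haJ) (JJ_right hYJ _)

end Anick2
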