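import Pool.Agent.Helper2.GCA.Defs

/-!
Definitions for the statement of the theorem on Anick's conjecture: relative Sullivan algebras,
finite-dimensional cohomology, systems of generators, flat triangular systems, pairs.

`sgn deg` is the involution of `ΛW` which is `(-1)^n` in degree `n`: `sgn a = a` means that `a` is a
sum of homogeneous elements of even degree, `sgn a = -a` that `a` is a sum of homogeneous elements of
odd degree.
-/

set_option autoImplicit false

namespace Anick2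

variable {ι κ : Type}

/-- The inclusion `ΛW → ΛW ⊗ ΛV = Λ(W ⊕ V)`, `W` with basis `ι` and `V` with basis `κ`. -/
noncomputable def inclSum (deg : ι → ℕ) (deg' : κ → ℕ) :
    Lam deg →ₐ[ℚ] Lam (Sum.elim deg deg') :=
  Lam.lift deg (fun i => gen (Sum.elim deg deg') (Sum.inl i))
    (fun i j => gen_comm (Sum.elim deg deg') (Sum.inl i) (Sum.inl j))

/-- `S'` is a relative Sullivan algebra over `S`: the differential of `Λ(W ⊕ V)` extends the
differential of `ΛW`. -/
def MinimalSullivan.IsExtension {deg : ι → ℕ} {deg' : κ → ℕ} (S : MinimalSullivan deg)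
    (S' : MinimalSullivan (Sum.elim deg deg')) : Prop :=
  ∀ a, S'.d (inclSum deg deg' a) = inclSum deg deg' (S.d a)

/-- The cohomology `H(ΛV, d)` is finite-dimensional. -/
def MinimalSullivan.CohomologyFinite {deg : ι → ℕ} (S : MinimalSullivan deg) : Prop :=
  Module.Finite ℚ (LinearMap.ker S.d ⧸ (LinearMap.range S.d).comap (LinearMap.ker S.d).subtype)

/-- The span of the nonempty monomials, `Λ⁺W`. -/
noncomputable def lamPos (deg : ι → ℕ) : Submodule ℚ (Lam deg) :=
  Submodule.span ℚ {a | ∃ l : List ι, l ≠ [] ∧ a = mon deg l}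

/-- The `g i` are homogeneous generators of `ΛW`, `g i` of degree `deg i`. -/
structure IsGenSystem (deg : ι → ℕ) (g : ι → Lam deg) : Prop where
  mem : ∀ i, g i ∈ hom deg (deg i)
  adjoin : Algebra.adjoin ℚ (Set.range g) = ⊤

/-- Modulo `I`, the even elements `e i` of `Λ⁺W` and the odd elements `ω i j` (`j < i`) satisfy
`d e_i = ∑_j ω_ij e_j` and `d ω_ij = ∑_l ω_il ω_lj` (a flat strictly triangular connection). -/
structure FlatMod {deg : ι → ℕ} (d : Lam deg →ₗ[ℚ] Lam deg) (I : Submodule ℚ (Lam deg)) {s : ℕ}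
    (e : Fin s → Lam deg) (ω : Fin s → Fin s → Lam deg) : Prop where
  even : ∀ i, sgn deg (e i) = e i
  pos : ∀ i, e i ∈ lamPos deg
  odd : ∀ i j, sgn deg (ω i j) = -ω i j
  tri : ∀ i j, ¬ j < i → ω i j = 0
  de : ∀ i, d (e i) - ∑ j, ω i j * e j ∈ I
  dω : ∀ i j, d (ω i j) - ∑ l, ω i l * ω l j ∈ I

/-- `t` belongs to a flat triangular system modulo `I`. -/
def FlatElem {deg : ι → ℕ} (d : Lam deg →ₗ[ℚ] Lam deg) (I : Submodule ℚ (Lam deg))
    (t : Lam deg) : Prop :=
  ∃ (s : ℕ) (e : Fin s → Lam deg) (ω : Fin s → Fin s → Lam deg) (k : Fin s),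
    FlatMod d I e ω ∧ e k = t

/-- There are two different even generators `x₁`, `x₂` with `d x₁ ∈ (Y)`, `d x₂ ∈ (Y, x₁)` and
`d t ∈ (Y, x₁, x₂)`. -/
def PairElem {deg : ι → ℕ} (d : Lam deg →ₗ[ℚ] Lam deg) (g : ι → Lam deg) (Y : Set ι)
    (t : Lam deg) : Prop :=
  ∃ i₁ i₂ : ι, i₁ ≠ i₂ ∧ Even (deg i₁) ∧ Even (deg i₂) ∧ d (g i₁) ∈ idealSpan (g '' Y) ∧
    d (g i₂) ∈ idealSpan (g '' Y ∪ {g i₁}) ∧ d t ∈ idealSpan (g '' Y ∪ {g i₁, g i₂})

/-- The class of minimal Sullivan algebras of the theorem. -/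
def MinimalSullivan.Tame {deg : ι → ℕ} (S : MinimalSullivan deg) : Prop :=
  ∃ (g : ι → Lam deg) (Y : Set ι), IsGenSystem deg g ∧
    (∀ y ∈ Y, Odd (deg y) ∧ S.d (g y) ∈ idealSpan (g '' Y)) ∧
    ∀ t, Even (deg t) →
      FlatElem S.d (idealSpan (g '' Y)) (g t) ∨ PairElem S.d g Y (g t)

end Anick2
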